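import Pool.Agent.Helper10.CR.Goals1

/-!
# Project CR: a failure of distributivity gives a diamond
-/

universe u

namespace Pool.Agent.Helper10.CR

section

variable {L : Type u} [Lattice L] [IsModularLattice L]

theorem dd_form (x y z : L) : (x ⊓ (y ⊔ z)) ⊔ (y ⊓ z) = (x ⊔ (y ⊓ z)) ⊓ (y ⊔ z) := by
  rw [sup_comm (x ⊓ (y ⊔ z)), sup_comm x, sup_inf_assoc_of_le x
    (inf_le_left.trans le_sup_left : y ⊓ z ≤ y ⊔ z)]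

theorem dd_inf (x y z : L) :
    ((x ⊓ (y ⊔ z)) ⊔ (y ⊓ z)) ⊓ ((y ⊓ (z ⊔ x)) ⊔ (z ⊓ x)) =
      (x ⊓ y) ⊔ (y ⊓ z) ⊔ (z ⊓ x) := by
  rw [dd_form, dd_form]
  have h1 : (x ⊔ y ⊓ z) ⊓ (y ⊔ z) ⊓ ((y ⊔ z ⊓ x) ⊓ (z ⊔ x)) =
      (x ⊔ y ⊓ z) ⊓ (y ⊔ z ⊓ x) := by
    apply le_antisymm
    · exact le_inf (inf_le_left.trans inf_le_left) (inf_le_right.trans inf_le_left)
    · refine le_inf (le_inf inf_le_left (inf_le_right.trans ?_)) (le_inf inf_le_right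
        (inf_le_left.trans ?_))
      · exact sup_le le_sup_left (inf_le_left.trans le_sup_right)
      · exact sup_le le_sup_right (inf_le_right.trans le_sup_left)
  rw [h1]
  have h2 : z ⊓ x ≤ x ⊔ y ⊓ z := inf_le_right.trans le_sup_left
  have h3 : (x ⊔ y ⊓ z) ⊓ (y ⊔ z ⊓ x) = (z ⊓ x) ⊔ y ⊓ (x ⊔ y ⊓ z) := by
    rw [inf_comm, sup_comm y, sup_inf_assoc_of_le y h2]
  have h4 : y ⊓ (x ⊔ y ⊓ z) = (y ⊓ z) ⊔ x ⊓ y := by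
    rw [inf_comm, sup_comm x, sup_inf_assoc_of_le x (inf_le_left : y ⊓ z ≤ y)]
  rw [h3, h4]
  rw [sup_comm (z ⊓ x), sup_comm (y ⊓ z)]

theorem dd_sup (x y z : L) :
    ((x ⊓ (y ⊔ z)) ⊔ (y ⊓ z)) ⊔ ((y ⊓ (z ⊔ x)) ⊔ (z ⊓ x)) =
      (x ⊔ y) ⊓ (y ⊔ z) ⊓ (z ⊔ x) := by
  have h := dd_inf (L := Lᵒᵈ) (OrderDual.toDual x) (OrderDual.toDual y) (OrderDual.toDual z)
  have h' : ((x ⊔ (y ⊓ z)) ⊓ (y ⊔ z)) ⊔ ((y ⊔ (z ⊓ x)) ⊓ (z ⊔ x)) =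
      (x ⊔ y) ⊓ (y ⊔ z) ⊓ (z ⊔ x) := h
  rw [dd_form, dd_form]
  exact h'

end

theorem goalDiamond : GoalDiamond.{u} := by
  intro L _ _ x y z hne
  have i1 := dd_inf x y z
  have i2 := dd_inf y z x
  have i3 := dd_inf z x y
  have s1 := dd_sup x y z
  have s2 := dd_sup y z x
  have s3 := dd_sup z x y
  have e2 : (y ⊓ z) ⊔ (z ⊓ x) ⊔ (x ⊓ y) = (x ⊓ y) ⊔ (y ⊓ z) ⊔ (z ⊓ x) := by
    rw [sup_comm, ← sup_assoc]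
  have e3 : (z ⊓ x) ⊔ (x ⊓ y) ⊔ (y ⊓ z) = (x ⊓ y) ⊔ (y ⊓ z) ⊔ (z ⊓ x) := by
    rw [sup_assoc, sup_comm]
  have f2 : (y ⊔ z) ⊓ (z ⊔ x) ⊓ (x ⊔ y) = (x ⊔ y) ⊓ (y ⊔ z) ⊓ (z ⊔ x) := by
    rw [inf_comm, ← inf_assoc]
  have f3 : (z ⊔ x) ⊓ (x ⊔ y) ⊓ (y ⊔ z) = (x ⊔ y) ⊓ (y ⊔ z) ⊓ (z ⊔ x) := by
    rw [inf_assoc, inf_comm]
  rw [e2] at i2
  rw [e3] at i3
  rw [f2] at s2
  rw [f3] at s3
  refine ⟨lt_of_le_not_ge ?_ fun h => hne ?_, i1, ?_, i2, s1, ?_, s2⟩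
  · rw [← i1]
    exact inf_le_left
  · have h1 : x ⊓ (y ⊔ z) ≤ x ⊓ ((x ⊓ y) ⊔ (y ⊓ z) ⊔ (z ⊓ x)) :=
      le_inf inf_le_left (le_sup_left.trans h)
    refine h1.trans ?_
    have e : (x ⊓ y) ⊔ (y ⊓ z) ⊔ (z ⊓ x) = ((x ⊓ y) ⊔ (x ⊓ z)) ⊔ (y ⊓ z) := by
      rw [sup_right_comm, inf_comm z x]
    rw [e, inf_comm, sup_inf_assoc_of_le (y ⊓ z) (sup_le inf_le_left inf_le_left)]
    refine sup_le le_rfl ?_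
    exact le_sup_of_le_left (le_inf inf_le_right (inf_le_left.trans inf_le_left))
  · rw [inf_comm]
    exact i3
  · rw [sup_comm]
    exact s3

end Pool.Agent.Helper10.CR
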