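import Pool.Agent.Helper10.CR.Goals1

/-!
# Project CR: transfer of the filter to the pp lattice of the ring
-/

universe u v

namespace Pool.Agent.Helper10.CR

open Pool.Agent.Helper10.Width Pool.Agent.Helper72.Width Pool.Agent.Helper78.SD

theorem tsum_prod {R M : Type*} [Ring R] [AddCommGroup M] [Module R M] {s t : ℕ} (i : Fin s)
    (b : Fin t → R) (Y : Fin s × Fin t → M) :
    ∑ p : Fin s × Fin t, (if p.1 = i then b p.2 else 0) • Y p = ∑ l, b l • Y (i, l) := by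
  rw [Fintype.sum_prod_type, Finset.sum_eq_single i]
  · simp
  · intro j _ hj
    simp [hj]
  · simp

theorem exists_pp {R : Type u} [CommRing R] {n s q N : ℕ} (a : Fin s → R) (b : Fin s → Fin n → R)
    (c : Fin q → Fin N → R) (d : Fin q → Fin N → Fin n → R) (α : PP R) (κ : NPP R N) :
    ∃ θ : PP R, ∀ (M : Type u) [AddCommGroup M] [Module R M] (x : M),
      x ∈ θ.sol M ↔ ∃ y : Fin n → M, (∀ i, a i • x + ∑ j, b i j • y j ∈ α.sol M) ∧
        ∀ l, (fun i => c l i • x + ∑ j, d l i j • y j) ∈ κ.sol M := by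
  refine ⟨PP.mk' (ι := (Fin s × Fin α.n) ⊕ (Fin q × Fin κ.m))
    (κ := Fin n ⊕ ((Fin s × Fin α.k) ⊕ (Fin q × Fin κ.k)))
    (Sum.elim (fun p => α.a p.2 * a p.1) (fun p => ∑ i, κ.a p.2 i * c p.1 i))
    (Sum.elim
      (fun p => Sum.elim (fun j => α.a p.2 * b p.1 j)
        (Sum.elim (fun p' => if p'.1 = p.1 then α.b p.2 p'.2 else 0) (fun _ => 0)))
      (fun p => Sum.elim (fun j => ∑ i, κ.a p.2 i * d p.1 i j)
        (Sum.elim (fun _ => 0) (fun p' => if p'.1 = p.1 then κ.b p.2 p'.2 else 0)))), ?_⟩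
  intro M _ _ x
  rw [PP.mem_mk']
  have e1 : ∀ (Y : Fin n ⊕ ((Fin s × Fin α.k) ⊕ (Fin q × Fin κ.k)) → M) (i : Fin s)
      (r : Fin α.n),
      α.a r • (a i • x + ∑ j, b i j • Y (Sum.inl j)) +
        ∑ l, α.b r l • Y (Sum.inr (Sum.inl (i, l))) =
      (α.a r * a i) • x + (∑ j, (α.a r * b i j) • Y (Sum.inl j) +
        (∑ p' : Fin s × Fin α.k, (if p'.1 = i then α.b r p'.2 else 0) •
          Y (Sum.inr (Sum.inl p')) + ∑ p' : Fin q × Fin κ.k, (0 : R) •
          Y (Sum.inr (Sum.inr p')))) := by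
    intro Y i r
    rw [tsum_prod i (α.b r) (fun p => Y (Sum.inr (Sum.inl p)))]
    simp only [zero_smul, Finset.sum_const_zero, add_zero, smul_add, mul_smul,
      Finset.smul_sum]
    abel
  have e2 : ∀ (Y : Fin n ⊕ ((Fin s × Fin α.k) ⊕ (Fin q × Fin κ.k)) → M) (l : Fin q)
      (r : Fin κ.m),
      ∑ i, κ.a r i • (c l i • x + ∑ j, d l i j • Y (Sum.inl j)) +
        ∑ t, κ.b r t • Y (Sum.inr (Sum.inr (l, t))) =
      (∑ i, κ.a r i * c l i) • x + (∑ j, (∑ i, κ.a r i * d l i j) • Y (Sum.inl j) +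
        (∑ p' : Fin s × Fin α.k, (0 : R) • Y (Sum.inr (Sum.inl p')) +
        ∑ p' : Fin q × Fin κ.k, (if p'.1 = l then κ.b r p'.2 else 0) •
          Y (Sum.inr (Sum.inr p')))) := by
    intro Y l r
    rw [tsum_prod l (κ.b r) (fun p => Y (Sum.inr (Sum.inr p)))]
    simp only [zero_smul, Finset.sum_const_zero, zero_add, smul_add, mul_smul,
      Finset.smul_sum, Finset.sum_smul, Finset.sum_add_distrib]
    rw [Finset.sum_comm (f := fun i j => κ.a r i • d l i j • Y (Sum.inl j))]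
    abel
  constructor
  · rintro ⟨Y, hY⟩
    refine ⟨fun j => Y (Sum.inl j), fun i => ⟨fun l => Y (Sum.inr (Sum.inl (i, l))),
      fun r => ?_⟩, fun l => ⟨fun t => Y (Sum.inr (Sum.inr (l, t))), fun r => ?_⟩⟩
    · have h := hY (Sum.inl (i, r))
      simp only [Fintype.sum_sum_type, Sum.elim_inl, Sum.elim_inr] at h
      rw [e1 Y i r]
      exact h
    · have h := hY (Sum.inr (l, r))
      simp only [Fintype.sum_sum_type, Sum.elim_inl, Sum.elim_inr] at h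
      rw [e2 Y l r]
      exact h
  · rintro ⟨y, h1, h2⟩
    choose z hz using h1
    have h2' : ∀ l, ∃ w : Fin κ.k → M, ∀ r, ∑ i, κ.a r i • (c l i • x + ∑ j, d l i j • y j) +
      ∑ t, κ.b r t • w t = 0 := h2
    choose w hw using h2'
    refine ⟨Sum.elim y (Sum.elim (fun p => z p.1 p.2) (fun p => w p.1 p.2)), ?_⟩
    rintro (⟨i, r⟩ | ⟨l, r⟩)
    · have h := hz i r
      have h' := e1 (Sum.elim y (Sum.elim (fun p => z p.1 p.2) (fun p => w p.1 p.2))) i r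
      simp only [Fintype.sum_sum_type, Sum.elim_inl, Sum.elim_inr] at h' ⊢
      rw [← h']
      exact h
    · have h := hw l r
      have h' := e2 (Sum.elim y (Sum.elim (fun p => z p.1 p.2) (fun p => w p.1 p.2))) l r
      simp only [Fintype.sum_sum_type, Sum.elim_inl, Sum.elim_inr] at h' ⊢
      rw [← h']
      exact h

theorem goalTransfer : GoalTransfer.{u} := by
  intro R _ k _ N ρ P hρ ⟨D, α₀, κ, hα, hκ, hθ⟩ ⟨p, hp, hne, hno⟩
  choose F hF using hθ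
  -- (A)
  have hA : ∀ φ : RF k N, ∃ θ : PP R, ∀ (X : Models P) (t : (D X).T),
      t ∈ θ.sol (D X).T ↔ (D X).π t ∈ φ.sol X.1 := by
    intro φ
    obtain ⟨lf, hlf⟩ : ∃ lf : k → R, ∀ c, ρ (lf c) = c :=
      ⟨Function.surjInv hρ, Function.surjInv_eq hρ⟩
    obtain ⟨θ, hθ⟩ := exists_pp (fun i => lf (φ.a i)) (fun i j => lf (φ.b i j))
      (fun l i => lf (φ.c l i)) (fun l i j => lf (φ.d l i j)) α₀ κ
    refine ⟨θ, fun X t => ?_⟩
    have hπ : ∀ (c : k) (d : Fin φ.n → k) (y : Fin φ.n → (D X).T),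
        (D X).π (lf c • t + ∑ j, lf (d j) • y j) = c • (D X).π t + ∑ j, d j • (D X).π (y j) := by
      intro c d y
      rw [map_add, map_sum, (D X).smul, hlf]
      congr 1
      exact Finset.sum_congr rfl fun j _ => by rw [(D X).smul, hlf]
    rw [hθ, RF.mem_sol]
    constructor
    · rintro ⟨y, h1, h2⟩
      refine ⟨fun j => (D X).π (y j), fun i => ?_, fun l => ?_⟩
      · rw [← hπ]
        exact (hα X _).1 (h1 i)
      · have := (hκ X _).1 (h2 l)
        simp only [hπ] at this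
        exact this
    · rintro ⟨y, h1, h2⟩
      choose z hz using fun j => (D X).surj (y j)
      refine ⟨z, fun i => ?_, fun l => ?_⟩
      · rw [hα X, hπ]
        simp only [hz]
        exact h1 i
      · rw [hκ X]
        simp only [hπ, hz]
        exact h2 l
  choose Θ hΘ using hA
  let T : Set (PP R × PP R) := {q | ∀ X : Models P, q.1.sol (D X).T ≤ q.2.sol (D X).T}
  have hle : ∀ θ θ' : PP R, toL T θ ≤ toL T θ' ↔
      ∀ X : Models P, θ.sol (D X).T ≤ θ'.sol (D X).T := by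
    intro θ θ'
    constructor
    · intro h X
      exact h ⟨ModuleCat.of R (D X).T, fun q hq => hq X⟩
    · intro h M
      exact M.2 (θ, θ') h
  have G1 : ∀ φ ψ : RF k N, toL T (Θ φ) ≤ toL T (Θ ψ) ↔ toD P φ ≤ toD P ψ := by
    intro φ ψ
    rw [hle, toD_le]
    constructor
    · intro h X v hv
      obtain ⟨t, rfl⟩ := (D X).surj v
      exact (hΘ ψ X t).1 (h X ((hΘ φ X t).2 hv))
    · intro h X t ht
      exact (hΘ ψ X t).2 (h X ((hΘ φ X t).1 ht))
  have G2 : ∀ φ ψ : RF k N, toL T (Θ φ) ⊓ toL T (Θ ψ) = toL T (Θ (φ.inf ψ)) := by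
    intro φ ψ
    rw [← toL_inf]
    apply le_antisymm <;> rw [hle] <;> intro X t ht
    · rw [PP.sol_inf, AddSubgroup.mem_inf] at ht
      rw [hΘ, RF.sol_inf]
      exact ⟨(hΘ φ X t).1 ht.1, (hΘ ψ X t).1 ht.2⟩
    · rw [hΘ, RF.sol_inf] at ht
      rw [PP.sol_inf, AddSubgroup.mem_inf]
      exact ⟨(hΘ φ X t).2 ht.1, (hΘ ψ X t).2 ht.2⟩
  have G3 : ∀ φ ψ : RF k N, toL T (Θ φ) ⊔ toL T (Θ ψ) = toL T (Θ (φ.sup ψ)) := by
    intro φ ψ
    rw [← toL_sup]
    apply le_antisymm <;> rw [hle] <;> intro X t ht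
    · rw [PP.sol_sup, AddSubgroup.mem_sup] at ht
      obtain ⟨t1, h1, t2, h2, rfl⟩ := ht
      rw [hΘ, RF.sol_sup, map_add]
      exact Submodule.add_mem_sup ((hΘ φ X t1).1 h1) ((hΘ ψ X t2).1 h2)
    · rw [hΘ, RF.sol_sup, Submodule.mem_sup] at ht
      obtain ⟨v, hv, w, hw, e⟩ := ht
      obtain ⟨t1, rfl⟩ := (D X).surj v
      rw [PP.sol_sup, AddSubgroup.mem_sup]
      refine ⟨t1, (hΘ φ X t1).2 hv, t - t1, (hΘ ψ X _).2 ?_, by abel⟩
      rw [map_sub, ← e, add_sub_cancel_left]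
      exact hw
  have G4 : ∀ x : ppLattice T, toL T (Θ (RF.bot k N)) ≤ x → ∃ φ, x = toL T (Θ φ) := by
    intro x hx
    obtain ⟨θ, rfl⟩ := toL_surjective T x
    rw [hle] at hx
    refine ⟨F θ, ?_⟩
    apply le_antisymm <;> rw [hle] <;> intro X t ht
    · rw [hΘ, hF]
      exact ⟨t, ht, rfl⟩
    · rw [hΘ, hF] at ht
      obtain ⟨t', ht', e⟩ := ht
      have h1 : t - t' ∈ θ.sol (D X).T := by
        refine hx X ((hΘ _ X _).2 ?_)
        rw [RF.sol_bot, Submodule.mem_bot, map_sub, e, sub_self]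
      have := add_mem h1 ht'
      rwa [sub_add_cancel] at this
  have hbot : ∀ φ : RF k N, toD P (RF.bot k N) ≤ toD P φ := by
    intro φ X
    show (RF.bot k N).sol X.1 ≤ φ.sol X.1
    rw [RF.sol_bot]
    exact bot_le
  have htop : ∀ φ : RF k N, toD P φ ≤ toD P (RF.top k N) := by
    intro φ X
    show φ.sol X.1 ≤ (RF.top k N).sol X.1
    rw [RF.sol_top]
    exact le_top
  have hLtop : ∀ x : ppLattice T, x ≤ toL T (Θ (RF.top k N)) := by
    intro x
    obtain ⟨θ, rfl⟩ := toL_surjective T x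
    rw [hle]
    intro X t _
    rw [hΘ, RF.sol_top]
    trivial
  let p₁ : Set (ppLattice T) := {x | ∃ φ, x = toL T (Θ φ) ∧ toD P φ ∈ p}
  have hmem : ∀ φ, toL T (Θ φ) ∈ p₁ ↔ toD P φ ∈ p := by
    intro φ
    constructor
    · rintro ⟨ψ, e, h⟩
      exact hp.up h ((G1 ψ φ).1 e.ge)
    · intro h
      exact ⟨φ, rfl, h⟩
  obtain ⟨p', hp', -, hb', hno'⟩ := extend_noLarge (toL T (Θ (RF.top k N)))
    (toL T (Θ (RF.bot k N))) ((G1 _ _).2 (hbot _)) p₁
    (by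
      rintro _ ⟨φ, rfl, -⟩
      exact ⟨(G1 _ _).2 (hbot _), (G1 _ _).2 (htop _)⟩)
    (by
      rw [hmem]
      obtain ⟨x, hx⟩ := hp.nonempty
      obtain ⟨φ, rfl⟩ := toD_surjective P x
      exact hp.up hx (htop φ))
    (by
      rw [hmem]
      intro h
      obtain ⟨x, hx⟩ := hne
      obtain ⟨φ, rfl⟩ := toD_surjective P x
      exact hx (hp.up h (hbot φ)))
    (by
      rintro _ ⟨φ, rfl, h⟩ y hy hxy
      obtain ⟨ψ, rfl⟩ := G4 y hy.1
      rw [hmem]
      exact hp.up h ((G1 _ _).1 hxy))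
    (by
      rintro _ ⟨φ, rfl, h⟩ _ ⟨ψ, rfl, h'⟩
      rw [G2, hmem, toD_inf]
      exact hp.inf h h')
    (by
      intro x hx hxp
      obtain ⟨φ, rfl⟩ := G4 x hx.1
      rw [hmem] at hxp
      obtain ⟨y₁, y₂, h1, h2, h3, h4, h5⟩ := hno _ hxp
      obtain ⟨φ₁, rfl⟩ := toD_surjective P y₁
      obtain ⟨φ₂, rfl⟩ := toD_surjective P y₂
      refine ⟨toL T (Θ φ₁), ⟨(G1 _ _).2 (hbot _), hLtop _⟩, toL T (Θ φ₂),
        ⟨(G1 _ _).2 (hbot _), hLtop _⟩, (G1 _ _).2 h1, (G1 _ _).2 h2, ?_, ?_, ?_⟩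
      · rwa [hmem]
      · rwa [hmem]
      · rintro _ ⟨τ, rfl, hτ⟩
        rw [G2, G2, G3, hmem, toD_sup, toD_inf, toD_inf]
        exact h5 _ hτ)
  obtain ⟨M, -, hM⟩ := superdecomposable_of_noLarge T hp' ⟨_, hb'⟩ hno'
  exact ⟨M, fun q hq => absurd hq (Set.notMem_empty q), hM⟩

end Pool.Agent.Helper10.CR
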