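import Pool.Agent.Helper10.CR.Final
import Pool.Agent.Helper10.CR.Diamond
import Pool.Agent.Helper10.CR.Trans
import Pool.Agent.Helper17.CR.Ax1
import Pool.Agent.Helper30.CR.ATII
import Pool.Agent.Helper32.CR.LRS
import Pool.Agent.Helper32.CR.QUOT
import Pool.Agent.Helper33.CR.EXII
import Pool.Agent.Helper39.CR.Concat
import Pool.Agent.Helper40.CR.LIFT
import Pool.Agent.Helper42.CR.TI
import Pool.Agent.Helper45.CR.LR3
import Pool.Agent.Helper51.CR.AX2
import Pool.Agent.Helper51.CR.NF
import Pool.Agent.Helper55.CR.DOUBLE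
import Pool.Agent.Helper56.CR.RSH
import Pool.Agent.Helper58.CR.LAI
import Pool.Agent.Helper59.CR.LR2
import Pool.Agent.Helper60.CR.ESP
import Pool.Agent.Helper61.CR.Deloc
import Pool.Agent.Helper61.CR.Eng
import Pool.Agent.Helper62.CR.ExI
import Pool.Agent.Helper62.CR.Loc
import Pool.Agent.Helper65.CR.LT
import Pool.Agent.Helper67.CR.TW
import Pool.Agent.Helper72.CR.StrII
import Pool.Agent.Helper75.CR.KB
import Pool.Agent.Helper77.CR.LAII
import Pool.Agent.Helper79.CR.STRING
import Pool.Agent.Helper8.CR.BOXES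
import Pool.Agent.Helper8.CR.STRW
import Pool.Agent.Helper81.CR.ATI
import Pool.Agent.Helper83.CR.StrI
import Pool.Agent.Helper84.CR.LR1
import Pool.Agent.Helper89.CR.LAW
import Pool.Agent.Helper94.CR.TII
import Pool.Agent.Helper97.CR.CHAIN

/-!
# Project CR: all statements proved
-/

universe u

namespace Pool.Agent.Helper10.CR

theorem tools : Tools.{u} where
  boxes := Pool.Agent.Helper8.CR.goalBoxes
  engine := Pool.Agent.Helper61.CR.goalEngine
  kb := Pool.Agent.Helper75.CR.goalKB
  rsh := Pool.Agent.Helper56.CR.goalRSH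
  transfer := Pool.Agent.Helper10.CR.goalTransfer
  string := Pool.Agent.Helper79.CR.goalString
  lift := Pool.Agent.Helper40.CR.goalLift
  law := Pool.Agent.Helper89.CR.goalLAW
  lai := Pool.Agent.Helper58.CR.goalLAI
  nf := Pool.Agent.Helper51.CR.goalNF
  laii := Pool.Agent.Helper77.CR.goalLAII
  ax1 := Pool.Agent.Helper17.CR.goalAx1
  ax2 := Pool.Agent.Helper51.CR.goalAx2
  strW := Pool.Agent.Helper8.CR.goalStrW
  strI := Pool.Agent.Helper83.CR.goalStrI
  strII := Pool.Agent.Helper72.CR.goalStrII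
  exI := Pool.Agent.Helper62.CR.goalExI
  exII := Pool.Agent.Helper33.CR.goalExII
  atI := Pool.Agent.Helper81.CR.goalAtI
  atII := Pool.Agent.Helper30.CR.goalAtII
  esp := Pool.Agent.Helper60.CR.goalEsp
  tW := Pool.Agent.Helper67.CR.goalTW
  tI := Pool.Agent.Helper42.CR.goalTI
  tII := Pool.Agent.Helper94.CR.goalTII

theorem tools' : Tools'.{u} where
  concat := Pool.Agent.Helper39.CR.goalConcat
  quotient := Pool.Agent.Helper32.CR.goalQuotient
  diamond := Pool.Agent.Helper10.CR.goalDiamond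
  lt := Pool.Agent.Helper65.CR.goalLT
  double := Pool.Agent.Helper55.CR.goalDouble
  localize := Pool.Agent.Helper62.CR.goalLocalize
  delocalize := Pool.Agent.Helper61.CR.goalDelocalize
  chain := Pool.Agent.Helper97.CR.goalChain
  lrs := Pool.Agent.Helper32.CR.goalLRS
  lr1 := Pool.Agent.Helper84.CR.goalLR1
  lr2 := (Pool.Agent.Helper59.CR.goalLR2 Pool.Agent.Helper84.CR.goalLR1)
  lr3 := Pool.Agent.Helper45.CR.goalLR3

end Pool.Agent.Helper10.CR
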