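import Pool.Agent.Helper10.CR.Goals2
import Pool.Agent.Helper78.SD.Filter
import Pool.Agent.Helper78.SD.F1x
import Pool.Agent.Helper90.SD.F2
import Pool.Agent.Helper89.SD.F34
import Pool.Agent.Helper27.SD.ClassRefl
import Pool.Agent.Helper27.SD.Restrict
import Pool.Agent.Helper78.SD.Card
import Pool.Agent.Helper78.SD.Large
import Pool.Agent.Helper75.SD.Art2
import Pool.Agent.Helper78.SD.Art1
import Pool.Agent.Helper78.SD.Close

/-!
# Project CR: local Artinian rings and quotients
-/

universe u v

namespace Pool.Agent.Helper10.CR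

open Pool.Agent.Helper10.Width Pool.Agent.Helper72.Width Pool.Agent.Helper78.SD

theorem sm_of_countable {X : Type u} [Countable X] : Sm X := by
  refine lt_of_le_of_lt (Cardinal.mk_le_aleph0_iff.2 ‹_›) aleph0_lt_lift

/-- The Artinian case. -/
theorem hasSD_artinian (R : Type u) [CommRing R] [IsLocalRing R] [IsArtinianRing R]
    (h : HasScheme (PPL R)) : HasSD R := by
  obtain ⟨Φ, Ψ, hS⟩ := h
  choose f hf using fun s => toL_surjective ∅ (Φ s)
  choose g hg using fun s => toL_surjective ∅ (Ψ s)
  have hspan : Submodule.span R ({1} : Set R) = ⊤ := by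
    rw [eq_top_iff]
    intro x _
    exact Submodule.mem_span_singleton.2 ⟨x, by simp⟩
  have hD : Descends.{u, u} R := Pool.Agent.Helper75.SD.goalArt2 R
    (Pool.Agent.Helper78.SD.Art.goalArt1 Pool.Agent.Helper78.SD.goalClose R) R {1}
    sm_of_countable hspan
  refine main_scheme Pool.Agent.Helper78.SD.goalFilter
    Pool.Agent.Helper27.SD.goalClass Pool.Agent.Helper78.SD.goalCard
    (Pool.Agent.Helper78.SD.goalNoLarge Pool.Agent.Helper78.SD.goalF1a
      Pool.Agent.Helper78.SD.goalF1b Pool.Agent.Helper90.SD.goalF2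
      Pool.Agent.Helper89.SD.goalF3 Pool.Agent.Helper89.SD.goalF4)
    Pool.Agent.Helper27.SD.goalReflect R hD ∅ sm_of_countable f g ?_
  have e1 : (fun s => toL ∅ (f s)) = Φ := funext hf
  have e2 : (fun s => toL ∅ (g s)) = Ψ := funext hg
  rw [e1, e2]
  exact hS

/-- Superdecomposable pure-injective modules over a quotient ring. -/
theorem hasSD_of_surjective {R R' : Type u} [CommRing R] [CommRing R'] (π : R →+* R')
    (hπ : Function.Surjective π) (h : HasSD R') : HasSD R := by
  refine Pool.Agent.Helper27.SD.goalRestrict R R' π hπ ∅ ?_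
  have : mapT π ∅ = ∅ := Set.image_empty _
  rw [this]
  exact h

end Pool.Agent.Helper10.CR
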