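import Pool.Agent.Helper10.CR.Defs2

/-!
# Project CR: the three kinds of local rings and the corresponding classes of structures
-/

universe u v

namespace Pool.Agent.Helper10.CR

open Pool.Agent.Helper10.Width Pool.Agent.Helper72.Width Pool.Agent.Helper78.SD
open scoped QuadraticAlgebra

section classes

variable {k : Type u} [Field k]

/-- Case W: `Rel = {(y₁, y₂, y₃) | a y₁ + b y₂ + c y₃ = 0}`, and `b` is injective. -/
def PW (X : RS k 3) : Prop := ∀ v : X.V, ![0, v, 0] ∈ X.Rel → v = 0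

/-- Case I: the relation is the product of `Ps = {(y, s) | a y = b s}` (first two coordinates) and
`Px = {(y, s) | x y = b s}` (last two coordinates). -/
structure PI (X : RS k 4) : Prop where
  prod : ∀ w ∈ X.Rel, ![w 0, w 1, 0, 0] ∈ X.Rel
  inj : ∀ v : X.V, ![0, v, 0, 0] ∈ X.Rel → v = 0
  xs : ∀ y s : X.V, ![0, 0, y, s] ∈ X.Rel → ![y, 0, 0, 0] ∈ X.Rel
  sx : ∀ y s : X.V, ![y, s, 0, 0] ∈ X.Rel → ![0, 0, 0, s] ∈ X.Rel
  xs' : ∀ s : X.V, ![0, 0, 0, s] ∈ X.Rel → ∃ y, ![y, s, 0, 0] ∈ X.Rel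

/-- Case II: the relation is the product of `Δ` (coordinates 0, 1), the graph of an operator `λ` with
`λ² = β λ + α` on a subspace `VD`, of `Wr` (coordinates 2, 3) and of `G` (coordinates 4, 5, 6), a
map `VD → V² / (Wr + Λ Wr)` compatible with `λ` and with `Λ (u, v) = (α v, u + β v)`. -/
structure PII (α β : k) (X : RS k 7) : Prop where
  prod : ∀ w ∈ X.Rel, ![w 0, w 1, 0, 0, 0, 0, 0] ∈ X.Rel ∧ ![0, 0, w 2, w 3, 0, 0, 0] ∈ X.Rel
  d1 : ∀ y y' : X.V, ![y, y', 0, 0, 0, 0, 0] ∈ X.Rel →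
    ![y', α • y + β • y', 0, 0, 0, 0, 0] ∈ X.Rel
  d2 : ∀ y' : X.V, ![0, y', 0, 0, 0, 0, 0] ∈ X.Rel → y' = 0
  dw : ∀ y y' : X.V, ![y, y', 0, 0, 0, 0, 0] ∈ X.Rel → ![0, 0, y', -y, 0, 0, 0] ∈ X.Rel
  w0 : ∀ y : X.V, ![0, 0, y, 0, 0, 0, 0] ∈ X.Rel → y = 0
  g1 : ∀ y u v : X.V, ![0, 0, 0, 0, y, u, v] ∈ X.Rel → ∃ y', ![y, y', 0, 0, 0, 0, 0] ∈ X.Rel ∧
    ![0, 0, 0, 0, y', α • v, u + β • v] ∈ X.Rel
  g2 : ∀ y y' : X.V, ![y, y', 0, 0, 0, 0, 0] ∈ X.Rel → ∃ u v, ![0, 0, 0, 0, y, u, v] ∈ X.Rel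
  g3 : ∀ u v : X.V, ![0, 0, u, v, 0, 0, 0] ∈ X.Rel → ![0, 0, 0, 0, 0, u, v] ∈ X.Rel
  g4 : ∀ u v : X.V, ![0, 0, 0, 0, 0, u, v] ∈ X.Rel → ∃ u₁ v₁ u₂ v₂,
    ![0, 0, u₁, v₁, 0, 0, 0] ∈ X.Rel ∧ ![0, 0, u₂, v₂, 0, 0, 0] ∈ X.Rel ∧
    u = u₁ + α • v₂ ∧ v = v₁ + u₂ + β • v₂

end classes

section local_rings

/-- Case W: three elements, none of which is in the ideal generated by the others and the products
with the maximal ideal. -/
def CaseW (R : Type u) [CommRing R] [IsLocalRing R] : Prop :=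
  ∃ a b c : R, ∀ u v w : R,
    u * a + v * b + w * c ∈ IsLocalRing.maximalIdeal R * Ideal.span {a, b, c} →
    u ∈ IsLocalRing.maximalIdeal R ∧ v ∈ IsLocalRing.maximalIdeal R ∧
      w ∈ IsLocalRing.maximalIdeal R

/-- Case I. -/
def CaseI (R : Type u) [CommRing R] [IsLocalRing R] : Prop :=
  ∃ r ∈ IsLocalRing.maximalIdeal R, ∃ x ∈ IsLocalRing.maximalIdeal R,
    ∃ q ∈ IsLocalRing.maximalIdeal R, ¬ x ∣ q ∧ ¬ q ∣ r * x

/-- Case II. -/
def CaseII (R : Type u) [CommRing R] [IsLocalRing R] : Prop :=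
  ∃ r ∈ IsLocalRing.maximalIdeal R, ∃ x ∈ IsLocalRing.maximalIdeal R,
    ∃ x' ∈ IsLocalRing.maximalIdeal R, ∃ α β : R,
    (∀ u v : R, u * (r * x) + v * (r * x') ∈
      IsLocalRing.maximalIdeal R * Ideal.span {r * x, r * x'} →
      u ∈ IsLocalRing.maximalIdeal R ∧ v ∈ IsLocalRing.maximalIdeal R) ∧
    (∀ l : R, l ^ 2 - (α + β * l) ∉ IsLocalRing.maximalIdeal R) ∧
    ∀ u v f g : R, u * x + v * x' - (f * (r * x) + g * (r * x')) ∈
      IsLocalRing.maximalIdeal R * Ideal.span {r * x, r * x'} →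
      u * x' + v * (α * x + β * x') - (α * g * (r * x) + (f + β * g) * (r * x')) ∈
        IsLocalRing.maximalIdeal R * Ideal.span {r * x, r * x'}

/-- The data of case W in a quotient ring: independent socle elements. -/
structure DW (R : Type u) [CommRing R] [IsLocalRing R] (a b c : R) : Prop where
  soc : ∀ t ∈ IsLocalRing.maximalIdeal R, t * a = 0 ∧ t * b = 0 ∧ t * c = 0
  ind : ∀ u v w : R, u * a + v * b + w * c = 0 → u ∈ IsLocalRing.maximalIdeal R ∧
    v ∈ IsLocalRing.maximalIdeal R ∧ w ∈ IsLocalRing.maximalIdeal R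

/-- The data of case I in a quotient ring: independent socle elements `a = r x`, `b`. -/
structure DI (R : Type u) [CommRing R] [IsLocalRing R] (r x b : R) : Prop where
  rm : r ∈ IsLocalRing.maximalIdeal R
  xm : x ∈ IsLocalRing.maximalIdeal R
  bm : b ∈ IsLocalRing.maximalIdeal R
  soc : ∀ t ∈ IsLocalRing.maximalIdeal R, t * (r * x) = 0 ∧ t * b = 0
  ind : ∀ u v : R, u * (r * x) + v * b = 0 → u ∈ IsLocalRing.maximalIdeal R ∧
    v ∈ IsLocalRing.maximalIdeal R
  cap : ∀ g u v : R, x * g = u * (r * x) + v * b → v ∈ IsLocalRing.maximalIdeal R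

/-- The data of case II in a quotient ring: independent socle elements `a = r x`, `b = r x'`. -/
structure DII (R : Type u) [CommRing R] [IsLocalRing R] (r x x' α β : R) : Prop where
  rm : r ∈ IsLocalRing.maximalIdeal R
  xm : x ∈ IsLocalRing.maximalIdeal R
  xm' : x' ∈ IsLocalRing.maximalIdeal R
  soc : ∀ t ∈ IsLocalRing.maximalIdeal R, t * (r * x) = 0 ∧ t * (r * x') = 0
  ind : ∀ u v : R, u * (r * x) + v * (r * x') = 0 → u ∈ IsLocalRing.maximalIdeal R ∧
    v ∈ IsLocalRing.maximalIdeal R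
  irr : ∀ l : R, l ^ 2 - (α + β * l) ∉ IsLocalRing.maximalIdeal R
  ex : ∀ u v f g : R, u * x + v * x' = f * (r * x) + g * (r * x') →
    u * x' + v * (α * x + β * x') = α * g * (r * x) + (f + β * g) * (r * x')

end local_rings

section contexts

variable {R : Type u} [CommRing R] [IsLocalRing R]

open IsLocalRing

theorem residue_zero_of_mem {a : R} (h : a ∈ maximalIdeal R) : residue R a = 0 := by
  rwa [residue_eq_zero_iff]

/-- The context of case W (no blocks of the second kind are used). -/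
noncomputable def ctxW {a b c : R} (h : a ∈ maximalIdeal R ∧ b ∈ maximalIdeal R ∧
    c ∈ maximalIdeal R) : Ctx R (ResidueField R) R (ResidueField R) where
  ρ := residue R
  hρ := residue_surjective
  ρ' := residue R
  hρ' := residue_surjective
  comm := fun r => rfl
  n := 3
  a := ![a, b, c]
  ha := by
    intro j
    fin_cases j
    · exact residue_zero_of_mem h.1
    · exact residue_zero_of_mem h.2.1
    · exact residue_zero_of_mem h.2.2
  χ := 0
  hχ := map_zero _

/-- The context of case I. -/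
noncomputable def ctxI {r x b : R} (h : DI R r x b) :
    Ctx R (ResidueField R) R (ResidueField R) where
  ρ := residue R
  hρ := residue_surjective
  ρ' := residue R
  hρ' := residue_surjective
  comm := fun r => rfl
  n := 2
  a := ![r * x, b]
  ha := by
    intro j
    fin_cases j
    · exact residue_zero_of_mem (Ideal.mul_mem_left _ _ h.xm)
    · exact residue_zero_of_mem h.bm
  χ := x
  hχ := residue_zero_of_mem h.xm

/-- Reduction of the coefficients of the quadratic algebra. -/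
noncomputable def quadRes (α β : R) :
    QuadraticAlgebra R α β →+* QuadraticAlgebra (ResidueField R) (residue R α) (residue R β) where
  toFun z := ⟨residue R z.re, residue R z.im⟩
  map_one' := by ext <;> simp
  map_mul' z w := by ext <;> simp
  map_zero' := by ext <;> simp
  map_add' z w := by ext <;> simp

/-- The context of case II: `R' = R[ω]`, `ω² = α + β ω`, `χ = x' - x ω`. -/
noncomputable def ctxII {r x x' α β : R} (h : DII R r x x' α β) :
    Ctx R (ResidueField R) (QuadraticAlgebra R α β)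
      (QuadraticAlgebra (ResidueField R) (residue R α) (residue R β)) where
  ρ := residue R
  hρ := residue_surjective
  ρ' := quadRes α β
  hρ' := by
    rintro ⟨s, t⟩
    obtain ⟨s, rfl⟩ := residue_surjective s
    obtain ⟨t, rfl⟩ := residue_surjective t
    exact ⟨⟨s, t⟩, rfl⟩
  comm := by
    intro r
    show (⟨residue R _, residue R _⟩ : QuadraticAlgebra (ResidueField R) _ _) = ⟨_, _⟩
    rw [QuadraticAlgebra.algebraMap_re, QuadraticAlgebra.algebraMap_im, map_zero]
    rfl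
  n := 2
  a := ![r * x, r * x']
  ha := by
    intro j
    fin_cases j
    · exact residue_zero_of_mem (Ideal.mul_mem_left _ _ h.xm)
    · exact residue_zero_of_mem (Ideal.mul_mem_left _ _ h.xm')
  χ := ⟨x', -x⟩
  hχ := by
    show (⟨residue R x', residue R (-x)⟩ : QuadraticAlgebra (ResidueField R) _ _) = 0
    rw [map_neg, residue_zero_of_mem h.xm, residue_zero_of_mem h.xm', neg_zero]
    rfl

end contexts

section structures

variable {k : Type u} [Field k]

/-- The properties of the data used for the module in case I. -/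
structure IsStrI (X : RS k 4) (S : Str k k 2 X.V) : Prop where
  wr : ∀ w, w ∈ S.Wr ↔ ![w 0, -w 1, 0, 0] ∈ X.Rel
  g0 : ∀ z, S.γ z 0 = 0
  g1 : ∀ z, ![0, 0, S.e (0, z), -(S.γ z 1)] ∈ X.Rel
  hD : ∀ y s, ![0, 0, y, s] ∈ X.Rel → ∃ z, S.e (0, z) = y

/-- The properties of the data used for the module in case II. -/
structure IsStrII (α β : k) (X : RS k 7) (S : Str k (QuadraticAlgebra k α β) 2 X.V) : Prop where
  wr : ∀ w, w ∈ S.Wr ↔ ![0, 0, w 0, w 1, 0, 0, 0] ∈ X.Rel
  dl : ∀ z, ![S.e (0, z), S.e (0, (ω : QuadraticAlgebra k α β) • z), 0, 0, 0, 0, 0] ∈ X.Rel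
  hD : ∀ y y', ![y, y', 0, 0, 0, 0, 0] ∈ X.Rel → ∃ z, S.e (0, z) = y
  g : ∀ z, ![0, 0, 0, 0, S.e (0, z),
    S.γ ((ω : QuadraticAlgebra k α β) • z) 0 - β • S.γ z 0 + α • S.γ z 1,
    S.γ ((ω : QuadraticAlgebra k α β) • z) 1 + S.γ z 0] ∈ X.Rel

end structures

end Pool.Agent.Helper10.CR
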