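import Pool.Agent.Helper78.SD.Final2

/-!
# Project CR: superdecomposable pure-injective modules over commutative rings. Definitions
-/

universe u v

namespace Pool.Agent.Helper10.CR

open Pool.Agent.Helper10.Width Pool.Agent.Helper72.Width Pool.Agent.Helper78.SD

/-! ### Lattices -/

section lattice

variable {L : Type u} [Lattice L]

/-- The lattice contains a binary scheme. -/
def HasScheme (L : Type u) [Lattice L] : Prop := ∃ φ ψ : List Bool → L, Scheme φ ψ

/-- The interval `[b, a]` contains a binary scheme. -/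
def SchemeIn (b a : L) : Prop := ∃ φ ψ : List Bool → L, Scheme φ ψ ∧ b ≤ ψ [] ∧ φ [] ≤ a

/-- The lattice has a proper filter without large elements. -/
def NoLargeFilter (L : Type u) [Lattice L] : Prop :=
  ∃ p : Set L, IsFilt p ∧ (∃ x, x ∉ p) ∧ NoLarge p

/-- `p < u, v, w < q` is a diamond (the lattice `M₃`). -/
structure IsDiamond (p u v w q : L) : Prop where
  lt : p < u
  uv : u ⊓ v = p
  uw : u ⊓ w = p
  vw : v ⊓ w = p
  uv' : u ⊔ v = q
  uw' : u ⊔ w = q
  vw' : v ⊔ w = q

/-- An infinite nested sequence of diamonds. -/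
def NestedDiamonds (L : Type u) [Lattice L] : Prop :=
  ∃ p u v w q : ℕ → L, ∀ n, IsDiamond (p n) (u n) (v n) (w n) (q n) ∧ p n ≤ p (n + 1) ∧
    q (n + 1) ≤ u n

end lattice

/-! ### The pp lattice of all modules -/

/-- The lattice of pp conditions modulo equivalence in all modules. -/
abbrev PPL (S : Type u) [Ring S] : Type (u + 1) := ppLattice (∅ : Set (PP S × PP S))

/-- There is a superdecomposable pure-injective module over the ring. -/
abbrev HasSD (S : Type u) [Ring S] : Prop := HasSuperdecomposable (∅ : Set (PP S × PP S))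

/-! ### Relational structures over a field: a vector space `V` with a subspace of `V^N` -/

/-- A vector space `V` with a subspace `Rel` of `V^N`. -/
structure RS (k : Type u) [Field k] (N : ℕ) where
  /-- the vector space -/
  V : Type u
  [acg : AddCommGroup V]
  [mod : Module k V]
  /-- the relation -/
  Rel : Submodule k (Fin N → V)

attribute [instance] RS.acg RS.mod

/-- A pp condition in one free variable `x` for relational structures:
`∃ y, (∀ i, a i x + ∑ j, b i j y_j = 0) ∧ ∀ l, (c l i x + ∑ j, d l i j y_j)_i ∈ Rel`. -/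
structure RF (k : Type u) (N : ℕ) where
  /-- number of bound variables -/
  n : ℕ
  /-- number of linear equations -/
  s : ℕ
  /-- number of conditions with the relation -/
  q : ℕ
  /-- coefficients -/
  a : Fin s → k
  /-- coefficients -/
  b : Fin s → Fin n → k
  /-- coefficients -/
  c : Fin q → Fin N → k
  /-- coefficients -/
  d : Fin q → Fin N → Fin n → k

section RF

variable {k : Type u} [Field k] {N : ℕ}

/-- The subspace defined by a condition. -/
def RF.sol (φ : RF k N) (X : RS k N) : Submodule k X.V where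
  carrier := {x | ∃ y : Fin φ.n → X.V, (∀ i, φ.a i • x + ∑ j, φ.b i j • y j = 0) ∧
    ∀ l, (fun i => φ.c l i • x + ∑ j, φ.d l i j • y j) ∈ X.Rel}
  zero_mem' := ⟨0, fun i => by simp, fun l => by
    have : (fun i => φ.c l i • (0 : X.V) + ∑ j, φ.d l i j • (0 : Fin φ.n → X.V) j) = 0 := by
      ext i; simp
    rw [this]
    exact zero_mem _⟩
  add_mem' := by
    rintro x x' ⟨y, hy, hy'⟩ ⟨z, hz, hz'⟩
    have e : ∀ (a : k) (b : Fin φ.n → k), a • (x + x') + ∑ j, b j • (y + z) j =
        (a • x + ∑ j, b j • y j) + (a • x' + ∑ j, b j • z j) := by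
      intro a b
      simp only [Pi.add_apply, smul_add, Finset.sum_add_distrib]
      abel
    refine ⟨y + z, fun i => by rw [e, hy, hz, add_zero], fun l => ?_⟩
    have := add_mem (hy' l) (hz' l)
    convert this using 1
    ext i
    exact e _ _
  smul_mem' := by
    rintro t x ⟨y, hy, hy'⟩
    have e : ∀ (a : k) (b : Fin φ.n → k), a • (t • x) + ∑ j, b j • (t • y) j =
        t • (a • x + ∑ j, b j • y j) := by
      intro a b
      simp only [Pi.smul_apply, smul_add, Finset.smul_sum, smul_comm t]
    refine ⟨t • y, fun i => by rw [e, hy, smul_zero], fun l => ?_⟩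
    have := Submodule.smul_mem _ t (hy' l)
    convert this using 1
    ext i
    exact e _ _

theorem RF.mem_sol {φ : RF k N} {X : RS k N} {x : X.V} :
    x ∈ φ.sol X ↔ ∃ y : Fin φ.n → X.V, (∀ i, φ.a i • x + ∑ j, φ.b i j • y j = 0) ∧
      ∀ l, (fun i => φ.c l i • x + ∑ j, φ.d l i j • y j) ∈ X.Rel := Iff.rfl

/-- The condition given by a system with arbitrary finite index types. -/
noncomputable def RF.mk' {ν σ θ : Type} [Fintype ν] [Fintype σ] [Fintype θ]
    (a : σ → k) (b : σ → ν → k) (c : θ → Fin N → k) (d : θ → Fin N → ν → k) : RF k N where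
  n := Fintype.card ν
  s := Fintype.card σ
  q := Fintype.card θ
  a := fun i => a ((Fintype.equivFin σ).symm i)
  b := fun i j => b ((Fintype.equivFin σ).symm i) ((Fintype.equivFin ν).symm j)
  c := fun l i => c ((Fintype.equivFin θ).symm l) i
  d := fun l i j => d ((Fintype.equivFin θ).symm l) i ((Fintype.equivFin ν).symm j)

theorem RF.mem_mk' {ν σ θ : Type} [Fintype ν] [Fintype σ] [Fintype θ]
    (a : σ → k) (b : σ → ν → k) (c : θ → Fin N → k) (d : θ → Fin N → ν → k)
    {X : RS k N} {x : X.V} :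
    x ∈ (RF.mk' a b c d).sol X ↔ ∃ y : ν → X.V, (∀ i, a i • x + ∑ j, b i j • y j = 0) ∧
      ∀ l, (fun i => c l i • x + ∑ j, d l i j • y j) ∈ X.Rel := by
  rw [RF.mem_sol]
  constructor
  · rintro ⟨y, hy, hy'⟩
    have e : ∀ (b' : ν → k), ∑ j, b' j • y (Fintype.equivFin ν j) =
        ∑ j, b' ((Fintype.equivFin ν).symm j) • y j := fun b' =>
      Fintype.sum_equiv (Fintype.equivFin ν) _ _ (fun j => by simp)
    refine ⟨fun j => y (Fintype.equivFin ν j), fun i => ?_, fun l => ?_⟩
    · have h := hy (Fintype.equivFin σ i)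
      simp only [RF.mk', Equiv.symm_apply_apply] at h
      rw [e]
      exact h
    · have h := hy' (Fintype.equivFin θ l)
      simp only [RF.mk', Equiv.symm_apply_apply] at h
      simp only [e]
      exact h
  · rintro ⟨y, hy, hy'⟩
    have e : ∀ (b' : ν → k), ∑ j, b' ((Fintype.equivFin ν).symm j) •
        y ((Fintype.equivFin ν).symm j) = ∑ j, b' j • y j := fun b' =>
      Fintype.sum_equiv (Fintype.equivFin ν).symm _ _ (fun j => by simp)
    refine ⟨fun j => y ((Fintype.equivFin ν).symm j), fun i => ?_, fun l => ?_⟩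
    · have h := hy ((Fintype.equivFin σ).symm i)
      rw [← e (b ((Fintype.equivFin σ).symm i))] at h
      exact h
    · have h := hy' ((Fintype.equivFin θ).symm l)
      have h3 : (fun i => c ((Fintype.equivFin θ).symm l) i • x +
          ∑ j, d ((Fintype.equivFin θ).symm l) i j • y j) =
          fun i => c ((Fintype.equivFin θ).symm l) i • x +
          ∑ j, d ((Fintype.equivFin θ).symm l) i ((Fintype.equivFin ν).symm j) •
            y ((Fintype.equivFin ν).symm j) := funext fun i => by rw [e (d _ i)]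
      rw [h3] at h
      exact h

/-- The condition defining the sum. -/
noncomputable def RF.sup (φ ψ : RF k N) : RF k N :=
  RF.mk' (ν := Unit ⊕ (Fin φ.n ⊕ Fin ψ.n)) (σ := Fin φ.s ⊕ Fin ψ.s) (θ := Fin φ.q ⊕ Fin ψ.q)
    (Sum.elim (fun _ => 0) ψ.a)
    (Sum.elim (fun i => Sum.elim (fun _ => φ.a i) (Sum.elim (φ.b i) (fun _ => 0)))
      (fun i => Sum.elim (fun _ => -ψ.a i) (Sum.elim (fun _ => 0) (ψ.b i))))
    (Sum.elim (fun _ _ => 0) ψ.c)
    (Sum.elim (fun l i => Sum.elim (fun _ => φ.c l i) (Sum.elim (φ.d l i) (fun _ => 0)))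
      (fun l i => Sum.elim (fun _ => -ψ.c l i) (Sum.elim (fun _ => 0) (ψ.d l i))))

theorem RF.sol_sup (φ ψ : RF k N) (X : RS k N) : (φ.sup ψ).sol X = φ.sol X ⊔ ψ.sol X := by
  ext x
  rw [RF.sup, RF.mem_mk', Submodule.mem_sup]
  constructor
  · rintro ⟨y, hy, hy'⟩
    refine ⟨y (Sum.inl ()), ⟨fun j => y (Sum.inr (Sum.inl j)), fun i => ?_, fun l => ?_⟩,
      x - y (Sum.inl ()), ⟨fun j => y (Sum.inr (Sum.inr j)), fun i => ?_, fun l => ?_⟩, by abel⟩
    · have := hy (Sum.inl i)
      simpa using this
    · have := hy' (Sum.inl l)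
      simpa using this
    · have := hy (Sum.inr i)
      simp only [Sum.elim_inr, Fintype.sum_sum_type, Sum.elim_inl, Finset.univ_unique,
        PUnit.default_eq_unit, Finset.sum_singleton, zero_smul, Finset.sum_const_zero,
        zero_add] at this
      rw [smul_sub, ← this, neg_smul]
      abel
    · have := hy' (Sum.inr l)
      simp only [Sum.elim_inr, Fintype.sum_sum_type, Sum.elim_inl, Finset.univ_unique,
        PUnit.default_eq_unit, Finset.sum_singleton, zero_smul, Finset.sum_const_zero,
        zero_add] at this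
      convert this using 1
      ext i
      rw [smul_sub, neg_smul]
      abel
  · rintro ⟨x1, ⟨y1, hy1, hy1'⟩, x2, ⟨y2, hy2, hy2'⟩, rfl⟩
    refine ⟨Sum.elim (fun _ => x1) (Sum.elim y1 y2), ?_, ?_⟩
    · rintro (i | i)
      · simpa using hy1 i
      · have := hy2 i
        simp only [Sum.elim_inr, Fintype.sum_sum_type, Sum.elim_inl, Finset.univ_unique,
          PUnit.default_eq_unit, Finset.sum_singleton, zero_smul, Finset.sum_const_zero,
          zero_add]
        rw [← this, smul_add, neg_smul]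
        abel
    · rintro (l | l)
      · simpa using hy1' l
      · have := hy2' l
        simp only [Sum.elim_inr, Fintype.sum_sum_type, Sum.elim_inl, Finset.univ_unique,
          PUnit.default_eq_unit, Finset.sum_singleton, zero_smul, Finset.sum_const_zero,
          zero_add]
        convert this using 1
        ext i
        rw [smul_add, neg_smul]
        abel

/-- The condition defining the intersection. -/
noncomputable def RF.inf (φ ψ : RF k N) : RF k N :=
  RF.mk' (ν := Fin φ.n ⊕ Fin ψ.n) (σ := Fin φ.s ⊕ Fin ψ.s) (θ := Fin φ.q ⊕ Fin ψ.q)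
    (Sum.elim φ.a ψ.a)
    (Sum.elim (fun i => Sum.elim (φ.b i) (fun _ => 0))
      (fun i => Sum.elim (fun _ => 0) (ψ.b i)))
    (Sum.elim φ.c ψ.c)
    (Sum.elim (fun l i => Sum.elim (φ.d l i) (fun _ => 0))
      (fun l i => Sum.elim (fun _ => 0) (ψ.d l i)))

theorem RF.sol_inf (φ ψ : RF k N) (X : RS k N) : (φ.inf ψ).sol X = φ.sol X ⊓ ψ.sol X := by
  ext x
  rw [RF.inf, RF.mem_mk', Submodule.mem_inf]
  constructor
  · rintro ⟨y, hy, hy'⟩
    refine ⟨⟨fun j => y (Sum.inl j), fun i => ?_, fun l => ?_⟩,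
      ⟨fun j => y (Sum.inr j), fun i => ?_, fun l => ?_⟩⟩
    · simpa using hy (Sum.inl i)
    · simpa using hy' (Sum.inl l)
    · simpa using hy (Sum.inr i)
    · simpa using hy' (Sum.inr l)
  · rintro ⟨⟨y1, hy1, hy1'⟩, ⟨y2, hy2, hy2'⟩⟩
    refine ⟨Sum.elim y1 y2, ?_, ?_⟩
    · rintro (i | i)
      · simpa using hy1 i
      · simpa using hy2 i
    · rintro (l | l)
      · simpa using hy1' l
      · simpa using hy2' l

/-- The condition `x = 0`. -/
def RF.bot (k : Type u) [Field k] (N : ℕ) : RF k N where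
  n := 0
  s := 1
  q := 0
  a := fun _ => 1
  b := fun _ => Fin.elim0
  c := Fin.elim0
  d := fun l => Fin.elim0 l

theorem RF.sol_bot (X : RS k N) : (RF.bot k N).sol X = ⊥ := by
  ext x
  rw [RF.mem_sol, Submodule.mem_bot]
  constructor
  · rintro ⟨y, hy, -⟩
    have h : (1 : k) • x + ∑ j : Fin 0, (Fin.elim0 j : k) • y j = 0 := hy (0 : Fin 1)
    simpa using h
  · rintro rfl
    refine ⟨Fin.elim0, fun i => ?_, fun l => Fin.elim0 l⟩
    show (1 : k) • (0 : X.V) + ∑ j : Fin 0, (Fin.elim0 j : k) • (Fin.elim0 j : X.V) = 0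
    simp

/-- The condition `x = x`. -/
def RF.top (k : Type u) [Field k] (N : ℕ) : RF k N where
  n := 0
  s := 0
  q := 0
  a := Fin.elim0
  b := fun i => Fin.elim0 i
  c := Fin.elim0
  d := fun l => Fin.elim0 l

theorem RF.sol_top (X : RS k N) : (RF.top k N).sol X = ⊤ := by
  ext x
  rw [RF.mem_sol]
  exact ⟨fun _ => trivial, fun _ => ⟨Fin.elim0, fun i => Fin.elim0 i, fun l => Fin.elim0 l⟩⟩

/-- An axiom: every `w` in the relation with `∑ j, c i j w_j = 0` for all `i` has finitely many
`w'_l` in the relation with `∑ j, d i j w_j + ∑ l j, e i l j w'_{l j} = 0` for all `i`. -/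
structure Ax (k : Type u) (N : ℕ) where
  /-- number of hypotheses -/
  p : ℕ
  /-- number of bound elements of the relation -/
  m : ℕ
  /-- number of equations of the conclusion -/
  r : ℕ
  /-- coefficients -/
  c : Fin p → Fin N → k
  /-- coefficients -/
  d : Fin r → Fin N → k
  /-- coefficients -/
  e : Fin r → Fin m → Fin N → k

/-- The axiom holds in the structure. -/
def Ax.Holds (A : Ax k N) (X : RS k N) : Prop :=
  ∀ w ∈ X.Rel, (∀ i, ∑ j, A.c i j • w j = 0) → ∃ w' : Fin A.m → Fin N → X.V,
    (∀ l, w' l ∈ X.Rel) ∧ ∀ i, ∑ j, A.d i j • w j + ∑ l, ∑ j, A.e i l j • w' l j = 0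

/-- The class of structures is given by finitely many axioms. -/
def Axiomatized (P : RS k N → Prop) : Prop :=
  ∃ 𝒜 : Set (Ax k N), 𝒜.Finite ∧ ∀ X, P X ↔ ∀ A ∈ 𝒜, A.Holds X

/-- The structures of the class. -/
abbrev Models (P : RS k N → Prop) : Type (u + 1) := {X : RS k N // P X}

/-- Families of subspaces. -/
def Fam (P : RS k N → Prop) : Type (u + 1) := ∀ X : Models P, Submodule k X.1.V

instance (P : RS k N → Prop) : Lattice (Fam P) :=
  inferInstanceAs (Lattice (∀ X : Models P, Submodule k X.1.V))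

instance (P : RS k N → Prop) : IsModularLattice (Fam P) where
  sup_inf_le_assoc_of_le := by
    intro x y z hxz X
    exact IsModularLattice.sup_inf_le_assoc_of_le (y X) (hxz X)

/-- The family of the subspaces defined by a condition. -/
def rfFam (P : RS k N → Prop) (φ : RF k N) : Fam P := fun X => φ.sol X.1

/-- The lattice of conditions modulo equivalence in the structures of the class. -/
def DLat (P : RS k N → Prop) : Sublattice (Fam P) where
  carrier := Set.range (rfFam P)
  supClosed' := by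
    rintro _ ⟨φ, rfl⟩ _ ⟨ψ, rfl⟩
    exact ⟨φ.sup ψ, funext fun X => RF.sol_sup φ ψ X.1⟩
  infClosed' := by
    rintro _ ⟨φ, rfl⟩ _ ⟨ψ, rfl⟩
    exact ⟨φ.inf ψ, funext fun X => RF.sol_inf φ ψ X.1⟩

instance (P : RS k N → Prop) : IsModularLattice (DLat P) where
  sup_inf_le_assoc_of_le := by
    intro x y z hxz
    exact IsModularLattice.sup_inf_le_assoc_of_le (α := Fam P) y.1 hxz

/-- The element of the lattice given by a condition. -/
def toD (P : RS k N → Prop) (φ : RF k N) : DLat P := ⟨rfFam P φ, φ, rfl⟩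

theorem toD_surjective (P : RS k N → Prop) : Function.Surjective (toD P) := by
  rintro ⟨_, φ, rfl⟩
  exact ⟨φ, rfl⟩

theorem toD_le {P : RS k N → Prop} {φ ψ : RF k N} :
    toD P φ ≤ toD P ψ ↔ ∀ X : Models P, φ.sol X.1 ≤ ψ.sol X.1 := Iff.rfl

theorem toD_inf (P : RS k N → Prop) (φ ψ : RF k N) : toD P (φ.inf ψ) = toD P φ ⊓ toD P ψ :=
  Subtype.ext (funext fun X => RF.sol_inf φ ψ X.1)

theorem toD_sup (P : RS k N → Prop) (φ ψ : RF k N) : toD P (φ.sup ψ) = toD P φ ⊔ toD P ψ :=
  Subtype.ext (funext fun X => RF.sol_sup φ ψ X.1)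

end RF

/-! ### Binary relations defined by conditions with two free variables, strings -/

/-- A condition in two free variables. -/
structure RF2 (k : Type u) (N : ℕ) where
  /-- number of bound variables -/
  n : ℕ
  /-- number of linear equations -/
  s : ℕ
  /-- number of conditions with the relation -/
  q : ℕ
  /-- coefficients -/
  a : Fin s → Fin 2 → k
  /-- coefficients -/
  b : Fin s → Fin n → k
  /-- coefficients -/
  c : Fin q → Fin N → Fin 2 → k
  /-- coefficients -/
  d : Fin q → Fin N → Fin n → k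

section strings

variable {k : Type u} [Field k] {N : ℕ}

/-- The pair `y, s` satisfies the condition in two variables. -/
def RF2.Sat (ρ : RF2 k N) (X : RS k N) (y s : X.V) : Prop :=
  ∃ z : Fin ρ.n → X.V, (∀ i, ρ.a i 0 • y + ρ.a i 1 • s + ∑ j, ρ.b i j • z j = 0) ∧
    ∀ l, (fun i => ρ.c l i 0 • y + ρ.c l i 1 • s + ∑ j, ρ.d l i j • z j) ∈ X.Rel

/-- Strings in the class: two definable binary relations `ρs, ρx` with `dom ρx ≤ ρs⁻¹(0)` and
`im ρs ≤ ρx(0)`, and for every biinfinite word `t` in two letters a structure with elements `z i`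
joined by `ρs` or `ρx` according to the word and with coordinate functions `ε i`. -/
def StringData (P : RS k N → Prop) : Prop :=
  ∃ ρs ρx : RF2 k N,
    (∀ X, P X → ∀ y s, ρx.Sat X y s → ρs.Sat X y 0) ∧
    (∀ X, P X → ∀ y s, ρs.Sat X y s → ρx.Sat X 0 s) ∧
    ∀ t : ℤ → Bool, ∃ X, P X ∧ ∃ (z : ℤ → X.V) (E : Type u) (_ : AddCommGroup E)
      (ε : ℤ → X.V →+ E), ε 0 (z 0) ≠ 0 ∧
      (∀ i, t i = true → ρs.Sat X (z i) (z (i + 1)) ∧
        ∀ y s, ρs.Sat X y s → ε (i + 1) s = ε i y) ∧
      ∀ i, t i = false → ρx.Sat X (z i) (z (i + 1)) ∧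
        ∀ y s, ρx.Sat X y s → ε (i + 1) s = ε i y

end strings

/-! ### Transfer to modules over a ring -/

/-- A module `T` over the ring `R` with a surjective additive map onto the vector space of the
structure `X`, semilinear with respect to the homomorphism `ρ : R → k`. -/
structure Tr (R : Type u) [CommRing R] (k : Type u) [Field k] (N : ℕ) (ρ : R →+* k)
    (X : RS k N) where
  /-- the module -/
  T : Type u
  [acg : AddCommGroup T]
  [mod : Module R T]
  /-- the map -/
  π : T →+ X.V
  surj : Function.Surjective π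
  smul : ∀ (r : R) (t : T), π (r • t) = ρ r • π t

attribute [instance] Tr.acg Tr.mod

/-- Modules `T` over the ring `R` for all structures of the class, such that the pp definable
subgroups of `T` above the kernel of `T → V` correspond to the definable subspaces of `V`. -/
def TransferData (R : Type u) [CommRing R] (k : Type u) [Field k] (N : ℕ) (ρ : R →+* k)
    (P : RS k N → Prop) : Prop :=
  ∃ (D : ∀ X : Models P, Tr R k N ρ X.1) (α₀ : PP R) (κ : NPP R N),
    (∀ (X : Models P) (t : (D X).T), t ∈ α₀.sol (D X).T ↔ (D X).π t = 0) ∧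
    (∀ (X : Models P) (x : Fin N → (D X).T),
      x ∈ κ.sol (D X).T ↔ (fun i => (D X).π (x i)) ∈ X.1.Rel) ∧
    ∀ θ : PP R, ∃ φ : RF k N, ∀ (X : Models P) (v : X.1.V),
      v ∈ φ.sol X.1 ↔ ∃ t ∈ θ.sol (D X).T, (D X).π t = v

end Pool.Agent.Helper10.CR
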