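import Pool.Agent.Helper10.CR.Defs

/-!
# Project CR: the modules `T` over a local ring attached to relational structures
-/

universe u v

namespace Pool.Agent.Helper10.CR

open Pool.Agent.Helper10.Width Pool.Agent.Helper72.Width Pool.Agent.Helper78.SD

/-- The subspace `E ⊗ M` of `M^ι`: the span of the tuples `(ε_i m)_i`, `ε ∈ E`, `m ∈ M`. -/
def tens {K : Type u} [CommRing K] {M : Type u} [AddCommGroup M] [Module K M] {ι : Type}
    (E : Submodule K (ι → K)) : Submodule K (ι → M) :=
  Submodule.span K {w | ∃ ε ∈ E, ∃ m : M, w = fun i => ε i • m}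

/-- The rings of the construction: `ρ : R → k` (the residue field of a local ring), an `R`-algebra
`R'` with `ρ' : R' → L`, elements `a j` of the kernel of `ρ` and `χ` of the kernel of `ρ'`. -/
structure Ctx (R k R' L : Type u) [CommRing R] [Field k] [CommRing R'] [CommRing L]
    [Algebra R R'] [Algebra k L] where
  /-- the residue map -/
  ρ : R →+* k
  hρ : Function.Surjective ρ
  /-- the residue map of the algebra -/
  ρ' : R' →+* L
  hρ' : Function.Surjective ρ'
  comm : ∀ r, ρ' (algebraMap R R' r) = algebraMap k L (ρ r)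
  /-- the number of the elements `a j` -/
  n : ℕ
  /-- elements of the maximal ideal -/
  a : Fin n → R
  ha : ∀ j, ρ (a j) = 0
  /-- an element of the maximal ideal of the algebra -/
  χ : R'
  hχ : ρ' χ = 0

section

variable {R k R' L : Type u} [CommRing R] [Field k] [CommRing R'] [CommRing L] [Algebra R R']
  [Algebra k L]

/-- The index set of the space `EA`: the free variable, and `n` parameters for every equation. -/
abbrev IA (n q : ℕ) : Type := Unit ⊕ (Fin n × Fin q)

/-- The index set of the space `ED`: one more parameter for every equation. -/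
abbrev ID (n q : ℕ) : Type := IA n q ⊕ Fin q

/-- The space `EA` of a pp condition `θ` (with `q` equations): the residues of all `(ξ, φ)` over `R`
such that the equations of `θ` with right hand sides `∑ j, a_j φ_{j c}` are solvable for `x = ξ`. -/
def Ctx.EA (C : Ctx R k R' L) (θ : PP R) : Submodule k (IA C.n θ.n → k) where
  carrier := {ε | ∃ (ξ : R) (φ : Fin C.n × Fin θ.n → R) (η : Fin θ.k → R),
    (∀ c, θ.a c * ξ + ∑ l, θ.b c l * η l = ∑ j, C.a j * φ (j, c)) ∧
    ε = Sum.elim (fun _ => C.ρ ξ) (fun p => C.ρ (φ p))}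
  zero_mem' := ⟨0, 0, 0, fun c => by simp, by ext i; rcases i with i | i <;> simp⟩
  add_mem' := by
    rintro _ _ ⟨ξ, φ, η, h, rfl⟩ ⟨ξ', φ', η', h', rfl⟩
    refine ⟨ξ + ξ', φ + φ', η + η', fun c => ?_, by ext i; rcases i with i | i <;> simp⟩
    simp only [Pi.add_apply, mul_add, Finset.sum_add_distrib]
    rw [← h, ← h']
    ring
  smul_mem' := by
    rintro t _ ⟨ξ, φ, η, h, rfl⟩
    obtain ⟨t, rfl⟩ := C.hρ t
    refine ⟨t * ξ, fun p => t * φ p, fun l => t * η l, fun c => ?_, by
      ext i; rcases i with i | i <;> simp⟩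
    have h1 : ∑ l, θ.b c l * (t * η l) = t * ∑ l, θ.b c l * η l := by
      rw [Finset.mul_sum]; exact Finset.sum_congr rfl fun _ _ => by ring
    have h2 : ∑ j, C.a j * (t * φ (j, c)) = t * ∑ j, C.a j * φ (j, c) := by
      rw [Finset.mul_sum]; exact Finset.sum_congr rfl fun _ _ => by ring
    rw [h1, h2, ← h]
    ring

/-- The space `ED` of a pp condition `θ`: the residues of all `(ξ, φ, κ)` over `R'` such that the
equations of `θ` with right hand sides `∑ j, a_j φ_{j c} + χ κ_c` are solvable for `x = ξ`. -/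
def Ctx.ED (C : Ctx R k R' L) (θ : PP R) : Submodule L (ID C.n θ.n → L) where
  carrier := {ε | ∃ (ξ : R') (φ : Fin C.n × Fin θ.n → R') (κ : Fin θ.n → R') (η : Fin θ.k → R'),
    (∀ c, algebraMap R R' (θ.a c) * ξ + ∑ l, algebraMap R R' (θ.b c l) * η l =
      ∑ j, algebraMap R R' (C.a j) * φ (j, c) + C.χ * κ c) ∧
    ε = Sum.elim (Sum.elim (fun _ => C.ρ' ξ) (fun p => C.ρ' (φ p))) (fun c => C.ρ' (κ c))}
  zero_mem' := ⟨0, 0, 0, 0, fun c => by simp, by ext i; rcases i with (i | i) | i <;> simp⟩
  add_mem' := by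
    rintro _ _ ⟨ξ, φ, κ, η, h, rfl⟩ ⟨ξ', φ', κ', η', h', rfl⟩
    refine ⟨ξ + ξ', φ + φ', κ + κ', η + η', fun c => ?_, by
      ext i; rcases i with (i | i) | i <;> simp⟩
    simp only [Pi.add_apply, mul_add, Finset.sum_add_distrib]
    linear_combination h c + h' c
  smul_mem' := by
    rintro t _ ⟨ξ, φ, κ, η, h, rfl⟩
    obtain ⟨t, rfl⟩ := C.hρ' t
    refine ⟨t * ξ, fun p => t * φ p, fun c => t * κ c, fun l => t * η l, fun c => ?_, by
      ext i; rcases i with (i | i) | i <;> simp⟩
    have h1 : ∑ l, algebraMap R R' (θ.b c l) * (t * η l) =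
        t * ∑ l, algebraMap R R' (θ.b c l) * η l := by
      rw [Finset.mul_sum]; exact Finset.sum_congr rfl fun _ _ => by ring
    have h2 : ∑ j, algebraMap R R' (C.a j) * (t * φ (j, c)) =
        t * ∑ j, algebraMap R R' (C.a j) * φ (j, c) := by
      rw [Finset.mul_sum]; exact Finset.sum_congr rfl fun _ _ => by ring
    rw [h1, h2]
    linear_combination t * h c

/-- The structure used for the construction of the module: the vector space `V` is
`k^(ιA) × L^(ιD)`, a relation `Wr ≤ V^n` and a linear map `γ : L^(ιD) → V^n`. -/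
structure Str (k L : Type u) [Field k] [CommRing L] [Algebra k L] (n : ℕ) (V : Type u)
    [AddCommGroup V] [Module k V] where
  /-- index set -/
  ιA : Type u
  /-- index set -/
  ιD : Type u
  /-- the decomposition of the vector space -/
  e : ((ιA →₀ k) × (ιD →₀ L)) ≃ₗ[k] V
  /-- the relation -/
  Wr : Submodule k (Fin n → V)
  /-- the map -/
  γ : (ιD →₀ L) →ₗ[k] (Fin n → V)

variable {V : Type u} [AddCommGroup V] [Module k V]

/-- The free module `F = R^(ιA) × R'^(ιD)`. -/
abbrev Ctx.F (C : Ctx R k R' L) (S : Str k L C.n V) : Type u := (S.ιA →₀ R) × (S.ιD →₀ R')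

/-- Reduction of the coefficients of a finitely supported function with values in `R'`. -/
noncomputable def Ctx.redD (C : Ctx R k R' L) {ι : Type u} : (ι →₀ R') →+ (ι →₀ L) :=
  Finsupp.mapRange.addMonoidHom C.ρ'.toAddMonoidHom

/-- The reduction `F → V`. -/
noncomputable def Ctx.red (C : Ctx R k R' L) (S : Str k L C.n V) : C.F S →+ V :=
  S.e.toLinearMap.toAddMonoidHom.comp
    (((Finsupp.mapRange.addMonoidHom C.ρ.toAddMonoidHom).comp (AddMonoidHom.fst _ _)).prod
      ((C.redD).comp (AddMonoidHom.snd _ _)))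

theorem Ctx.redD_apply (C : Ctx R k R' L) {ι : Type u} (g : ι →₀ R') (i : ι) :
    C.redD g i = C.ρ' (g i) := by
  simp [Ctx.redD]

theorem Ctx.redD_smul (C : Ctx R k R' L) {ι : Type u} (r : R') (g : ι →₀ R') :
    C.redD (r • g) = C.ρ' r • C.redD g := by
  ext i
  rw [C.redD_apply]
  simp [C.redD_apply]

theorem Ctx.redD_smul' (C : Ctx R k R' L) {ι : Type u} (r : R) (g : ι →₀ R') :
    C.redD (r • g) = C.ρ r • C.redD g := by
  have h1 : r • g = algebraMap R R' r • g := by
    ext i
    simp [Algebra.smul_def]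
  rw [h1, C.redD_smul, C.comm]
  ext i
  simp [Algebra.smul_def]

theorem Ctx.red_apply (C : Ctx R k R' L) (S : Str k L C.n V) (f : C.F S) :
    C.red S f = S.e (Finsupp.mapRange C.ρ (map_zero _) f.1, C.redD f.2) := rfl

theorem Ctx.red_smul (C : Ctx R k R' L) (S : Str k L C.n V) (r : R) (f : C.F S) :
    C.red S (r • f) = C.ρ r • C.red S f := by
  rw [C.red_apply, C.red_apply, ← map_smul]
  congr 1
  refine Prod.ext ?_ (C.redD_smul' r f.2)
  ext i
  simp

/-- The element `χ κ` of the free module. -/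
noncomputable def Ctx.chi (C : Ctx R k R' L) (S : Str k L C.n V) (κ : S.ιD →₀ R') : C.F S :=
  (0, C.χ • κ)

/-- The submodule `W` of `F`: all `∑ j, a_j f_j + χ κ` with `(red f_j)_j - γ (red κ) ∈ Wr`. -/
noncomputable def Ctx.W (C : Ctx R k R' L) (S : Str k L C.n V) : Submodule R (C.F S) where
  carrier := {w | ∃ (f : Fin C.n → C.F S) (κ : S.ιD →₀ R'),
    (fun j => C.red S (f j)) - S.γ (C.redD κ) ∈ S.Wr ∧ w = ∑ j, C.a j • f j + C.chi S κ}
  zero_mem' := ⟨0, 0, by
    have : (fun j => C.red S ((0 : Fin C.n → C.F S) j)) - S.γ (C.redD 0) = 0 := by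
      ext j; simp
    rw [this]
    exact zero_mem _, by
    have h1 : C.chi S 0 = 0 := by
      show ((0 : S.ιA →₀ R), C.χ • (0 : S.ιD →₀ R')) = 0
      rw [smul_zero]
      rfl
    rw [h1]
    simp⟩
  add_mem' := by
    rintro _ _ ⟨f, κ, h, rfl⟩ ⟨f', κ', h', rfl⟩
    refine ⟨f + f', κ + κ', ?_, ?_⟩
    · have := add_mem h h'
      convert this using 1
      ext j
      simp only [Pi.add_apply, Pi.sub_apply, map_add]
      abel
    · have h1 : C.chi S (κ + κ') = C.chi S κ + C.chi S κ' := by simp [Ctx.chi]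
      rw [h1]
      simp only [Pi.add_apply, smul_add, Finset.sum_add_distrib]
      abel
  smul_mem' := by
    rintro r _ ⟨f, κ, h, rfl⟩
    refine ⟨fun j => r • f j, r • κ, ?_, ?_⟩
    · have := Submodule.smul_mem _ (C.ρ r) h
      convert this using 1
      ext j
      simp only [Pi.sub_apply, Pi.smul_apply, smul_sub, C.red_smul, C.redD_smul', map_smul]
    · have h1 : C.chi S (r • κ) = r • C.chi S κ := by
        refine Prod.ext (by simp [Ctx.chi]) ?_
        show C.χ • (r • κ) = r • (C.χ • κ)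
        rw [smul_comm]
      rw [h1]
      simp only [smul_add, Finset.smul_sum, smul_comm r]

theorem Ctx.red_W (C : Ctx R k R' L) (S : Str k L C.n V) {w : C.F S} (hw : w ∈ C.W S) :
    C.red S w = 0 := by
  obtain ⟨f, κ, -, rfl⟩ := hw
  have h1 : C.red S (C.chi S κ) = 0 := by
    rw [C.red_apply]
    have : C.redD (C.chi S κ).2 = 0 := by
      show C.redD (C.χ • κ) = 0
      rw [C.redD_smul, C.hχ, zero_smul]
    rw [this]
    have h2 : Finsupp.mapRange C.ρ (map_zero _) (C.chi S κ).1 = 0 := by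
      show Finsupp.mapRange C.ρ (map_zero _) (0 : S.ιA →₀ R) = 0
      simp
    rw [h2]
    exact map_zero S.e
  rw [map_add, map_sum, h1, add_zero]
  refine Finset.sum_eq_zero fun j _ => ?_
  rw [C.red_smul, C.ha, zero_smul]

theorem Ctx.red_surjective (C : Ctx R k R' L) (S : Str k L C.n V) :
    Function.Surjective (C.red S) := by
  intro v
  obtain ⟨⟨f, g⟩, rfl⟩ := S.e.surjective v
  obtain ⟨f', rfl⟩ := Finsupp.mapRange_surjective C.ρ (map_zero _) C.hρ f
  obtain ⟨g', rfl⟩ := Finsupp.mapRange_surjective C.ρ' (map_zero _) C.hρ' g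
  exact ⟨(f', g'), rfl⟩

/-- The module `T = F / W` with the map onto `V`. -/
noncomputable def Ctx.tr (C : Ctx R k R' L) {N : ℕ} (X : RS k N) (S : Str k L C.n X.V) :
    Tr R k N C.ρ X where
  T := C.F S ⧸ C.W S
  π := QuotientAddGroup.lift (C.W S).toAddSubgroup (C.red S) (fun _ hw => C.red_W S hw)
  surj := by
    intro v
    obtain ⟨f, rfl⟩ := C.red_surjective S v
    exact ⟨Submodule.Quotient.mk f, rfl⟩
  smul := by
    intro r t
    obtain ⟨f, rfl⟩ := Submodule.Quotient.mk_surjective _ t
    exact C.red_smul S r f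

theorem Ctx.tr_π (C : Ctx R k R' L) {N : ℕ} (X : RS k N) (S : Str k L C.n X.V) (f : C.F S) :
    (C.tr X S).π (Submodule.Quotient.mk f) = C.red S f := rfl

end

end Pool.Agent.Helper10.CR
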