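import Pool.Agent.Helper10.CR.Goals2

/-!
# Project CR: the quotient rings for the three cases
-/

universe u v

namespace Pool.Agent.Helper10.CR

open Pool.Agent.Helper10.Width Pool.Agent.Helper72.Width Pool.Agent.Helper78.SD
open IsLocalRing

variable {R : Type u} [CommRing R] [IsLocalRing R]

theorem quot_local {J : Ideal R} (hJ : J ≤ maximalIdeal R) : IsLocalRing (R ⧸ J) := by
  haveI : Nontrivial (R ⧸ J) := Ideal.Quotient.nontrivial_iff.2 fun h =>
    (maximalIdeal.isMaximal R).ne_top (top_le_iff.1 (h ▸ hJ))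
  exact IsLocalRing.of_surjective' (Ideal.Quotient.mk J) Ideal.Quotient.mk_surjective

theorem mk_mem_max {J : Ideal R} (hJ : J ≤ maximalIdeal R) [IsLocalRing (R ⧸ J)] (t : R) :
    Ideal.Quotient.mk J t ∈ maximalIdeal (R ⧸ J) ↔ t ∈ maximalIdeal R := by
  rw [mem_maximalIdeal, mem_maximalIdeal, mem_nonunits_iff, mem_nonunits_iff, not_iff_not]
  constructor
  · intro h
    obtain ⟨s, hs⟩ := h.exists_right_inv
    obtain ⟨s, rfl⟩ := Ideal.Quotient.mk_surjective s
    rw [← map_mul, ← map_one (Ideal.Quotient.mk J), Ideal.Quotient.eq] at hs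
    have h1 := hJ hs
    by_contra hu
    have h2 : t * s ∈ maximalIdeal R := Ideal.mul_mem_right _ _ ((mem_maximalIdeal _).2 hu)
    have h3 : (1 : R) ∈ maximalIdeal R := by
      have := sub_mem h2 h1
      simpa using this
    exact (Ideal.ne_top_iff_one _).1 (maximalIdeal.isMaximal R).ne_top h3
  · intro h
    exact h.map _

theorem mul_span_le (s : Set R) : maximalIdeal R * Ideal.span s ≤ maximalIdeal R :=
  Ideal.mul_le_left

theorem mem_mul_pair {a b z : R} (h : z ∈ maximalIdeal R * Ideal.span {a, b}) :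
    ∃ u ∈ maximalIdeal R, ∃ v ∈ maximalIdeal R, z = u * a + v * b := by
  refine Submodule.mul_induction_on h ?_ ?_
  · intro m hm n hn
    obtain ⟨p, q, rfl⟩ := Ideal.mem_span_pair.1 hn
    exact ⟨m * p, Ideal.mul_mem_right _ _ hm, m * q, Ideal.mul_mem_right _ _ hm, by ring⟩
  · rintro _ _ ⟨u, hu, v, hv, rfl⟩ ⟨u', hu', v', hv', rfl⟩
    exact ⟨u + u', add_mem hu hu', v + v', add_mem hv hv', by ring⟩

theorem isUnit_of_notMem {v : R} (h : v ∉ maximalIdeal R) : IsUnit v := by
  by_contra h'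
  exact h ((mem_maximalIdeal _).2 h')

theorem notMem_sub {v w : R} (h : v ∉ maximalIdeal R) (hw : w ∈ maximalIdeal R) :
    IsUnit (v - w) := by
  refine isUnit_of_notMem fun h' => h ?_
  have := add_mem h' hw
  simpa using this

theorem caseW_quot (h : CaseW R) :
    ∃ (R' : Type u) (_ : CommRing R') (_ : IsLocalRing R') (π : R →+* R'),
      Function.Surjective π ∧ ∃ a b c : R', DW R' a b c := by
  obtain ⟨a, b, c, h⟩ := h
  have hJ := mul_span_le (R := R) {a, b, c}
  haveI := quot_local hJ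
  refine ⟨R ⧸ (maximalIdeal R * Ideal.span {a, b, c}), inferInstance, inferInstance,
    Ideal.Quotient.mk _, Ideal.Quotient.mk_surjective, Ideal.Quotient.mk _ a,
    Ideal.Quotient.mk _ b, Ideal.Quotient.mk _ c, ?_, ?_⟩
  · intro t ht
    obtain ⟨t, rfl⟩ := Ideal.Quotient.mk_surjective t
    rw [mk_mem_max hJ] at ht
    refine ⟨?_, ?_, ?_⟩ <;> rw [← map_mul, Ideal.Quotient.eq_zero_iff_mem] <;>
      refine Ideal.mul_mem_mul ht (Ideal.subset_span ?_) <;> simp
  · intro u v w e
    obtain ⟨u, rfl⟩ := Ideal.Quotient.mk_surjective u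
    obtain ⟨v, rfl⟩ := Ideal.Quotient.mk_surjective v
    obtain ⟨w, rfl⟩ := Ideal.Quotient.mk_surjective w
    rw [← map_mul, ← map_mul, ← map_mul, ← map_add, ← map_add,
      Ideal.Quotient.eq_zero_iff_mem] at e
    rw [mk_mem_max hJ, mk_mem_max hJ, mk_mem_max hJ]
    exact h u v w e

theorem caseI_quot (h : CaseI R) :
    ∃ (R' : Type u) (_ : CommRing R') (_ : IsLocalRing R') (π : R →+* R'),
      Function.Surjective π ∧ ∃ r x b : R', DI R' r x b := by
  obtain ⟨r, hr, x, hx, q, hq, h1, h2⟩ := h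
  have hJ := mul_span_le (R := R) {r * x, q}
  haveI := quot_local hJ
  have key : ∀ u v : R, u * (r * x) + v * q ∈ maximalIdeal R * Ideal.span {r * x, q} →
      v ∈ maximalIdeal R ∧ u ∈ maximalIdeal R := by
    intro u v e
    obtain ⟨u', hu', v', hv', e⟩ := mem_mul_pair e
    constructor
    · by_contra hv
      obtain ⟨w, hw⟩ := (notMem_sub hv hv').exists_right_inv
      apply h1
      refine ⟨w * (u' - u) * r, ?_⟩
      linear_combination (-q) * hw + w * e
    · by_contra hu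
      obtain ⟨w, hw⟩ := (notMem_sub hu hu').exists_right_inv
      apply h2
      refine ⟨w * (v' - v), ?_⟩
      linear_combination (-(r * x)) * hw + w * e
  refine ⟨R ⧸ (maximalIdeal R * Ideal.span {r * x, q}), inferInstance, inferInstance,
    Ideal.Quotient.mk _, Ideal.Quotient.mk_surjective, Ideal.Quotient.mk _ r,
    Ideal.Quotient.mk _ x, Ideal.Quotient.mk _ q, ?_, ?_, ?_, ?_, ?_, ?_⟩
  · rwa [mk_mem_max hJ]
  · rwa [mk_mem_max hJ]
  · rwa [mk_mem_max hJ]
  · intro t ht
    obtain ⟨t, rfl⟩ := Ideal.Quotient.mk_surjective t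
    rw [mk_mem_max hJ] at ht
    rw [← map_mul, ← map_mul, ← map_mul]
    refine ⟨?_, ?_⟩ <;> rw [Ideal.Quotient.eq_zero_iff_mem] <;>
      refine Ideal.mul_mem_mul ht (Ideal.subset_span ?_) <;> simp
  · intro u v e
    obtain ⟨u, rfl⟩ := Ideal.Quotient.mk_surjective u
    obtain ⟨v, rfl⟩ := Ideal.Quotient.mk_surjective v
    rw [← map_mul, ← map_mul, ← map_mul, ← map_add, Ideal.Quotient.eq_zero_iff_mem] at e
    rw [mk_mem_max hJ, mk_mem_max hJ]
    exact (key u v e).symm
  · intro g u v e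
    obtain ⟨g, rfl⟩ := Ideal.Quotient.mk_surjective g
    obtain ⟨u, rfl⟩ := Ideal.Quotient.mk_surjective u
    obtain ⟨v, rfl⟩ := Ideal.Quotient.mk_surjective v
    rw [← map_mul, ← map_mul, ← map_mul, ← map_mul, ← map_add, Ideal.Quotient.eq] at e
    rw [mk_mem_max hJ]
    obtain ⟨u', hu', v', hv', e⟩ := mem_mul_pair e
    by_contra hv
    have hv2 : IsUnit (v + v') := by
      have := notMem_sub hv (neg_mem hv')
      rwa [sub_neg_eq_add] at this
    obtain ⟨w, hw⟩ := hv2.exists_right_inv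
    apply h1
    refine ⟨w * (g - (u + u') * r), ?_⟩
    linear_combination (-q) * hw - w * e

theorem caseII_quot (h : CaseII R) :
    ∃ (R' : Type u) (_ : CommRing R') (_ : IsLocalRing R') (π : R →+* R'),
      Function.Surjective π ∧ ∃ r x x' α β : R', DII R' r x x' α β := by
  obtain ⟨r, hr, x, hx, x', hx', α, β, h1, h2, h3⟩ := h
  have hJ := mul_span_le (R := R) {r * x, r * x'}
  haveI := quot_local hJ
  refine ⟨R ⧸ (maximalIdeal R * Ideal.span {r * x, r * x'}), inferInstance, inferInstance,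
    Ideal.Quotient.mk _, Ideal.Quotient.mk_surjective, Ideal.Quotient.mk _ r,
    Ideal.Quotient.mk _ x, Ideal.Quotient.mk _ x', Ideal.Quotient.mk _ α,
    Ideal.Quotient.mk _ β, ?_, ?_, ?_, ?_, ?_, ?_, ?_⟩
  · rwa [mk_mem_max hJ]
  · rwa [mk_mem_max hJ]
  · rwa [mk_mem_max hJ]
  · intro t ht
    obtain ⟨t, rfl⟩ := Ideal.Quotient.mk_surjective t
    rw [mk_mem_max hJ] at ht
    rw [← map_mul, ← map_mul, ← map_mul, ← map_mul]
    refine ⟨?_, ?_⟩ <;> rw [Ideal.Quotient.eq_zero_iff_mem] <;>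
      refine Ideal.mul_mem_mul ht (Ideal.subset_span ?_) <;> simp
  · intro u v e
    obtain ⟨u, rfl⟩ := Ideal.Quotient.mk_surjective u
    obtain ⟨v, rfl⟩ := Ideal.Quotient.mk_surjective v
    rw [← map_mul, ← map_mul, ← map_mul, ← map_mul, ← map_add,
      Ideal.Quotient.eq_zero_iff_mem] at e
    rw [mk_mem_max hJ, mk_mem_max hJ]
    exact h1 u v e
  · intro l
    obtain ⟨l, rfl⟩ := Ideal.Quotient.mk_surjective l
    rw [← map_mul, ← map_pow, ← map_add, ← map_sub, mk_mem_max hJ]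
    exact h2 l
  · intro u v f g e
    obtain ⟨u, rfl⟩ := Ideal.Quotient.mk_surjective u
    obtain ⟨v, rfl⟩ := Ideal.Quotient.mk_surjective v
    obtain ⟨f, rfl⟩ := Ideal.Quotient.mk_surjective f
    obtain ⟨g, rfl⟩ := Ideal.Quotient.mk_surjective g
    simp only [← map_mul, ← map_add] at e ⊢
    rw [Ideal.Quotient.eq] at e ⊢
    exact h3 u v f g e

end Pool.Agent.Helper10.CR
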