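import Pool.Agent.Helper10.CR.Goals1
import Pool.Agent.Helper10.CR.Art
import Pool.Agent.Helper10.CR.Quot

/-!
# Project CR: the assembly
-/

universe u v

namespace Pool.Agent.Helper10.CR

open Pool.Agent.Helper10.Width Pool.Agent.Helper72.Width Pool.Agent.Helper78.SD
open IsLocalRing

/-- The statements used for the transfer. -/
structure Tools : Prop where
  boxes : GoalBoxes.{u + 1}
  engine : GoalEngine.{u}
  kb : GoalKB.{u}
  rsh : GoalRSH.{u}
  transfer : GoalTransfer.{u}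
  string : GoalString.{u}
  lift : GoalLift.{u}
  law : GoalLAW.{u}
  lai : GoalLAI.{u}
  nf : GoalNF.{u}
  laii : GoalLAII.{u}
  ax1 : GoalAx1.{u}
  ax2 : GoalAx2.{u}
  strW : GoalStrW.{u}
  strI : GoalStrI.{u}
  strII : GoalStrII.{u}
  exI : GoalExI.{u}
  exII : GoalExII.{u}
  atI : GoalAtI.{u}
  atII : GoalAtII.{u}
  esp : GoalEsp.{u}
  tW : GoalTW.{u}
  tI : GoalTI.{u}
  tII : GoalTII.{u}

theorem Tools.main (h : Tools.{u}) {R R' : Type u} [CommRing R] [CommRing R'] (π : R →+* R')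
    (hπ : Function.Surjective π) {k : Type u} [Field k] {N : ℕ} {ρ : R' →+* k}
    (hρ : Function.Surjective ρ) {P : RS k N → Prop} (hA : Axiomatized P) (hS : StringData P)
    (hT : TransferData R' k N ρ P) : HasSD R :=
  hasSD_of_surjective π hπ (h.transfer R' k N ρ P hρ hT
    (h.rsh h.engine h.kb k N P hA (h.string h.boxes k N P hS)))

theorem Tools.caseW (h : Tools.{u}) {R : Type u} [CommRing R] [IsLocalRing R] (hR : CaseW R) :
    HasSD R := by
  obtain ⟨R', _, _, π, hπ, a, b, c, hD⟩ := caseW_quot hR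
  exact h.main π hπ residue_surjective (h.ax1 _).1 (h.strW _)
    (h.tW h.lift h.law R' a b c hD)

theorem Tools.caseI (h : Tools.{u}) {R : Type u} [CommRing R] [IsLocalRing R] (hR : CaseI R) :
    HasSD R := by
  obtain ⟨R', _, _, π, hπ, r, x, b, hD⟩ := caseI_quot hR
  exact h.main π hπ residue_surjective (h.ax1 _).2 (h.strI _)
    (h.tI h.lift h.lai h.exI h.atI h.esp R' r x b hD)

theorem Tools.caseII (h : Tools.{u}) {R : Type u} [CommRing R] [IsLocalRing R]
    (hR : CaseII R) : HasSD R := by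
  obtain ⟨R', _, _, π, hπ, r, x, x', α, β, hD⟩ := caseII_quot hR
  exact h.main π hπ residue_surjective (h.ax2 _ _ _) (h.strII _ _ _)
    (h.tII h.lift h.laii h.nf h.exII h.atII h.esp R' r x x' α β hD)

/-- The statements on local rings and lattices. -/
structure Tools' : Prop where
  concat : GoalConcat.{u + 1}
  quotient : GoalQuotient.{u + 1}
  diamond : GoalDiamond.{u + 1}
  lt : GoalLT.{u + 1}
  double : GoalDouble.{u + 1}
  localize : GoalLocalize.{u}
  delocalize : GoalDelocalize.{u}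
  chain : GoalChain.{u}
  lrs : GoalLRS.{u}
  lr1 : GoalLR1.{u}
  lr2 : GoalLR2.{u}
  lr3 : GoalLR3.{u}

/-- The alternatives for a local ring. -/
theorem Tools'.alternatives (h : Tools'.{u}) (R : Type u) [CommRing R] [IsLocalRing R] :
    (∀ a b : R, a ∣ b ∨ b ∣ a) ∨ CaseW R ∨ CaseI R ∨ CaseII R ∨ IsArtinianRing R := by
  by_cases hW : CaseW R
  · exact Or.inr (Or.inl hW)
  by_cases hI : CaseI R
  · exact Or.inr (Or.inr (Or.inl hI))
  by_cases hc : ∀ a b : R, a ∣ b ∨ b ∣ a
  · exact Or.inl hc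
  push Not at hc
  by_cases hm : ∀ a b : R, ¬ a ∣ b → ¬ b ∣ a → maximalIdeal R = Ideal.span {a, b}
  · exact Or.inr (Or.inr (Or.inr (Or.inr (h.lrs R hI hc hm))))
  · push Not at hm
    obtain ⟨a, b, h1, h2, h3⟩ := hm
    exact Or.inr (Or.inr (Or.inr (Or.inl (h.lr3 h.lr1 h.lr2 R hW hI a b h1 h2 h3))))

theorem hasSD_local (h : Tools.{u}) (h' : Tools'.{u}) (R : Type u) [CommRing R] [IsLocalRing R]
    (hN : NestedDiamonds (PPL R)) : HasSD R := by
  rcases h'.alternatives R with hc | hW | hI | hII | hA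
  · exfalso
    obtain ⟨p, u, v, w, q, hd⟩ := hN
    have hd := (hd 0).1
    have h1 := h'.chain R hc (u 0) (v 0) (w 0)
    rw [hd.uv, hd.uw, sup_idem, hd.vw'] at h1
    have h2 : u 0 ≤ q 0 := by rw [← hd.uv']; exact le_sup_left
    rw [inf_eq_left.2 h2] at h1
    exact absurd hd.lt h1.not_gt
  · exact h.caseW hW
  · exact h.caseI hI
  · exact h.caseII hII
  · exact hasSD_artinian R (h'.double (PPL R) hN)

/-- The main theorem. -/
theorem main (h : Tools.{u}) (h' : Tools'.{u}) (R : Type u) [CommRing R]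
    (hS : HasScheme (PPL R)) : HasSD R := by
  rcases h'.lt h'.quotient h'.concat h'.diamond (PPL R) hS with hN | ⟨p, hp, hne, hno⟩
  · obtain ⟨M, hM, hN⟩ := h'.localize R hN
    exact h'.delocalize R M (hasSD_local h h' (Localization.AtPrime M) hN)
  · exact superdecomposable_of_noLarge ∅ hp hne hno

theorem main' (h : Tools.{u}) (h' : Tools'.{u}) (R : Type u) [CommRing R]
    (P : Set (ppLattice (∅ : Set (PP R × PP R)))) (hP : Pool.Agent.Helper10.Width.IsWide P) :
    HasSuperdecomposable (∅ : Set (PP R × PP R)) := by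
  obtain ⟨Φ, Ψ, hS, -, -⟩ := (isWide_of hP).exists_scheme
  exact main h h' R ⟨Φ, Ψ, hS⟩

/-- The main theorem for right modules. -/
theorem main_op (h : Tools.{u}) (h' : Tools'.{u}) (R : Type u) [CommRing R]
    (P : Set (ppLattice (∅ : Set (PP Rᵐᵒᵖ × PP Rᵐᵒᵖ))))
    (hP : Pool.Agent.Helper10.Width.IsWide P) :
    HasSuperdecomposable (∅ : Set (PP Rᵐᵒᵖ × PP Rᵐᵒᵖ)) :=
  main' h h' Rᵐᵒᵖ P hP

end Pool.Agent.Helper10.CR
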