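import Pool.Agent.Helper10.CR.Defs

/-!
# Project CR: the statements of the packets, part 1 (lattices, pp lattices, relational structures)

Aim of the project (MP_ca5fc5_al, Q1): **for every commutative ring `R`, if the pp lattice of `R`
has a wide subposet, then there is a superdecomposable pure-injective `R`-module.**

Every statement is a `def Goal... : Prop`; its docstring contains a complete proof. A packet asks
for `theorem goal... : Goal...` in a file `Pool/Agent/HelperNN/CR/....lean`.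
-/

universe u v

namespace Pool.Agent.Helper10.CR

open Pool.Agent.Helper10.Width Pool.Agent.Helper72.Width Pool.Agent.Helper78.SD

/-! ### Lattices -/

/-- PACKET CR-CONCAT. In a modular lattice, a scheme in `[b, a]` and `b ≤ c ≤ a` give a scheme in
`[b, c]` or in `[c, a]`.

Proof. Let `φ, ψ` be the scheme; by `phi_le` and `psi_le` all `φ s, ψ s` lie in `[b, a]`, more
precisely `ψ t ≤ ψ (u ++ t) ≤ φ (u ++ t) ≤ φ t` (induction on `u`).
Case 1: there is `t` with `ψ (u ++ t) ⊓ c ≠ φ (u ++ t) ⊓ c` for all `u`. Then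
`s ↦ φ (s ++ t) ⊓ c`, `s ↦ ψ (s ++ t) ⊓ c` is a scheme in `[b, c]`: `lt` by the case assumption and
monotonicity, `phi_le`, `psi_le` by monotonicity, and `cap` from `cap`:
`(φ (false :: s ++ t) ⊓ c) ⊓ (φ (true :: s ++ t) ⊓ c) ≤ ψ (i :: s ++ t) ⊓ c`.
Case 2: otherwise there is (`t = []`) some `u` with `ψ u ⊓ c = φ u ⊓ c`. Then `s ↦ φ (s ++ u) ⊔ c`,
`s ↦ ψ (s ++ u) ⊔ c` is a scheme in `[c, a]`: for `x, y ∈ [ψ u, φ u]` one has `x ⊓ c = y ⊓ c`
(both are equal to `ψ u ⊓ c = φ u ⊓ c`), so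
(1) `(x ⊔ c) ⊓ φ u = x`: by modularity (`x ≤ φ u`) it is `x ⊔ (c ⊓ φ u) = x ⊔ (c ⊓ ψ u) = x`.
(2) `(x ⊔ c) ⊓ (y ⊔ c) ≤ (x ⊓ y) ⊔ c`: by modularity (`c ≤ y ⊔ c`) the left side is
`((x ⊓ (y ⊔ c)) ⊔ c`, and `x ⊓ (y ⊔ c) = x ⊓ (φ u ⊓ (y ⊔ c)) = x ⊓ y` by (1).
`lt`: if `ψ (s ++ u) ⊔ c = φ (s ++ u) ⊔ c`, meet with `φ u` and use (1) to get equality of
`ψ (s ++ u)` and `φ (s ++ u)`, which is false. `cap` by (2). -/
def GoalConcat : Prop :=
  ∀ (L : Type u) [Lattice L] [IsModularLattice L] (b c a : L), b ≤ c → c ≤ a →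
    SchemeIn b a → SchemeIn b c ∨ SchemeIn c a

/-- PACKET CR-QUOT. The quotient of a modular lattice `L` in which the intervals without a scheme
are collapsed.

Proof. Write `small b a` for `¬ SchemeIn b a` (`b ≤ a`), and `x ≲ y` for `small (x ⊓ y) x`.
(S0) `small x x` (a scheme in `[x, x]` would give `x ≤ ψ [] < φ [] ≤ x`).
(S1) `b ≤ b' ≤ a' ≤ a`, `small b a` imply `small b' a'` (trivial).
(S2) `b ≤ c ≤ a`, `small b c`, `small c a` imply `small b a` (`GoalConcat`).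
(S3) `small (x ⊓ y) x ↔ small y (x ⊔ y)`: the maps `z ↦ z ⊔ y`, `[x ⊓ y, x] → [y, x ⊔ y]` and
`z ↦ z ⊓ x` back are mutually inverse and preserve meets and the order (diamond isomorphism; Mathlib:
`infIccOrderIsoIccSup` in `Mathlib/Order/ModularLattice.lean`), so they carry schemes to schemes.
Reflexivity: (S0). Transitivity of `≲`: let `x ≲ y ≲ z`. The interval `[x ⊓ y ⊓ z, x ⊓ y]` is
`[(x ⊓ y) ⊓ (y ⊓ z), x ⊓ y]`, by (S3) it is small iff `[y ⊓ z, (x ⊓ y) ⊔ (y ⊓ z)]` is, and this is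
contained in `[y ⊓ z, y]`, which is small. With `small (x ⊓ y) x` and (S2) `small (x ⊓ y ⊓ z) x`, and
(S1) gives `small (x ⊓ z) x`.
`x ⊓ y` is a greatest lower bound for `≲`: if `z ≲ x`, `z ≲ y` then `[z ⊓ x ⊓ y, z ⊓ x]` is by (S3)
small, because `[z ⊓ y, (z ⊓ x) ⊔ (z ⊓ y)] ⊆ [z ⊓ y, z]`; with `small (z ⊓ x) z` and (S2)
`small (z ⊓ (x ⊓ y)) z`. `x ⊔ y` is a least upper bound: if `x ≲ z`, `y ≲ z`, then `small z (x ⊔ z)`
and `small z (y ⊔ z)` by (S3), `[x ⊔ z, x ⊔ y ⊔ z]` is by (S3) small if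
`[(x ⊔ z) ⊓ (y ⊔ z), y ⊔ z] ⊆ [z, y ⊔ z]` is, so `small z (x ⊔ y ⊔ z)`, that is `x ⊔ y ≲ z`. Also
`x ≤ y → x ≲ y` (S0).
Take `Q` = the antisymmetrization of the preorder `≲` (`Antisymmetrization`, or `Quotient` by
`x ≲ y ∧ y ≲ x`), with `f` the quotient map; the lattice structure has `f x ⊓ f y = f (x ⊓ y)`,
`f x ⊔ f y = f (x ⊔ y)`; it is modular because `f` is a surjective lattice homomorphism: for
`f x ≤ f z` one has `f z = f (x ⊔ z)`, and `(x ⊔ y) ⊓ (x ⊔ z) ≤ x ⊔ (y ⊓ (x ⊔ z))` in `L`. -/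
def GoalQuotient : Prop :=
  GoalConcat.{u} → ∀ (L : Type u) [Lattice L] [IsModularLattice L],
    ∃ (Q : Type u) (_ : Lattice Q) (_ : IsModularLattice Q) (f : L → Q), Function.Surjective f ∧
      (∀ x y, f (x ⊓ y) = f x ⊓ f y) ∧ (∀ x y, f (x ⊔ y) = f x ⊔ f y) ∧
      ∀ x y, f x ≤ f y ↔ ¬ SchemeIn (x ⊓ y) x

/-- PACKET CR-DIAMOND. A failure of distributivity in a modular lattice gives a diamond.

Proof (Dedekind, Birkhoff). `p = (x ⊓ y) ⊔ (y ⊓ z) ⊔ (z ⊓ x)`, `q = (x ⊔ y) ⊓ (y ⊔ z) ⊓ (z ⊔ x)`,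
`u = (x ⊓ (y ⊔ z)) ⊔ (y ⊓ z) = (x ⊔ (y ⊓ z)) ⊓ (y ⊔ z)` (modularity, `y ⊓ z ≤ y ⊔ z`), and cyclically
`v = (y ⊓ (z ⊔ x)) ⊔ (z ⊓ x) = (y ⊔ (z ⊓ x)) ⊓ (z ⊔ x)`,
`w = (z ⊓ (x ⊔ y)) ⊔ (x ⊓ y) = (z ⊔ (x ⊓ y)) ⊓ (x ⊔ y)`.
`u ⊓ v = (x ⊔ (y ⊓ z)) ⊓ (y ⊔ (z ⊓ x))` (since `x ⊔ (y ⊓ z) ≤ z ⊔ x` and `y ⊔ (z ⊓ x) ≤ y ⊔ z`).
As `z ⊓ x ≤ x ⊔ (y ⊓ z)`, modularity gives
`(y ⊔ (z ⊓ x)) ⊓ (x ⊔ (y ⊓ z)) = (y ⊓ (x ⊔ (y ⊓ z))) ⊔ (z ⊓ x)`, and
`y ⊓ (x ⊔ (y ⊓ z)) = (y ⊓ x) ⊔ (y ⊓ z)` as `y ⊓ z ≤ y`. So `u ⊓ v = p`; the two other meets follow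
by symmetry (cyclic permutation of `x, y, z` permutes `u, v, w` cyclically and fixes `p`); the joins
are `q` by duality (the lattice dual of a modular lattice is modular, and the second expressions of
`u, v, w` are the duals of the first ones).
`p < u`: `p ≤ u` since `p = u ⊓ v`. If `u ≤ p`, then `x ⊓ (y ⊔ z) ≤ u ≤ p`, so
`x ⊓ (y ⊔ z) ≤ x ⊓ p = x ⊓ (A ⊔ (y ⊓ z))` with `A = (x ⊓ y) ⊔ (z ⊓ x) ≤ x`, which is
`A ⊔ (x ⊓ (y ⊓ z)) = A` by modularity, against the assumption. -/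
def GoalDiamond : Prop :=
  ∀ (L : Type u) [Lattice L] [IsModularLattice L] (x y z : L),
    ¬ x ⊓ (y ⊔ z) ≤ (x ⊓ y) ⊔ (x ⊓ z) →
    IsDiamond ((x ⊓ y) ⊔ (y ⊓ z) ⊔ (z ⊓ x)) ((x ⊓ (y ⊔ z)) ⊔ (y ⊓ z)) ((y ⊓ (z ⊔ x)) ⊔ (z ⊓ x))
      ((z ⊓ (x ⊔ y)) ⊔ (x ⊓ y)) ((x ⊔ y) ⊓ (y ⊔ z) ⊓ (z ⊔ x))

/-- PACKET CR-LT. The main lattice theorem.

Proof. Let `f : L → Q` be the quotient of `GoalQuotient`. Facts: (F1) if `¬ f a ≤ f b`, `b ≤ a`,
then there is a scheme `φ, ψ` in `[b, a]` (`x ⊓ y = b` for `x = a`, `y = b`), and then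
`f (ψ s) < f (φ s)` for all `s` (the scheme `t ↦ φ (t ++ s)`, `t ↦ ψ (t ++ s)` is a scheme in
`[ψ s, φ s]`). Since `L` has a scheme, there are `b ≤ a` in `L` with `¬ f a ≤ f b`.
Case 1: there are `b ≤ a` in `L` with `¬ f a ≤ f b` such that the interval `[f b, f a]` of `Q` is
distributive (`IsDistributiveInterval (f b) (f a)`). Put `P = Set.Icc (f b) (f a)`. `P` is wide
(`Width.IsWide`): `f b < f a` are in `P`. Let `β < α` in `P`; choose `y, x` in `L` with `f y = β`,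
`f x = α`, `y ≤ x` (replace `y` by `x ⊓ y`). (F1) gives a scheme `φ, ψ` in `[y, x]`. Take
`θ₁ = f (φ [false])`, `θ₂ = f (φ [true])`, `l₁ = f (ψ [false]) < θ₁`, `l₂ = f (ψ [true]) < θ₂`. By
`cap`, `θ₁ ⊓ θ₂ ≤ l₁, l₂`. Not `θ₁ ≤ θ₂` (else `θ₁ ≤ θ₁ ⊓ θ₂ ≤ l₁ < θ₁`), not `θ₂ ≤ θ₁`;
`β ≤ l₁ < θ₁ ≤ α`, and `θ₁ ≠ α` since `θ₂ ≤ α`; similarly for `θ₂`. Upper flanks: `θ₁ ⊔ θ₂ ∈ P`,
`> θ₁, θ₂`. Lower flanks: `l₁, l₂`. So `IsWide P`. `distributes_of_interval` and
`exists_filter_of_distributes` (`Pool/Agent/Helper10/Width/Final.lean`, `Tree.lean`; `Q` has the least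
element `f ⊥`: build the `OrderBot` instance locally) give a filter `p` of `Q`. Its preimage
`{x | f x ∈ p}` is a filter of `L`, proper, and without large elements: for `x` with `f x ∉ p` take
`Y, Z ∉ p`, `f x ≤ Y, Z`, choose `y, z ∈ L` with `f y = Y`, `f z = Z` and take `x ⊔ y`, `x ⊔ z`
(`f (x ⊔ y) = Y`); `f ((σ ⊓ (x ⊔ y)) ⊔ (σ ⊓ (x ⊔ z))) = (f σ ⊓ Y) ⊔ (f σ ⊓ Z) ∈ p`.
Case 2: for all `b ≤ a` in `L` with `¬ f a ≤ f b` the interval `[f b, f a]` is not distributive. Then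
there are `X, Y, Z ∈ [f b, f a]` with `X ⊓ (Y ⊔ Z) ≠ (X ⊓ Y) ⊔ (X ⊓ Z)`, hence not
`X ⊓ (Y ⊔ Z) ≤ (X ⊓ Y) ⊔ (X ⊓ Z)`. Choose `x ∈ L` with `f x = X` and replace it by `(x ⊔ b) ⊓ a`
(`f` of it is `(X ⊔ f b) ⊓ f a = X`); similarly `y, z`. So `x, y, z ∈ [b, a]` and
`¬ f (x ⊓ (y ⊔ z)) ≤ f ((x ⊓ y) ⊔ (x ⊓ z))`. By `GoalDiamond` in `L` the elements `p, u, v, w, q` given
by `x, y, z` form a diamond of `L`, contained in `[b, a]`, and by `GoalDiamond` in `Q` (for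
`f x, f y, f z`) `f p < f u`. So: (STEP) for all `b ≤ a` with `¬ f a ≤ f b` there is a diamond
`p, u, v, w, q` of `L` with `b ≤ p`, `q ≤ a`, `¬ f u ≤ f p`. Iterate with `[b, a] := [p, u]`
(a recursion on the type of the quintuples with `¬ f u ≤ f p`, `p ≤ u`). -/
def GoalLT : Prop :=
  GoalQuotient.{u} → GoalConcat.{u} → GoalDiamond.{u} →
  ∀ (L : Type u) [Lattice L] [IsModularLattice L] [OrderBot L], HasScheme L →
    NestedDiamonds L ∨ NoLargeFilter L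

/-- PACKET CR-DOUBLE. Nested diamonds give a scheme.

Proof. For a diamond `p, u, v, w, q` let `ι₀ = id`, `ι₁ z = (z ⊔ w) ⊓ v`. On `[p, u]` both are
injective, monotone, preserve meets, fix `p`, and `ι₁` maps `[p, u]` into `[p, v]`: `z ↦ z ⊔ w` is a
lattice isomorphism of `[p, u] = [u ⊓ w, u]` onto `[w, q]`, and `z ↦ z ⊓ v` of `[w, w ⊔ v] = [w, q]`
onto `[p, v]` (explicitly, `(z ⊔ w) ⊓ u = z ⊔ (w ⊓ u) = z` for `p ≤ z ≤ u` by modularity, and
`(z ⊓ v) ⊔ w = z ⊓ (v ⊔ w) = z` for `w ≤ z ≤ q`; `(z ⊔ w) ⊓ (z' ⊔ w) = (z ⊓ z') ⊔ w` for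
`z, z' ∈ [p, u]` follows from this, as in `GoalConcat`, (2)). Note `ι₀ z ⊓ ι₁ z' ≤ u ⊓ v = p` for
`z, z' ∈ [p, u]`. For the sequence of diamonds with number `n` write `ι_i^n`. Define
`E : List Bool → L → L`, `E [] z = z`, `E (i :: s) z = E s (ι_i^n z)`, `n = length s`. Claim: `E s`
is injective, monotone and preserves meets on `[p_n, q_n]`, `n = length s`: induction; `[p_{n+1},
q_{n+1}] ⊆ [p_n, u_n]`, and `ι_i^n` maps `[p_n, u_n]` into `[p_n, q_n]`. Put `φ s = E s (q_n)`,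
`ψ s = E s (p_n)`, `n = length s`. `lt`: `p_n < q_n` and injectivity, monotonicity. `phi_le`:
`ι_i^n q_{n+1} ≤ q_n`. `psi_le`: `p_n ≤ ι_i^n p_{n+1}` as `ι_i^n` maps `[p_n, u_n]` into
`[p_n, q_n]`. `cap`: `φ (false :: s) ⊓ φ (true :: s) = E s (ι_0 q_{n+1} ⊓ ι_1 q_{n+1}) ≤ E s p_n
≤ E s (ι_i^n p_{n+1})`. -/
def GoalDouble : Prop :=
  ∀ (L : Type u) [Lattice L] [IsModularLattice L], NestedDiamonds L → HasScheme L

/-- PACKET CR-BOXES. A scheme from two lexicographic chains (`G0 w ≤ G1 w`, `D0 w ≤ D1 w`, `w` a word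
in `true, false`; the order of the subintervals is `G(false) ≤ G(true)` and `D(true) ≤ D(false)`).

Proof. Put `β w = G1 w ⊓ D1 w`, `γ w = (G0 w ⊓ D1 w) ⊔ (G1 w ⊓ D0 w) ≤ β w`. Define `ψ [] = γ []`,
`ψ (i :: w) = ψ w ⊔ γ (i :: w)`, `φ [] = β []`, `φ (i :: w) = ψ w ⊔ β (i :: w)`. Write (for fixed `w`)
`g₀ = G0 w ≤ g₁ = G0 (false :: w) ≤ g₂ = G1 (false :: w) ≤ g₃ = G0 (true :: w) ≤ g₄ = G1 (true :: w)
≤ g₅ = G1 w`, and `d₀ = D0 w ≤ d₁ = D0 (true :: w) ≤ d₂ = D1 (true :: w) ≤ d₃ = D0 (false :: w) ≤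
d₄ = D1 (false :: w) ≤ d₅ = D1 w`.
(INV) `ψ w ⊓ β w ≤ γ w`. Induction: for `i :: w`, by modularity (`γ (i :: w) ≤ β (i :: w)`)
`β (i :: w) ⊓ (ψ w ⊔ γ (i :: w)) = γ (i :: w) ⊔ (β (i :: w) ⊓ ψ w)`, and
`β (i :: w) ⊓ ψ w ≤ β (i :: w) ⊓ (β w ⊓ ψ w) ≤ β (i :: w) ⊓ γ w ≤ β (i :: w) ⊓ (g₀ ⊔ d₀)`. For
`i = true`, `(g₄ ⊓ d₂) ⊓ (g₀ ⊔ d₀) = g₄ ⊓ ((d₂ ⊓ g₀) ⊔ d₀) = (d₂ ⊓ g₀) ⊔ (g₄ ⊓ d₀) ≤ (g₃ ⊓ d₂) ⊔
(g₄ ⊓ d₁) = γ (true :: w)` (modularity twice). For `i = false`, `(g₂ ⊓ d₄) ⊓ (g₀ ⊔ d₀) =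
(d₄ ⊓ g₀) ⊔ (g₂ ⊓ d₀) ≤ (g₁ ⊓ d₄) ⊔ (g₂ ⊓ d₃) = γ (false :: w)`.
`ψ w ≤ φ w` from `γ ≤ β`. `lt`: if `φ w ≤ ψ w` then `β w ≤ ψ w`, so `β w ≤ γ w` by (INV), against the
last hypothesis. `psi_le` is clear. `phi_le`: `ψ w ≤ φ w` and `β (i :: w) ≤ β w ≤ φ w`.
`cap`: `(ψ w ⊔ β (false :: w)) ⊓ (ψ w ⊔ β (true :: w)) = ψ w ⊔ (β (true :: w) ⊓ (ψ w ⊔
β (false :: w)))` by modularity. As `β (true :: w) ≤ β w` and `β w ⊓ (ψ w ⊔ β (false :: w)) =
(β w ⊓ ψ w) ⊔ β (false :: w) ≤ γ w ⊔ β (false :: w) ≤ g₂ ⊔ d₀`, the second term is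
`≤ g₄ ⊓ d₂ ⊓ (g₂ ⊔ d₀) = g₄ ⊓ ((d₂ ⊓ g₂) ⊔ d₀) = (d₂ ⊓ g₂) ⊔ (g₄ ⊓ d₀)`. Now
`d₂ ⊓ g₂ ≤ g₃ ⊓ d₂ ≤ γ (true :: w)`, `g₄ ⊓ d₀ ≤ g₄ ⊓ d₁ ≤ γ (true :: w)`, and
`d₂ ⊓ g₂ ≤ g₂ ⊓ d₃ ≤ γ (false :: w)`, `g₄ ⊓ d₀ ≤ g₅ ⊓ d₀ ≤ γ w ≤ ψ w`. -/
def GoalBoxes : Prop :=
  ∀ (L : Type u) [Lattice L] [IsModularLattice L] (G0 G1 D0 D1 : List Bool → L),
    (∀ w, G0 w ≤ G1 w) → (∀ w, D0 w ≤ D1 w) →
    (∀ w, G0 w ≤ G0 (false :: w)) → (∀ w, G1 (false :: w) ≤ G0 (true :: w)) →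
    (∀ w, G1 (true :: w) ≤ G1 w) →
    (∀ w, D0 w ≤ D0 (true :: w)) → (∀ w, D1 (true :: w) ≤ D0 (false :: w)) →
    (∀ w, D1 (false :: w) ≤ D1 w) →
    (∀ w, ¬ G1 w ⊓ D1 w ≤ (G0 w ⊓ D1 w) ⊔ (G1 w ⊓ D0 w)) → HasScheme L

/-! ### Localization, valuation rings -/

/-- PACKET CR-LOC. Nested diamonds of pp conditions over a commutative ring survive at some prime
(even maximal) ideal.

Proof. Choose pp conditions `P n, U n, V n, W n, Q n` representing the diamonds (`toL_surjective`).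
For `φ ∈ PP R` and an `R`-module `N`, `φ.sol N` is closed under multiplication by `R` (`R` is
commutative: multiply the witnesses). Put `J n = {r | ∀ N x, x ∈ (U n).sol N → r • x ∈ (P n).sol N}`
(`N : Type u`); this is an ideal, `1 ∉ J n` since not `toL (U n) ≤ toL (P n)`, and `J n ≤ J (n + 1)`:
for `x ∈ (U (n+1)).sol N ≤ (Q (n+1)).sol N ≤ (U n).sol N`, `r • x ∈ (P n).sol N ≤ (P (n+1)).sol N`.
So `⨆ J n` (a directed union) does not contain `1` and lies in a maximal ideal `M`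
(`Ideal.exists_le_maximal`). Let `A = Localization.AtPrime M` and for `φ ∈ PP R` let
`φ^A = pmap (algebraMap R A) φ` (`Pool/Agent/Helper78/SD/Goals2.lean`); for an `A`-module `N`,
`φ^A.sol N = φ.sol N` for `N` as an `R`-module (`mem_pmap`). So `φ ↦ toL φ^A` respects `≤`, `⊓`, `⊔`
in the sense that every relation among the sets `φ.sol N` valid for all `R`-modules holds for all
`A`-modules; hence the elements `toL (P n)^A, ...` of `PPL A` satisfy all the equalities of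
`IsDiamond` and the inequalities of `NestedDiamonds`. It remains to see that not
`toL (U n)^A ≤ toL (P n)^A`. Suppose `≤`. Write `U = U n`, `P = P n`. Let `C` be the `R`-module
`(Unit ⊕ Fin U.k → R) / (rows of U)`, that is with generators `c, y_j` and relations
`U.a i • c + ∑ j, U.b i j • y_j = 0`; so `c ∈ U.sol C`, and for every `R`-module `N` and
`x ∈ U.sol N` there is a linear `g : C → N` with `g c = x`. Let `C_M = LocalizedModule M.primeCompl C`,
an `A`-module, and `c' = c / 1`. Then `c' ∈ U^A.sol C_M` (image of `c`), so by assumption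
`c' ∈ P^A.sol C_M`: there are `z_j ∈ C_M` with `P.a i • c' + ∑ j, P.b i j • z_j = 0`. Write
`z_j = y_j / t` with a common `t ∉ M`; multiplying by `t` and then by a suitable `s ∉ M` (finitely
many equations in `C_M` which hold after multiplication by some `s`), `P.a i • (s t) c +
∑ j, P.b i j • (s y_j) = 0` in `C`. So `(s t) • c ∈ P.sol C`, and applying `g`, `(s t) • x ∈ P.sol N`
for every `N` and `x ∈ U.sol N`; that is `s t ∈ J n ≤ M`, a contradiction. -/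
def GoalLocalize : Prop :=
  ∀ (R : Type u) [CommRing R], NestedDiamonds (PPL R) →
    ∃ (M : Ideal R) (_ : M.IsPrime), NestedDiamonds (PPL (Localization.AtPrime M))

/-- PACKET CR-DELOC. A superdecomposable pure-injective module over a localization is one over the
ring.

Proof. Let `A = Localization.AtPrime M`, `N` a superdecomposable pure-injective `A`-module; regard it
as an `R`-module (`Module.compHom`, or `ModuleCat.restrictScalars`; use
`letI := Module.compHom N (algebraMap R A)`, `IsScalarTower R A N`).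
An `R`-submodule `B` of `N` which has an `R`-complement `B'` is closed under `A`: for `s ∉ M`,
`x ∈ B` write `(1/s) x = b + b'`; then `x = s b + s b'`, so `s b' = 0`, and `s` acts bijectively on
`N`, so `b' = 0`. Hence a decomposition `N = B ⊕ B'` over `R` is one over `A`, and decompositions of
`B` over `R` are decompositions over `A` (the summands of `B` are summands of `N`); so
`Superdecomposable R N`.
Pure injectivity: let `i : X → Y` be a pure embedding of `R`-modules and `f : X → N` linear. Let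
`X_M, Y_M` be the localized modules (`LocalizedModule M.primeCompl`, `A`-modules) and
`i_M : X_M → Y_M` the localization of `i` (`LocalizedModule.map` or `IsLocalizedModule.map`). `i_M`
is injective (localization preserves injectivity) and pure: given a finite system
`∑ j, b r j • y_j = i_M (c_r)` over `A`, solvable in `Y_M`, multiply the equations by a common
denominator `s ∉ M` of the coefficients, the constants and the solution: get
`∑ j, b' r j • y'_j = i (c'_r)` in `Y`, after multiplying by one more `s' ∉ M`, where `b', y', c'` are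
numerators; by purity of `i` it has a solution in `X`, and dividing, we get a solution of the
original system in `X_M`. (Precisely: let `b r j = β r j / s`, `c_r = γ_r / s`, `y_j = η_j / s` with a
common `s ∉ M`. Then `∑ β r j • η_j / s² = i γ_r / s`, so `s' • ∑ β r j • η_j = s' s • i γ_r` in `Y`
for some `s' ∉ M`. The system `∑ (s' β r j) • η_j = i (s' s γ_r)` has a solution `ξ_j` in `X`, and
then `y_j = ξ_j / s` solves the system: `∑ (β r j / s) • (ξ_j / s) = (∑ s' β r j ξ_j)/(s' s²) =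
s' s γ_r /(s' s²) = γ_r / s`.) The map `f` factors through `X → X_M` by an `A`-linear
`f' : X_M → N` (`LocalizedModule.lift`; every `s ∉ M` acts bijectively on `N`). As `N` is
pure-injective over `A`, `f' = g' ∘ i_M`, and `g = g' ∘ (Y → Y_M)` satisfies `g ∘ i = f`. -/
def GoalDelocalize : Prop :=
  ∀ (R : Type u) [CommRing R] (M : Ideal R) [M.IsPrime],
    HasSD (Localization.AtPrime M) → HasSD R

/-- PACKET CR-CHAIN. The pp lattice of a commutative local ring whose principal ideals form a chain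
is distributive.

Proof. (1) Every finitely presented module over such a ring `S` is a finite direct sum of cyclic
modules: every matrix `B` over `S` is equivalent to a diagonal one: there are invertible `G, H` with
`G B H` diagonal. (Induction on the number of rows: if `B ≠ 0` choose an entry dividing all the
others (finitely many elements of a chain under divisibility), move it to the corner by permutation
matrices, clear its row and its column by elementary operations; the other entries stay divisible by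
it; continue with the remaining submatrix.)
(2) For a cyclic module `S / (d)` the submodules form a chain (two submodules `I/(d)`, `J/(d)`: if
`x ∈ I`, `x ∉ J`, then no `y ∈ J` divides `x`, so `x` divides all `y ∈ J`, `J ≤ I`). pp definable
subgroups of a module over the commutative ring `S` are submodules, so for pp conditions `x, y, z` and
`N = S/(d)` one has `x(N) ⊓ (y(N) ⊔ z(N)) ≤ (x(N) ⊓ y(N)) ⊔ (x(N) ⊓ z(N))`.
(3) Let `φ, ψ` be pp conditions with `φ.sol N ≤ ψ.sol N` for all `N = S/(d)`. Then `φ.sol N ≤ ψ.sol N`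
for all modules `N`: let `C` be the module with generators `c, y_j` and relations
`φ.a i • c + ∑ j, φ.b i j • y_j = 0`; by (1), `C` is isomorphic to a direct sum `⊕ S/(d_i)` (apply (1)
to the matrix of relations), `c` corresponds to `(c_i)`, `c ∈ φ.sol C` implies
`c_i ∈ φ.sol (S/(d_i)) ≤ ψ.sol (S/(d_i))` (projections), so `c = ∑ (inclusions of c_i) ∈ ψ.sol C`;
for `x ∈ φ.sol N` there is a linear `g : C → N`, `g c = x`, so `x ∈ ψ.sol N` (`PP.map_sol`).
Alternatively to `C ≅ ⊕ S/(d_i)`: with `B = G⁻¹ D H⁻¹` the bound variables can be changed, and the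
matrix of `(φ.a | φ.b)` can be treated directly; any route is fine.
(4) Apply (3) to `φ = x ⊓ (y ⊔ z)`, `ψ = (x ⊓ y) ⊔ (x ⊓ z)` (`PP.inf`, `PP.sup`). -/
def GoalChain : Prop :=
  ∀ (S : Type u) [CommRing S] [IsLocalRing S], (∀ a b : S, a ∣ b ∨ b ∣ a) →
    ∀ x y z : PPL S, x ⊓ (y ⊔ z) ≤ (x ⊓ y) ⊔ (x ⊓ z)

/-! ### Filters for algebras over a field; relational structures -/

/-- PACKET CR-ENG. The engine of `Pool/Agent/Helper78/SD` with one more piece of information.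

Proof. Copy `main_scheme` (`Helper78/SD/Final2.lean`) and `engine` (`Helper78/SD/Engine.lean`).
`main_scheme` finds a small subring `S₀` containing all coefficients of `f s, g s`, of `T` and (add
them to the set `A`) of `e`, with a centralizing basis `B`, conditions `f₀, g₀, e₀` over `S₀` with
`up S₀ (f₀ s) = f s`, ..., `T = upT S₀ T₀`, and the scheme over `S₀`. `engine` then constructs the
filter `p₀` of `ppLattice T₀` with `toL T₀ (f₀ []) ∈ p₀`, the compact module `Bidual M` with the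
element `a = ev m` whose pp type is `p₀`, and the filter
`p = {x | ∀ j, B.pr j a ∈ x.1 ⟨Coind S₀ (Bidual M)⟩}` of `ppLattice (upT S₀ T₀)`, which it shows to be
a proper filter without large elements. Stop there. By the reflection (`GoalReflect`, as in
`scheme_descends`) `toL T₀ (f₀ []) ≤ toL T₀ e₀`, so `toL T₀ e₀ ∈ p₀`, `a ∈ e₀.sol (Bidual M)`, and
since `B.pr j : Bidual M → Coind S₀ (Bidual M)` is `S₀`-linear, `B.pr j a ∈ e₀.sol = (up S₀ e₀).sol`
(`PP.map_sol`), that is `toL T e ∈ p`. The proved goals to be used are in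
`Pool/Agent/Results/MP_ca5fc5_al/ArtinianAlgebras.lean`. -/
def GoalEngine : Prop :=
  ∀ (S : Type u) [Ring S], Descends.{u, u} S → ∀ (T : Set (PP S × PP S)), Sm T →
    ∀ f g : List Bool → PP S, Scheme (fun s => toL T (f s)) (fun s => toL T (g s)) →
    ∀ e : PP S, toL T (f []) ≤ toL T e →
    ∃ p : Set (ppLattice T), IsFilt p ∧ (∃ x, x ∉ p) ∧ NoLarge p ∧ toL T e ∈ p

/-- PACKET CR-KB. Relational structures as modules over an algebra.

Proof. Let `S` be the ring of the triples `(α, f, β)`, `α, β ∈ k`, `f : Fin N → k`, with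
componentwise addition and `(α, f, β)(α', f', β') = (α α', (α f'_i + f_i β')_i, β β')`, unit
`(1, 0, 1)`; it is a `k`-algebra of dimension `N + 2` by `c ↦ (c, 0, c)` (define it as a structure with
three fields, `ext; simp; ring`). `Descends.{u, u} S` by `goalField`
(`Pool/Agent/Helper78/SD/Field.lean`) and `aleph0_lt_covM` (finite rank). For an `S`-module `Y` let
`V = {y | (1,0,0) y = y}`, `U = {y | (0,0,1) y = y}` (`k`-subspaces for the `k`-structure
`c y = (c,0,c) y`), `Y = V ⊕ U`, and `π_i : U → V`, `π_i w = (0, e_i, 0) w`, so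
`(α, f, β)(v + w) = (α v + ∑ i, f_i π_i w) + β w`. Let `T` consist of the pair
`((0,0,1) y = y ∧ ∀ i, (0,e_i,0) y = 0, y = 0)` and, for each of the finitely many axioms `A` of `P`,
of the pair of the condition `(0,0,1) w = w ∧ ∀ i, (0, A.c i, 0) w = 0` and the condition
`∃ w'_l, (0,0,1) w'_l = w'_l ∧ ∀ i, (0, A.d i, 0) w + ∑ l, (0, A.e i l, 0) w'_l = 0`. (Build them with
`PP.mk'` and `PP.inf`.) `T` is finite, so `Sm T`. `e` = the condition `(1,0,0) y = y`. For a module `Y`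
of the class `T` let `X Y` be the structure with vector space `V` and `Rel = {(π_i w)_i | w ∈ U}`; the
axioms hold in `X Y` by the pairs, and `U ≅ Rel` by the first pair. `j` = the inclusion. For
`φ : RF k N` the condition `χ`: `(1,0,0) x = x ∧ ∃ y_j (j < n), w_l (l < q): (1,0,0) y_j = y_j,
(0,0,1) w_l = w_l, φ.a i x + ∑ j, φ.b i j y_j = 0` (scalars `(c,0,c)`), `(0,e_i,0) w_l = φ.c l i x +
∑ j, φ.d l i j y_j` for all `l, i`. Conversely for `χ : PP S` with `χ.k` bound variables: a bound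
variable `y_j = v_j + w_j`, `w_j ∈ U`, is replaced by `v_j ∈ V` and `w_{j i} = π_i w_j ∈ V`
(`i < N`) with `(w_{j i})_i ∈ Rel`; the equation `(α⁰,f⁰,β⁰) x + ∑ j, (α_j, f_j, β_j) y_j = 0`,
`x ∈ V`, becomes `α⁰ x + ∑ j, (α_j v_j + ∑ i, f_{j i} w_{j i}) = 0` and `∑ j, β_j w_{j i} = 0` for all
`i < N` (by injectivity of `w ↦ (π_i w)_i` on `U`, the `U`-part `∑ j, β_j w_j` is zero iff this
holds). This is a condition `φ : RF k N` (use `RF.mk'` with
`ν = Fin χ.k ⊕ (Fin χ.k × Fin N)`, `σ = Fin χ.n ⊕ (Fin χ.n × Fin N)`, `θ = Fin χ.k`).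
The last clause: for a structure `X'` with `P X'` let `Y = X'.V × X'.Rel` with
`(α, f, β)(v, w) = (α v + ∑ i, f_i w_i, β w)`; it is in the class `T`, and `X Y` is isomorphic to `X'`
(`V = X'.V × 0`), so the subspaces defined by conditions correspond. -/
def GoalKB : Prop :=
  ∀ (k : Type u) [Field k] (N : ℕ) (P : RS k N → Prop), Axiomatized P →
    ∃ (S : Type u) (_ : Ring S) (T : Set (PP S × PP S)) (e : PP S) (X : Mods T → Models P)
      (j : ∀ Y : Mods T, (X Y).1.V →+ Y.1),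
      Descends.{u, u} S ∧ Sm T ∧ (∀ Y, Function.Injective (j Y)) ∧
      (∀ (Y : Mods T) (y : Y.1), y ∈ e.sol Y.1 ↔ ∃ v, j Y v = y) ∧
      (∀ φ : RF k N, ∃ χ : PP S, (∀ Y : Mods T, χ.sol Y.1 ≤ e.sol Y.1) ∧
        ∀ (Y : Mods T) (v : (X Y).1.V), j Y v ∈ χ.sol Y.1 ↔ v ∈ φ.sol (X Y).1) ∧
      (∀ χ : PP S, ∃ φ : RF k N, ∀ (Y : Mods T) (v : (X Y).1.V),
        v ∈ φ.sol (X Y).1 ↔ j Y v ∈ χ.sol Y.1) ∧
      ∀ X' : Models P, ∃ Y : Mods T, ∀ φ ψ : RF k N,
        φ.sol (X Y).1 ≤ ψ.sol (X Y).1 → φ.sol X'.1 ≤ ψ.sol X'.1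

/-- PACKET CR-RSH. A scheme of conditions for relational structures gives a filter without large
elements.

Proof. Take `S, T, e, X, j` of `GoalKB`. For `φ : RF k N` choose `χ_φ : PP S` (fifth clause). By the
fifth and the last clause `toD P φ ≤ toD P ψ ↔ toL T χ_φ ≤ toL T χ_ψ` (→: for `y ∈ χ_φ.sol Y ≤ e.sol
Y`, `y = j v`, `v ∈ φ.sol (X Y) ≤ ψ.sol (X Y)`; ←: for `X'` take `Y` of the last clause). Similarly
`toL T (χ_{φ.inf ψ}) = toL T χ_φ ⊓ toL T χ_ψ` and for `sup` (`j` is injective, so `j` of an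
intersection or a sum of subspaces is the intersection or sum of the images). Let
`toD P (φ s), toD P (ψ s)` be a scheme (`toD_surjective`). Then `toL T χ_{φ s}, toL T χ_{ψ s}` is a
scheme of `ppLattice T`, and `toL T χ_{φ []} ≤ toL T e`. `GoalEngine` gives a filter `p` with
`toL T e ∈ p`. Put `p' = {toD P φ | toL T χ_φ ∈ p} = {x | ∃ φ, x = toD P φ ∧ toL T χ_φ ∈ p}`
(well defined by the equivalence above). It is a filter of `DLat P` (`toL T χ_top = toL T e ∈ p`);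
proper, as `toL T χ_bot` is the least element and `p` is proper. No large elements: let
`toD P φ ∉ p'`, so `toL T χ_φ ∉ p`; take `x₁, x₂ ≥ toL T χ_φ` not in `p` with
`(σ ⊓ x₁) ⊔ (σ ⊓ x₂) ∈ p` for `σ ∈ p`. Write `x_i ⊓ toL T e = toL T χ_i'`, `χ_i' : PP S`, and by the
sixth clause choose `φ_i : RF k N` with `v ∈ φ_i.sol (X Y) ↔ j v ∈ χ_i'.sol Y`; then
`toL T χ_{φ_i} = toL T χ_i'`. It is `∉ p` (otherwise `x_i ∈ p`), `toD P φ ≤ toD P φ_i` and for
`σ = toL T χ_τ ∈ p` (`σ ≤ toL T e`) `σ ⊓ x_i = σ ⊓ toL T χ_{φ_i}`. -/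
def GoalRSH : Prop :=
  GoalEngine.{u} → GoalKB.{u} → ∀ (k : Type u) [Field k] (N : ℕ) (P : RS k N → Prop),
    Axiomatized P → HasScheme (DLat P) → NoLargeFilter (DLat P)

/-- PACKET CR-TRANS. Transfer of the filter to the pp lattice of the ring `R`.

Proof. (A) For every `φ : RF k N` there is `θ : PP R` with `θ.sol T_X = π⁻¹ (φ.sol X)` for all `X`
(`T_X = (D X).T`): choose lifts along the surjection `ρ` of all the coefficients of `φ` and let `θ` be
`∃ y_j, (α₀ holds for â_i x + ∑ j, b̂_{i j} y_j for all i < s) ∧ (κ holds for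
(ĉ_{l i} x + ∑ j, d̂_{l i j} y_j)_i for all l < q)` (the witnesses of `α₀` and `κ` are further bound
variables; build it with `PP.mk'`). If `x` satisfies `θ` with `y_j`, then `π x ∈ φ.sol X` with
witnesses `π y_j` (semilinearity `π (r t) = ρ r π t`); conversely lift the witnesses (`π` is
surjective). Let `𝒯 = {(θ, θ') | ∀ X, θ.sol T_X ≤ θ'.sol T_X}`, so `T_X` is a module of the class `𝒯`;
let `L = ppLattice 𝒯`; `toL θ ≤ toL θ' ↔ ∀ X, θ.sol T_X ≤ θ'.sol T_X` (→: `T_X` is in the class; ←: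
definition of `𝒯`). Let `p` be the filter of `DLat P`. Let `a = toL ⊤`, `b = toL α₀` and
`p₁ = {x ∈ [b, a] | ∃ θ φ, x = toL θ, toD P φ ∈ p, ∀ X, π (θ.sol T_X) = φ.sol X}`. Check the
hypotheses of `extend_noLarge` (`Pool/Agent/Helper72/Width/Lattice.lean`) for `p₁` in the modular
lattice `L`. For `θ ≥ α₀` we have `θ.sol T_X = π⁻¹ (π (θ.sol T_X))` as `ker π = α₀.sol T_X`. By the
third clause of `TransferData` for every `θ` there is `φ_θ` with `π (θ.sol T_X) = φ_θ.sol X` for all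
`X`, and for `θ, θ' ≥ α₀`: `toL θ ≤ toL θ' ↔ toD φ_θ ≤ toD φ_θ'`,
`toD φ_{θ ⊓ θ'} = toD φ_θ ⊓ toD φ_θ'`, `toD φ_{θ ⊔ θ'} = toD φ_θ ⊔ toD φ_θ'`; and `toL θ ∈ p₁` iff
`toD φ_θ ∈ p`. `a ∈ p₁`: `φ_⊤` defines `V`, the largest element, which is in `p`. `b ∉ p₁`: `φ_{α₀}`
defines `0`, the least element of `DLat P`, and `p` is proper. Upward closed, closed under meets:
clear. No large elements: let `θ ≥ α₀`, `toD φ_θ ∉ p`; take `x₁, x₂ ≥ toD φ_θ`, `∉ p`, with
`(σ ⊓ x₁) ⊔ (σ ⊓ x₂) ∈ p` for all `σ ∈ p`; by (A) there are `θ_i ≥ α₀` with `toD φ_{θ_i} = x_i`; then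
`toL θ ≤ toL θ_i`, `toL θ_i ∉ p₁` and the elements `(toL τ ⊓ toL θ₁) ⊔ (toL τ ⊓ toL θ₂)` correspond to
`(toD φ_τ ⊓ x₁) ⊔ (toD φ_τ ⊓ x₂) ∈ p`. So `extend_noLarge` gives a filter of `L` and
`superdecomposable_of_noLarge` (`Pool/Agent/Helper72/Width/Assembly.lean`) gives
`HasSuperdecomposable 𝒯`, hence `HasSuperdecomposable ∅`. -/
def GoalTransfer : Prop :=
  ∀ (R : Type u) [CommRing R] (k : Type u) [Field k] (N : ℕ) (ρ : R →+* k)
    (P : RS k N → Prop), Function.Surjective ρ → TransferData R k N ρ P →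
    NoLargeFilter (DLat P) → HasSD R

/-- PACKET CR-STRING. Strings give a scheme.

Proof. For a family of subspaces `F ∈ DLat P` given by `φ : RF k N` and `ρ : RF2 k N` the families
`ρ⁻¹ F = {y | ∃ s ∈ F, ρ.Sat y s}` and `ρ F = {s | ∃ y ∈ F, ρ.Sat y s}` are in `DLat P`: the condition
`∃ s z y', (linear equations and relations of ρ for y, s, z) ∧ (those of φ for s, y')` is of the form
`RF` (use `RF.mk'` with `ν = Unit ⊕ Fin ρ.n ⊕ Fin φ.n`). Both operations are monotone in `F`.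
Let `pre i F = ρs⁻¹ F` for `i = true`, `ρx⁻¹ F` for `i = false`, `img i F` the images. Define for lists
`G [] F = F`, `G (i :: w) F = G w (pre i F)`, `D [] F = F`, `D (i :: w) F = D w (img i F)`, and
`G0 w = G w ⊥`, `G1 w = G w ⊤`, `D0 w = D w ⊥`, `D1 w = D w ⊤` (`⊥, ⊤` are given by `RF.bot, RF.top`).
All `G w`, `D w` are monotone. Check the hypotheses of `GoalBoxes` for `L = DLat P`:
`G0 w = G w ⊥ ≤ G w (pre i ⊥) = G0 (i :: w)`, `G1 (i :: w) ≤ G1 w`, the same for `D`.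
`G1 (false :: w) = G w (ρx⁻¹ ⊤) ≤ G w (ρs⁻¹ ⊥) = G0 (true :: w)` by the first clause of `StringData`
(`ρx.Sat y s → ρs.Sat y 0`), `D1 (true :: w) = D w (ρs ⊤) ≤ D w (ρx ⊥) = D0 (false :: w)` by the second
(`ρs.Sat y s → ρx.Sat 0 s`).
The last hypothesis: let `w` be a word of length `n`; write `w = [i_n, ..., i_1]` (so that
`G w F = pre i_1 (pre i_2 (... (pre i_n F)))`, `D w F = img i_1 (img i_2 (... (img i_n F)))`). Choose
`t : ℤ → Bool` with `t (j - 1) = i_j` and `t (-j) = i_j` for `j = 1, ..., n` and take the structure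
`X` with `z, ε`. (a) `z 0 ∈ G1 w X`: more generally `z m ∈ G w' ⊤` by induction along the word
(`Sat (z (j-1)) (z j)` for the relation `i_j`). (b) `z 0 ∈ D1 w X` (`Sat (z (-j)) (z (-j+1))` for the
relation `i_j`). (c) `y ∈ G0 w X → ε 0 y = 0`: there are `y = y_0, y_1, ..., y_n = 0` with
`Sat y_{j-1} y_j` for `i_j`, so `ε j y_j = ε (j-1) y_{j-1}`, and `ε n y_n = 0`. (d) `y ∈ D0 w X →
ε 0 y = 0`: there are `y = y_0, y_1, ..., y_n = 0` with `Sat y_j y_{j-1}` for `i_j`, so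
`ε (-j+1) y_{j-1} = ε (-j) y_j` and `ε (-n) 0 = 0`. (For an induction on the list it is convenient to
prove for all lists `w`, all `m : ℤ`, and all `t` which agree with `w` from `m` on the statements
with `0` replaced by `m`; here `w.reverse` is the word read from the inside, or one can use the
recursion of `G (w ++ [i]) F = pre i (G w F)`.) If `G1 w ⊓ D1 w ≤ (G0 w ⊓ D1 w) ⊔ (G1 w ⊓ D0 w)`, then
`z 0 = y + y'` with `y ∈ G0 w X`, `y' ∈ D0 w X`, so `ε 0 (z 0) = 0`, a contradiction. -/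
def GoalString : Prop :=
  GoalBoxes.{u + 1} → ∀ (k : Type u) [Field k] (N : ℕ) (P : RS k N → Prop),
    StringData P → HasScheme (DLat P)

end Pool.Agent.Helper10.CR
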