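import Pool.Agent.Helper10.CR.Cases

/-!
# Project CR: the statements of the packets, part 2 (the modules, the three cases, local rings)

See `Goals1.lean` for the aim of the project. Every docstring contains a complete proof.
-/

universe u v

namespace Pool.Agent.Helper10.CR

open Pool.Agent.Helper10.Width Pool.Agent.Helper72.Width Pool.Agent.Helper78.SD
open scoped QuadraticAlgebra

/-! ### Solutions of pp conditions in the modules `T` -/

/-- PACKET CR-LIFT. The image in `V` of the solutions of a pp condition in `T = F / W`.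

Proof. Write `H(y, η)_c = θ.a c • y + ∑ l, θ.b c l • η_l` (`y, η_l ∈ F`), `[f] = ∑ j, a_j • f_j` for
`f : Fin n → F`, `chi κ = (0, χ κ)`. An element `t` of `T` is in `θ.sol T` iff it has a lift `y ∈ F`
and there are `η_l ∈ F`, `f_{j c} ∈ F`, `κ_c ∈ ιD →₀ R'` with
(1) `H(y, η)_c = ∑ j, a_j • f_{j c} + chi κ_c` and (2) `(red f_{j c})_j - γ (redD κ_c) ∈ Wr` for all `c`
(definition of `W`), and then `π t = red y`.
(→) Given such data put for `i ∈ ιA`: `ε_i = (ρ (y.1 i), ρ ((f_{j c}).1 i)) ∈ EA` (the `i`-th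
coordinate of (1), `chi` has no `ιA`-coordinates; `η = ((η_l).1 i)_l`), and for `i ∈ ιD`:
`δ_i = (ρ' (y.2 i), ρ' ((f_{j c}).2 i), ρ' (κ_c i)) ∈ ED` (`r • g = algebraMap r * g`
coordinatewise). Let `P = ∑ i ∈ s, (m ↦ ε_i m • S.e (single i 1, 0))`,
`Q = ∑ i ∈ s', (m ↦ δ_i m • single i 1)` with `s, s'` finite sets containing all the supports.
Then `P ∈ tens EA`, `Q ∈ tens ED`, and for each index `m` of `IA` one has `P m + S.e (0, Q (inl m)) =
S.e (mapRange ρ g.1, redD g.2) = red g` with `g = y` or `g = f_{j c}`, and `Q (inr c) = redD κ_c`.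
(←) Call `P : IA n q → V` liftable if there are `y, η_l, f_{j c} ∈ F` with
`H(y, η)_c = ∑ j, a_j • f_{j c}`, `red y = P (inl ())`, `red f_{j c} = P (inr (j, c))`. The liftable
`P` form a subspace (add; scalars: `ρ` is surjective, `red (r g) = ρ r red g`) and contain
`m ↦ ε m • v` for `ε ∈ EA`, `v ∈ V`: take `ξ, φ, η` over `R` for `ε`, `g ∈ F` with `red g = v`
(`red_surjective`), and `y = ξ • g`, `f_{j c} = φ (j,c) • g`, `η_l = η l • g`. So all `P ∈ tens EA`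
are liftable (`Submodule.span_induction`). Similarly for every `Q ∈ tens ED` there are
`y, η_l, f_{j c} ∈ F` and `κ_c ∈ ιD →₀ R'` with (1), `red y = S.e (0, Q (inl (inl ())))`,
`red f_{j c} = S.e (0, Q (inl (inr (j, c))))`, `redD κ_c = Q (inr c)`: for `ε ∈ ED` with
`ξ, φ, κ, η` over `R'` and `z = redD g` (`mapRange` is surjective) take `y = (0, ξ • g)`,
`f_{j c} = (0, φ (j,c) • g)`, `κ_c = κ c • g`, `η_l = (0, η l • g)` (here `r • (0, g') =
(0, algebraMap r • g')`). Adding the data of `P` and `Q` we get (1) and (2) holds by the hypothesis,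
so `t = [y]` is in `θ.sol T` and `π t = v`. -/
def GoalLift : Prop :=
  ∀ (R k R' L : Type u) [CommRing R] [Field k] [CommRing R'] [CommRing L] [Algebra R R']
    [Algebra k L] (C : Ctx R k R' L) (N : ℕ) (X : RS k N) (S : Str k L C.n X.V) (θ : PP R)
    (v : X.V),
    (∃ t ∈ θ.sol (C.tr X S).T, (C.tr X S).π t = v) ↔
    ∃ P ∈ tens (M := X.V) (C.EA θ), ∃ Q ∈ tens (M := S.ιD →₀ L) (C.ED θ),
      v = P (Sum.inl ()) + S.e (0, Q (Sum.inl (Sum.inl ()))) ∧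
      ∀ c, (fun j => P (Sum.inr (j, c)) + S.e (0, Q (Sum.inl (Sum.inr (j, c))))) -
        S.γ (Q (Sum.inr c)) ∈ S.Wr

/-- PACKET CR-LAW. Linear algebra for case W.

Proof. `EA` is finite dimensional (a subspace of `k^m`); let `g_1, ..., g_r` span it. Then
`P ∈ tens EA ↔ ∃ u_1, ..., u_r ∈ V, P = ∑ j, (m ↦ g_j m • u_j)` (→: span induction: a generator
`ε m • v`, `ε = ∑ t_j g_j`, has `u_j = t_j v`; ←: clear). So the condition is
`∃ u, x - ∑ j, g_j (inl ()) u_j = 0 ∧ ∀ c, (∑ j, g_j (inr (i, c)) u_j)_i ∈ Rel`: take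
`φ` with `n = r`, `s = 1`, `q = q`, `a = 1`, `b = - g_j (inl ())`, `c = 0`,
`d c i j = g_j (inr (i, c))`. -/
def GoalLAW : Prop :=
  ∀ (k : Type u) [Field k] (N q : ℕ) (EA : Submodule k (IA N q → k)), ∃ φ : RF k N,
    ∀ (X : RS k N) (v : X.V), v ∈ φ.sol X ↔
      ∃ P ∈ tens (M := X.V) EA, v = P (Sum.inl ()) ∧ ∀ c, (fun j => P (Sum.inr (j, c))) ∈ X.Rel

/-- PACKET CR-LAI. Linear algebra for case I. (Indices: `f_{j c}` is the parameter with index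
`(j, c)`, `j = 0, 1`, `κ_c` the last one.)

Proof. Let `Ξ = {(ε (inr c))_c | ε ∈ ED} ≤ k^q`. Choose a basis `b_1, ..., b_q` of `k^q` (index
set `I ⊔ I'`) such that `(b_i)_{i ∈ I}` is a basis of `Ξ` (extend a basis of `Ξ`), and let `b_i^*` be
the coordinate functionals. For a family `(w_c)_c` in a `k`-space write `w_(i) = ∑ c, b_i^*(e_c) w_c`
(`e_c` the standard basis), so `w_c = ∑ i, b_i(c) w_(i)`; `(∀ c, w_c ∈ Rel) ↔ (∀ i, w_(i) ∈ Rel)`
for families in `V^4`. Let `g_1, ..., g_A` span `EA` and `d_1, ..., d_B` span `ED`.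
The condition `φ`: there are `c_j` (`j ≤ A`), `m_l, m'_l` (`l ≤ B`) in `V` with
`![0, 0, m_l, m'_l] ∈ Rel` for all `l`, `x = ∑ g_j(ξ) c_j + ∑ d_l(ξ) m_l`, and with
`f_{0 c} = ∑ g_j(0,c) c_j + ∑ d_l(0,c) m_l`, `f_{1 c}` similarly, `κ_c = ∑ d_l(κ_c) m_l`:
for `i ∈ I`: `![0, 0, κ_(i), - f_{1 (i)}] ∈ Rel`; for `i ∈ I'`: `![f_{0 (i)}, - f_{1 (i)}, 0, 0] ∈ Rel`.
This is a condition of the form `RF` (`RF.mk'`).
(←, the right hand side implies `φ`) Let `P, Q` be given; `P = ∑ g_j ⊗ c_j`, `Q = ∑ d_l ⊗ z_l`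
(`z_l ∈ M`, span induction as in CR-LAW). Put `m_l = r z_l`, `m'_l = σ z_l`. Write `κ_c = r (Q κ_c)`,
`σ_c = σ (Q κ_c)`. We are given `![f_{0 c}, - f_{1 c} - σ_c, 0, 0] ∈ Rel` for all `c`, hence the same
for `(i)`. For `i ∈ I`: by `PI.sx`, `![0, 0, 0, - f_{1(i)} - σ_(i)] ∈ Rel`, and adding
`![0, 0, κ_(i), σ_(i)] ∈ Rel` we get the claim. For `i ∈ I'`: `Q κ_(i) = 0`, since `(Q κ_c)_c` lies in
`Ξ ⊗ M` and `b_i^*` vanishes on `Ξ`; so `σ_(i) = 0`.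
(→) Let `c_j, m_l, m'_l` be given. As `![0, 0, m_l, m'_l] ∈ Rel`, `m_l = r z_l` for some `z_l`. Put
`Q = ∑ d_l ⊗ z_l`, `P⁰ = ∑ g_j ⊗ c_j`. For `i ∈ I'` we have `σ_(i) = 0` and
`![f_{0(i)}, - f_{1(i)} - σ_(i), 0, 0] ∈ Rel`. For `i ∈ I`: `![0, 0, κ_(i), - f_{1(i)}]` minus
`![0, 0, κ_(i), σ_(i)]` is in `Rel`, so by `PI.xs'` there is `y_i` with
`![y_i, - f_{1(i)} - σ_(i), 0, 0] ∈ Rel`. Let `E_i ∈ EA` be the element with `(0, c)`-coordinate
`b_i(c)` and all the others `0`; it is in `EA` by the hypothesis (ii) since `b_i ∈ Ξ`. Put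
`P = P⁰ + ∑ i ∈ I, E_i ⊗ (y_i - f_{0(i)}) ∈ tens EA`. This changes only `f_{0(i)}`, `i ∈ I`, to
`y_i`. So all `![f_{0(i)}, - f_{1(i)} - σ_(i), 0, 0] ∈ Rel`, hence the same for all `c`. -/
def GoalLAI : Prop :=
  ∀ (k : Type u) [Field k] (q : ℕ) (EA : Submodule k (IA 2 q → k))
    (ED : Submodule k (ID 2 q → k)),
    (∀ ε ∈ EA, (Sum.elim ε (fun _ => 0) : ID 2 q → k) ∈ ED) →
    (∀ ε ∈ ED, (Sum.elim (fun _ => 0)
      (fun p => if p.1 = 0 then ε (Sum.inr p.2) else 0) : IA 2 q → k) ∈ EA) →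
    ∃ φ : RF k 4, ∀ X : RS k 4, PI X → ∀ (M : Type u) [AddCommGroup M] [Module k M]
      (r σ : M →ₗ[k] X.V), (∀ m, ![0, 0, r m, σ m] ∈ X.Rel) →
      (∀ y s, ![0, 0, y, s] ∈ X.Rel → ∃ m, r m = y) →
      ∀ v, v ∈ φ.sol X ↔ ∃ P ∈ tens (M := X.V) EA, ∃ Q ∈ tens (M := M) ED,
        v = P (Sum.inl ()) + r (Q (Sum.inl (Sum.inl ()))) ∧
        ∀ c, ![P (Sum.inr (0, c)) + r (Q (Sum.inl (Sum.inr (0, c)))),
          -(P (Sum.inr (1, c)) + r (Q (Sum.inl (Sum.inr (1, c))))) - σ (Q (Sum.inr c)), 0, 0] ∈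
            X.Rel

/-- PACKET CR-NF. Normal form of the `L`-subspaces of `L^q` over `k`, `L = k(ω)` quadratic.

Proof. `L` is a field (`QuadraticAlgebra` has the instance for `Fact (∀ r, r ^ 2 ≠ α + β * r)`).
Let `Ξ₀ = {c ∈ k^q | c ∈ Ξ}`, with `k`-basis `e_1, ..., e_{n₁}`; vectors of `k^q` which are
independent over `k` are independent over `L` in `L^q`. Extend `e_1, ..., e_{n₁}` to an `L`-basis
`e_1, ..., e_{n₁}, κ_1, ..., κ_{n₂}` of `Ξ`, `κ_j = c_j + ω c'_j`, `c_j, c'_j ∈ k^q`. Claim: the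
vectors `e_i, c_j, c'_j` are independent over `k`. Let `∑ t_i e_i + ∑ (s_j c_j + s'_j c'_j) = 0`. Put
`μ_j = m_j + ω m'_j` with `m'_j = s_j`, `m_j = s'_j - β s_j`. As `ω μ_j = α m'_j + ω (m_j + β m'_j)`,
`∑ μ_j κ_j = ∑ (m_j c_j + α m'_j c'_j) + ω ∑ (m'_j c_j + (m_j + β m'_j) c'_j)` and the second sum is
`∑ (s_j c_j + s'_j c'_j) = - ∑ t_i e_i`. So `∑ μ_j κ_j + ω ∑ t_i e_i ∈ k^q ∩ Ξ = Ξ₀`, a combination
of the `e_i` over `k`; since the `e_i, κ_j` are independent over `L`, `μ_j = 0` and `t_i = 0`, so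
`s_j = 0`, `s'_j = 0`. Extend the family `e_i, c_j, c'_j` to a basis `b` of `k^q` by `n₃` vectors
(`b (inl i) = e_i`, `b (inr (inl (inl j))) = c_j`, `b (inr (inl (inr j))) = c'_j`). For
`κ = ∑ x_i b_i` (`x_i ∈ L`, unique): if the last `n₃` coordinates vanish and
`x (c'_j) = ω x (c_j)`, then `κ = ∑ x_i e_i + ∑ x(c_j) κ_j ∈ Ξ`; conversely an element
`∑ x_i e_i + ∑ y_j κ_j` of `Ξ` has the coordinates `x_i, y_j, ω y_j, 0`. -/
def GoalNF : Prop :=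
  ∀ (k : Type u) [Field k] (α β : k), (∀ l, l ^ 2 ≠ α + β * l) → ∀ (q : ℕ)
    (Ξ : Submodule (QuadraticAlgebra k α β) (Fin q → QuadraticAlgebra k α β)),
    ∃ (n₁ n₂ n₃ : ℕ) (b : Module.Basis (Fin n₁ ⊕ ((Fin n₂ ⊕ Fin n₂) ⊕ Fin n₃)) k (Fin q → k)),
    ∀ κ : Fin q → QuadraticAlgebra k α β, κ ∈ Ξ ↔
      ∃ x : Fin n₁ ⊕ ((Fin n₂ ⊕ Fin n₂) ⊕ Fin n₃) → QuadraticAlgebra k α β,
        (∀ c, κ c = ∑ i, x i * algebraMap k (QuadraticAlgebra k α β) (b i c)) ∧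
        (∀ j, x (Sum.inr (Sum.inr j)) = 0) ∧
        ∀ j, x (Sum.inr (Sum.inl (Sum.inr j))) = ω * x (Sum.inr (Sum.inl (Sum.inl j)))

/-- PACKET CR-LAII. Linear algebra for case II. `L = k[ω]`; for `ζ = ζ₀ + ω ζ₁ ∈ L` and `(m, m') ∈ Δ`
(that is `![m, m', 0, 0, 0, 0, 0] ∈ Rel`) write `ζ m = ζ₀ m + ζ₁ m'`.

Proof. Write `Λ (u, v) = (α v, u + β v)`, `Λ' (u, v) = (β u - α v, - u)`, so `Λ + Λ' = β`,
`Λ Λ' = - α`; `Wr, G, Δ` the three parts of the relation; `γ = (γ₀, γ₁) : M → V²`. The hypothesis on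
`γ` is `(r m, γ (ω m) - Λ' γ m) ∈ G`. For the `L`-subspace `Ξ = {(ε (inr c))_c | ε ∈ ED}` of `L^q`
take the basis `b` of `k^q` of `GoalNF` with the index sets `I₁ = Fin n₁`, the pairs `(i, i')`,
`i = inr (inl (inl j))`, `i' = inr (inl (inr j))`, and `I₃ = Fin n₃`; for a family `(w_c)_c` in a
`k`-space write `w_(i) = ∑ c, b_i^*(e_c) w_c` (coordinates), so `w_c = ∑ i, b_i(c) w_(i)`. Let `g_j`
span `EA` over `k`, `d_l` span `ED` over `L` (finite families). The condition `φ`: there are `c_j ∈ V`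
and `m_l, m'_l` with `(m_l, m'_l) ∈ Δ` such that `x = ∑ g_j(ξ) c_j + ∑ d_l(ξ) m_l`, and with
`f_{i c} = ∑ g_j(i,c) c_j + ∑ d_l(i,c) m_l` (`i = 0, 1`), `f_c = (f_{0c}, f_{1c}) ∈ V²`,
`κ_c = ∑ d_l(κ_c) m_l`: for `i ∈ I₃`: `f_(i) ∈ Wr`; for the pairs: `(κ_(i), f_(i') - Λ' f_(i)) ∈ G`;
nothing for `I₁`. This is of the form `RF`.
(←) Let `P, Q` be given, `P = ∑ g_j ⊗ c_j`, `Q = ∑ d_l ⊗ z_l` (`z_l ∈ M`, span induction over `L`), put
`m_l = r z_l`, `m'_l = r (ω z_l)`; then `r (ζ z_l) = ζ m_l`. Given: `f_c - γ (Q κ_c) ∈ Wr` for all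
`c`, hence for all `(i)`. The family `(Q κ_c)_c` is in the span of the `ξ ⊗ z`, `ξ ∈ Ξ`, `z ∈ M`; so
by `GoalNF` `(Qκ)_(i) = 0` for `i ∈ I₃`, and `(Qκ)_(i') = ω (Qκ)_(i)` for the pairs. For `I₃` we are
done. For a pair let `z = (Qκ)_(i)`, `w = f_(i) - γ z ∈ Wr`, `w' = f_(i') - γ (ω z) ∈ Wr`. Then
`f_(i') - Λ' f_(i) = (w' - Λ' w) + (γ (ω z) - Λ' γ z)`, `w' - Λ' w = w' - β w + Λ w`. By `PII.g3`,
`(0, w), (0, w') ∈ G`, and by `g1`, `d2` `(0, Λ w) ∈ G`. So `(r z, f_(i') - Λ' f_(i)) ∈ G`.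
(→) Let `c_j, m_l, m'_l` be given. Then `m_l = r z_l` by the hypothesis on the range, and
`m'_l = r (ω z_l)` by `PII.d2` (difference). Put `Q = ∑ d_l ⊗ z_l`, `P⁰ = ∑ g_j ⊗ c_j`. For `I₃`:
`f_(i) - γ ((Qκ)_(i)) = f_(i) ∈ Wr`. For a pair, `z = (Qκ)_(i)`: subtracting
`(r z, γ (ω z) - Λ' γ z) ∈ G` we get `(0, f_(i') - Λ' f_(i) - γ (ω z) + Λ' γ z) ∈ G`, by `PII.g4` it is
`w₁ + Λ w₂` with `w₁, w₂ ∈ Wr`, `= (w₁ + β w₂) - Λ' w₂`. Put `u = - f_(i) + γ z + w₂ ∈ V²`. Then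
`f_(i) + u - γ z = w₂ ∈ Wr` and `f_(i') + Λ' u - γ (ω z) = f_(i') - Λ' f_(i) + Λ' γ z + Λ' w₂ - γ (ω z)
= w₁ + β w₂ ∈ Wr`. For `i ∈ I₁` put `u = - f_(i) + γ ((Qκ)_(i))`, so `f_(i) + u - γ (..) = 0`. It
remains to see that the changes of `f` by `u` at `(i)` and `Λ' u` at `(i')` (for the pairs), and by
`u` at `(i)` for `I₁`, are given by elements of `tens EA` (with `ξ`-coordinate `0`): by the hypothesis
(ii), for `κ = s + ω t ∈ Ξ` (`s, t ∈ k^q`) the elements of `k^(IA)` with `ξ = 0` and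
`φ_c = (- α t_c, s_c)`, resp. `φ_c = (-(s_c + β t_c), t_c)`, are in `EA`. For `κ = b_i + ω b_{i'} ∈ Ξ`
(pair) they are `(0,1)` at `(i)` and `(- α, 0) = Λ' (0, 1)` at `(i')`, resp. `(-1, 0)` at `(i)` and
`(- β, 1) = Λ' (-1, 0)` at `(i')`; tensor the first with `u₂` and the second with `- u₁` and add. For
`κ = b_i`, `i ∈ I₁`, they are `(0,1)` and `(-1, 0)` at `(i)`. -/
def GoalLAII : Prop :=
  GoalNF.{u} → ∀ (k : Type u) [Field k] (α β : k), (∀ l, l ^ 2 ≠ α + β * l) → ∀ (q : ℕ)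
    (EA : Submodule k (IA 2 q → k))
    (ED : Submodule (QuadraticAlgebra k α β) (ID 2 q → QuadraticAlgebra k α β)),
    (∀ ε ∈ EA, (Sum.elim (fun i => algebraMap k (QuadraticAlgebra k α β) (ε i))
      (fun _ => 0) : ID 2 q → QuadraticAlgebra k α β) ∈ ED) →
    (∀ ε ∈ ED, (Sum.elim (fun _ => 0) (fun p => if p.1 = 0 then -(α * (ε (Sum.inr p.2)).im)
        else (ε (Sum.inr p.2)).re) : IA 2 q → k) ∈ EA ∧
      (Sum.elim (fun _ => 0) (fun p => if p.1 = 0 then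
        -((ε (Sum.inr p.2)).re + β * (ε (Sum.inr p.2)).im)
        else (ε (Sum.inr p.2)).im) : IA 2 q → k) ∈ EA) →
    ∃ φ : RF k 7, ∀ X : RS k 7, PII α β X → ∀ (M : Type u) [AddCommGroup M] [Module k M]
      [Module (QuadraticAlgebra k α β) M] [IsScalarTower k (QuadraticAlgebra k α β) M]
      (r γ₀ γ₁ : M →ₗ[k] X.V),
      (∀ m, ![r m, r ((ω : QuadraticAlgebra k α β) • m), 0, 0, 0, 0, 0] ∈ X.Rel) →
      (∀ y y', ![y, y', 0, 0, 0, 0, 0] ∈ X.Rel → ∃ m, r m = y) →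
      (∀ m, ![0, 0, 0, 0, r m, γ₀ ((ω : QuadraticAlgebra k α β) • m) - β • γ₀ m + α • γ₁ m,
        γ₁ ((ω : QuadraticAlgebra k α β) • m) + γ₀ m] ∈ X.Rel) →
      ∀ v, v ∈ φ.sol X ↔ ∃ P ∈ tens (M := X.V) EA, ∃ Q ∈ tens (M := M) ED,
        v = P (Sum.inl ()) + r (Q (Sum.inl (Sum.inl ()))) ∧
        ∀ c, ![0, 0, P (Sum.inr (0, c)) + r (Q (Sum.inl (Sum.inr (0, c)))) - γ₀ (Q (Sum.inr c)),
          P (Sum.inr (1, c)) + r (Q (Sum.inl (Sum.inr (1, c)))) - γ₁ (Q (Sum.inr c)),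
          0, 0, 0] ∈ X.Rel

/-! ### The classes of structures: axioms and strings -/

/-- PACKET CR-AX1. The classes of cases W and I are axiomatized.

Proof. A conjunction of axiomatized properties is axiomatized (union of the sets of axioms).
`PW`: one axiom with the hypotheses `w_0 = 0`, `w_2 = 0`, `m = 0` and the conclusion `w_1 = 0`.
`PI`, in terms of an arbitrary `w ∈ Rel` (`prod` and the difference show that
`![w 0, w 1, 0, 0], ![0, 0, w 2, w 3] ∈ Rel`): `prod`: `∃ w' ∈ Rel`, `w' = ![w 0, w 1, 0, 0]`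
(equations `w_0 - w'_0 = 0, ...`); `inj`: hypothesis `w_0 = 0`, conclusion `w_1 = 0` (apply it to
`![w 0, w 1, 0, 0]`); `xs`: `∃ w' = ![w 2, 0, 0, 0]`; `sx`: `∃ w' = ![0, 0, 0, w 1]`; `xs'`:
hypothesis `w_2 = 0`, `∃ w'` with `w'_1 = w_3`, `w'_2 = w'_3 = 0`. -/
def GoalAx1 : Prop :=
  ∀ (k : Type u) [Field k], Axiomatized (PW (k := k)) ∧ Axiomatized (PI (k := k))

/-- PACKET CR-AX2. The class of case II is axiomatized.

Proof. As in CR-AX1, for an arbitrary `w ∈ Rel`: `prod`: `∃ w', w'' ∈ Rel` with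
`w' = ![w 0, w 1, 0, ...]`, `w'' = ![0, 0, w 2, w 3, 0, 0, 0]`; `d1`: `∃ w' = ![w 1, α w 0 + β w 1, 0,
...]`; `d2`: hypothesis `w_0 = 0`, conclusion `w_1 = 0`; `dw`: `∃ w' = ![0, 0, w 1, - w 0, 0, 0, 0]`;
`w0`: hypothesis `w_3 = 0`, conclusion `w_2 = 0`; `g1`: `∃ w', w''` with `w'_0 = w_4`,
`w'_2 = ... = w'_6 = 0`, `w'' = ![0, 0, 0, 0, w'_1, α w 6, w 5 + β w 6]`; `g2`: `∃ w'` with
`w'_0 = ... = w'_3 = 0`, `w'_4 = w_0`; `g3`: `∃ w' = ![0, 0, 0, 0, 0, w 2, w 3]`; `g4`: hypothesis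
`w_4 = 0`, `∃ w', w''` with coordinates `0, 1, 4, 5, 6` zero, `w_5 = w'_2 + α w''_3`,
`w_6 = w'_3 + w''_2 + β w''_3`. (For `w ∈ Rel` all three parts of `w` are in `Rel` by `prod` and by
taking the difference.) -/
def GoalAx2 : Prop :=
  ∀ (k : Type u) [Field k] (α β : k), Axiomatized (PII α β)

/-- PACKET CR-STRW. Strings in case W.

Proof. `ρs.Sat y s ↔ ![y, -s, 0] ∈ Rel`. `ρx.Sat y s ↔ ∃ s₁ s₂ y₂, s = s₁ + s₂ ∧ ![0, -s₁, y] ∈ Rel ∧
![y, 0, 0] ∈ Rel ∧ ![y₂, -s₂, 0] ∈ Rel`. First clause: `![y, 0, 0] ∈ Rel`. Second clause: `s₁ = 0`,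
`s₂ = s`, `y₂ = y`. For `t : ℤ → Bool` let `V = ℤ →₀ k`, `z i = single i 1`, `E = k`,
`ε i v = v i`, and `Rel = {w | ∀ i, (t i = true → w 2 i = 0) ∧
w 1 (i+1) + (if t i then w 0 i else w 2 i) = 0}`. `PW`: `![0, v, 0] ∈ Rel` gives `v (i+1) = 0` for all
`i`. `t i = true`: `![z i, -z (i+1), 0] ∈ Rel` (check the coordinate `j = i` and `j ≠ i`);
`![y, -s, 0] ∈ Rel` gives `- s (i+1) + y i = 0`. `t i = false`: `ρx.Sat (z i) (z (i+1))` with
`s₁ = z (i+1)`, `s₂ = 0`, `y₂ = 0`; if `ρx.Sat y s` then `- s₁ (i+1) + y i = 0` and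
`- s₂ (i+1) + 0 = 0`, so `s (i+1) = y i`. -/
def GoalStrW : Prop := ∀ (k : Type u) [Field k], StringData (PW (k := k))

/-- PACKET CR-STRI. Strings in case I.

Proof. `ρs.Sat y s ↔ ![y, s, 0, 0] ∈ Rel`, `ρx.Sat y s ↔ ![0, 0, y, s] ∈ Rel`. First clause: `PI.xs`,
second: `PI.sx`. For `t : ℤ → Bool` let `V = ℤ →₀ k`, `z i = single i 1`, `E = k`, `ε i v = v i` and
`Rel = {w | ∀ i, w 1 (i+1) = (if t i then w 0 i else 0) ∧ (t i = true → w 2 i = 0) ∧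
(t i = false → w 3 (i+1) = w 2 i)}`. `PI`: `prod`, `inj` clear; `xs`: `w 2 i = 0` if `t i`; `sx`:
`w 1 (i+1) = 0` if `t i = false`; `xs'`: for `s` with `s (i+1) = 0` whenever `t i = false` let
`y i = if t i then s (i+1) else 0` (finite support). The remaining clauses are immediate. -/
def GoalStrI : Prop := ∀ (k : Type u) [Field k], StringData (PI (k := k))

/-- PACKET CR-STRII. Strings in case II.

Proof. Write `Δ(y,y')`, `Wr(u,v)`, `G(y,u,v)` for `![y, y', 0, ...] ∈ Rel`, ...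
`ρs.Sat y s ↔ ∃ y', Wr(-y', y) ∧ Wr(α y - s, β y - y')`, `ρx.Sat y s ↔ G(y, s, 0)`.
First clause: let `G(y,s,0)`; by `g1` there is `y'` with `Δ(y,y')`. By `dw` `Wr(y', -y)`, so
`Wr(-y', y)`; by `d1` `Δ(y', α y + β y')`, by `dw` `Wr(α y + β y', - y')`, and adding `β` times
`Wr(-y', y)`: `Wr(α y, β y - y')`. Second clause: let `Wr(-y', y)`, `Wr(α y - s, β y - y')`. By `g3`
`G(0, -y', y)`, `G(0, α y - s, β y - y')`; by `g1` (and `d2`) for the first, `G(0, α y, - y' + β y)`; the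
difference is `G(0, s, 0)`.
For `t : ℤ → Bool` let `L = QuadraticAlgebra k α β`, `V = ℤ →₀ L`, `z i = single i 1`, `E = L`,
`ε i v = v i`, and let `Rel` be the set of the `w` with, for all `i`:
`t i = true → w 0 i = 0 ∧ w 1 i = 0`; `t i = false → w 1 i = ω * w 0 i`;
`(w 2 + ω w 3)(i+1) = if t i then C (im (w 3 i)) else 0` (`C : k → L` the inclusion);
`t i = true → w 4 i = 0`; `t i = false → (w 5 + ω w 6)(i+1) = w 4 i`.
`PII`: recall `ω² = α + β ω`. `prod`, `d1`, `d2` clear. `dw`: `(y' - ω y)(i+1) = 0` for all `i` and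
`im (- y i) = 0` if `t i = true`. `w0` clear. `g1`: `y' = ω y` pointwise;
`α v + ω (u + β v) = ω (u + ω v)`. `g2`: `u (i+1) = y i`, `v = 0`. `g3` clear. `g4`: put `D = u + ω v`,
so `D (i+1) = 0` if `t i = false`. Let `v₂ i = if t i then ⟨re D(i+1) - im (v i), im D(i+1)⟩ else 0`,
`u₂ (i+1) = (if t i then C (im (v₂ i)) else 0) - ω v₂ (i+1)`, `v₁ = v - u₂ - β v₂`,
`u₁ = u - α v₂` (all finitely supported). `Wr(u₂, v₂)` by construction. `Wr(u₁, v₁)`: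
`(u₁ + ω v₁)(i+1) = D (i+1) - ω (u₂ + ω v₂)(i+1)`, which is `0` if `t i = false`, and
`D (i+1) - ω im D(i+1) = C (re D(i+1))` if `t i = true`; and
`im (v₁ i) = im (v i) - im (u₂ i) - β im (v₂ i) = im (v i) + re (v₂ i)` because
`im (u₂ i) = - im (ω v₂ i) = - (re (v₂ i) + β im (v₂ i))`; so `im (v₁ i) = re D(i+1)` if `t i = true`.
`t i = true`: `ρs.Sat (z i) (z (i+1))` with `y' = single i ω`: `- y' + ω z i = 0` and
`im (z i j) = 0`; `α z_i - z_{i+1} + ω (β z_i - y') = - z_{i+1}`, and `im (β - ω) = -1`. If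
`ρs.Sat y s` with `y'`, then `(ω y - y')(j+1) = if t j then C (im (y j)) else 0` for all `j`, in
particular `y' i - ω y i ∈ C k`, so `im (y' i) = im (ω y i) = re (y i) + β im (y i)`; the second
condition at `i + 1` reads, as `α y + ω β y = ω² y`, `ω (ω y - y')(i+1) - s (i+1) =
C (β im (y i) - im (y' i)) = - C (re (y i))`, so `s (i+1) = ω im (y i) + re (y i) = y i`.
`t i = false`: `G(z i, z (i+1), 0)`; if `G(y, s, 0)` then `s (i+1) = y i`. -/
def GoalStrII : Prop :=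
  ∀ (k : Type u) [Field k] (α β : k), StringData (PII α β)

/-! ### The data for the modules -/

/-- PACKET CR-EXI. Existence of the data in case I.

Proof. Let `VD = {y | ∃ s, ![0, 0, y, s] ∈ Rel}` (a subspace of `V`). Choose a basis `ιD` of `VD` and
a complement of `VD` in `V` with a basis `ιA`; this gives
`e : (ιA →₀ k) × (ιD →₀ k) ≃ₗ[k] V` with `e (0, ·)` an isomorphism onto `VD`. For the basis vector
with index `i ∈ ιD` choose `s_i` with `![0, 0, e (0, single i 1), s_i] ∈ Rel` and let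
`σ : (ιD →₀ k) → V` be linear with `σ (single i 1) = s_i`; then `![0, 0, e (0, z), σ z] ∈ Rel` for all
`z`. Put `γ z = ![0, - σ z]` and `Wr = {w | ![w 0, - w 1, 0, 0] ∈ Rel}`. -/
def GoalExI : Prop :=
  ∀ (k : Type u) [Field k] (X : RS k 4), PI X → ∃ S : Str k k 2 X.V, IsStrI X S

/-- PACKET CR-EXII. Existence of the data in case II.

Proof. `L = QuadraticAlgebra k α β` is a field. `VD = {y | ∃ y', ![y, y', 0, ...] ∈ Rel}` is a subspace
and `y'` is unique by `d2`; by `d1` `y' ∈ VD` and the operator `λ : y ↦ y'` of `VD` satisfies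
`λ² = β λ + α`. So `VD` is an `L`-space: `(s + t ω) y = s y + t λ y` (a ring homomorphism
`L → End_k VD`, e.g. `QuadraticAlgebra.lift`, or check the axioms directly; `Module.compHom`). Let
`ιD` be an `L`-basis of `VD` and `ιA` a `k`-basis of a complement of `VD` in `V`: we get
`e : (ιA →₀ k) × (ιD →₀ L) ≃ₗ[k] V` with `e (0, ·)` an isomorphism onto `VD` commuting with `ω` and
`λ`; so `dl` and `hD` hold. For `i ∈ ιD` let `Z_i = e (0, single i 1)`, and choose by `g2`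
`ĝ_i ∈ V²` with `(Z_i, ĝ_i) ∈ G`. Let `ĝ : (ιD →₀ k) → V²` be linear with `ĝ (single i 1) = ĝ_i` and
`γ z = ĝ (im z)` (`im` applied to the coefficients). For `z = s + ω t` (`s, t ∈ ιD →₀ k`),
`ω z = α t + ω (s + β t)`, so with `Λ (u, v) = (α v, u + β v)`, `Λ' = β - Λ`:
`γ (ω z) - Λ' γ z = ĝ (s) + β ĝ (t) - β ĝ (t) + Λ ĝ (t) = ĝ (s) + Λ ĝ (t)`. By `g1` (and uniqueness of
`y'`) `(ω Z_i, Λ ĝ_i) ∈ G`, so `(e (0, z), ĝ s + Λ ĝ t) = ∑ s_i (Z_i, ĝ_i) + t_i (ω Z_i, Λ ĝ_i) ∈ G`,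
which is the clause `g` (`Λ' (u, v) = (β u - α v, - u)`). -/
def GoalExII : Prop :=
  ∀ (k : Type u) [Field k] (α β : k), (∀ l, l ^ 2 ≠ α + β * l) → ∀ X : RS k 7, PII α β X →
    ∃ S : Str k (QuadraticAlgebra k α β) 2 X.V, IsStrII α β X S

section atoms

open IsLocalRing

/-- PACKET CR-ATI. The atomic relations of the module `T` in case I.

Proof. `F = (ιA →₀ R) × (ιD →₀ R)`, `a = r x`. Write `[h] = a h₀ + b h₁`, `chi κ = (0, x κ)`.
(K) If `[h] + chi κ ∈ W` then `(red h₀, red h₁) - γ (redD κ) ∈ Wr`, and conversely (the converse is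
the definition of `W`). Taking the difference with a representation of the element as in the
definition of `W`, it suffices: `[h] + chi κ = 0` implies `redD κ = 0` and
`(red h₀, red h₁) ∈ Wr`. At a coordinate `i ∈ ιA`: `a h₀ i + b h₁ i = 0`, so `h₀ i, h₁ i ∈ m`
(`DI.ind`). At `i ∈ ιD`: `a h₀ i + b h₁ i + x κ i = 0`. By `DI.cap` (`x (κ i) = (-h₀ i) a + (-h₁ i) b`)
`h₁ i ∈ m`, so `b h₁ i = 0`, `x κ i = - a h₀ i = - r x h₀ i`; multiply by `r`: `a κ i = - r a h₀ i = 0`,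
so `κ i ∈ m` (`DI.ind`). Hence `redD κ = 0`, `red h₁ = 0`, and `red h₀ = S.e (0, z)` for some `z`; by
`IsStrI.g1` and `PI.xs`, `![S.e (0,z), 0, 0, 0] ∈ Rel`, that is `(red h₀, 0) ∈ Wr`.
(0) `b [h] = 0` in `T` iff `b h ∈ W` iff (K, `h₀ = 0`, `h₁ = h`) `![0, - red h, 0, 0] ∈ Rel` iff
`red h = 0` (`PI.inj`).
(1) `a y - b s ∈ W` iff `(red y, - red s) ∈ Wr` iff `![red y, red s, 0, 0] ∈ Rel`.
(2) (→) Let `x y - b s ∈ W`, `y` a lift of `t'`, `π t' = π t` by (0). `x y - b s = [f] + chi κ` with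
`(red f₀, red f₁) - γ (redD κ) ∈ Wr`. At `i ∈ ιA`: `x y i = a f₀ i + b (f₁ i + s i)`; by `cap`
`f₁ i + s i ∈ m`; then `x y i = a f₀ i`, multiply by `r`: `a y i = 0`, `y i ∈ m`. At `i ∈ ιD`:
`x (y i - κ i) = a f₀ i + b (f₁ i + s i)`, so `f₁ i + s i ∈ m`, `y i - κ i ∈ m`. So
`red y = S.e (0, redD κ)`, `red s = - red f₁`. As `γ z = ![0, γ z 1]`: `![red f₀, - red f₁ + γ κ 1, 0, 0]
∈ Rel`, by `PI.sx` `![0, 0, 0, red s + γ κ 1] ∈ Rel`, and adding `IsStrI.g1`: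
`![0, 0, red y, red s] ∈ Rel`.
(←) Let `![0, 0, π t, π s] ∈ Rel`. By `hD` `π t = S.e (0, z)`; let `κ` with `redD κ = z`, and `s` a lift
of `s`. Subtracting `g1`: `![0, 0, 0, π s + γ z 1] ∈ Rel`, by `PI.xs'` there is `y₀` with
`![y₀, π s + γ z 1, 0, 0] ∈ Rel`, i.e. with `red f₀ = y₀`, `f₁ = - s`: `(red f₀, red f₁) - γ z ∈ Wr`.
So `a f₀ - b s + chi κ ∈ W`, and `t' = [(0, κ) + r f₀]` satisfies `x t' = b s` and `π t' = π t` (`r ∈ m`),
so `b (t' - t) = 0` by (0). -/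
def GoalAtI : Prop :=
  ∀ (R : Type u) [CommRing R] [IsLocalRing R] (r x b : R) (h : DI R r x b)
    (X : RS (ResidueField R) 4), PI X →
    ∀ S : Str (ResidueField R) (ResidueField R) 2 X.V, IsStrI X S →
    (∀ t : ((ctxI h).tr X S).T, b • t = 0 ↔ ((ctxI h).tr X S).π t = 0) ∧
    (∀ t s : ((ctxI h).tr X S).T, (r * x) • t = b • s ↔
      ![((ctxI h).tr X S).π t, ((ctxI h).tr X S).π s, 0, 0] ∈ X.Rel) ∧
    ∀ t s : ((ctxI h).tr X S).T, (∃ t', b • (t' - t) = 0 ∧ x • t' = b • s) ↔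
      ![0, 0, ((ctxI h).tr X S).π t, ((ctxI h).tr X S).π s] ∈ X.Rel

/-- PACKET CR-ATII. The atomic relations of the module `T` in case II.

Proof. `F = (ιA →₀ R) × (ιD →₀ R')`, `R' = R[ω]`, `ω² = α + β ω`, `a = r x`, `b = r x'`,
`x'' = α x + β x'`, `χ = x' - x ω`. Write `[h] = a h₀ + b h₁`, `chi κ = (0, χ κ)`,
`Λ (h₀, h₁) = (α h₁, h₀ + β h₁)`, `Λ' = β - Λ`, `ω' = β - ω`.
(E1) `u x + v x' = f a + g b` implies `u, v ∈ m` (multiply by `r`: `u a + v b = 0`) and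
`u x' + v x'' = α g a + (f + β g) b` (`DII.ex`). Both hold also for `u, v, f, g ∈ R'` (compare the
coefficients of `1` and `ω`; `m` replaced by `m R'`), and for elements of `F`.
(E2) `x'' - x' ω = ω' χ` in `R'` (compute: `(β - ω)(x' - x ω) = β x' - β x ω - x' ω + x (α + β ω)`).
(K) `[h] + chi κ ∈ W ↔ (red h₀, red h₁) - γ (redD κ) ∈ Wr`. As in CR-ATI it suffices: `[h] + chi κ = 0`
implies `redD κ = 0`, `(red h₀, red h₁) ∈ Wr`. `ιA`-coordinates of `h₀, h₁` are in `m` by `DII.ind`.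
At `i ∈ ιD` (in `R'`): `x' κ - x ω κ = - a h₀ - b h₁`; by (E1) with `v = κ`, `u = - ω κ`,
`f = - h₀`, `g = - h₁`: `κ ∈ m R'` and `- ω κ x' + κ x'' = ω' χ κ` (E2) `= - (α h₁ a + (h₀ + β h₁) b)`.
Also `ω' χ κ = - ω' (a h₀ + b h₁)`. So `ω' (a h₀ + b h₁) = α h₁ a + (h₀ + β h₁) b`; comparing (the
socle elements `a, b` are independent over `k`, so over `L` in `R'`): `ω' h₀ ≡ α h₁`,
`ω' h₁ ≡ h₀ + β h₁` mod `m R'`, that is `h₀ ≡ - ω h₁`. So with `y = red h₁ = S.e (0, z)`,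
`red h₀ = S.e (0, - ω z)`, `(red h₀, red h₁) = -(S.e (0, ω z), - S.e (0, z)) ∈ Wr` by `dl` and
`PII.dw`.
(0) `a h ∈ W ↔ (red h, 0) ∈ Wr ↔ red h = 0` (`PII.w0`).
(1) `a y + b y' ∈ W ↔ (red y, red y') ∈ Wr`.
(2), (3) Computation (C): let `x' y - x y' = [f] + chi κ` in `F`. Then `red y = S.e (0, redD κ)`,
`red y' = S.e (0, ω redD κ)` and `x'' y - x' y' = [Λ f] + chi (ω' κ)`. Proof: at `i ∈ ιA`: by (E1) with
`v = y`, `u = - y'`: `y, y' ∈ m` and `- y' x' + y x'' = [Λ f]`. At `i ∈ ιD`: put `μ = y - κ`,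
`ν = ω y - y'`: `x' y - x y' = χ y + x (ω y - y') = χ y + x ν`, so `χ μ + x ν = x' μ + x (ν - ω μ) = [f]`.
By (E1) `μ ∈ m R'`, `ν - ω μ ∈ m R'` and `x' (ν - ω μ) + x'' μ = [Λ f]`, i.e. (E2)
`x' ν + ω' χ μ = [Λ f]`. So `x'' y - x' y' = (x'' - x' ω) y + x' ν = ω' χ κ + ω' χ μ + x' ν =
ω' χ κ + [Λ f]`.
(2) (→) from (C) and `dl`. (←) Let `![π t, π t', 0, ...] ∈ Rel`: `π t = S.e (0, z)` (`hD`),
`π t' = S.e (0, ω z)` (`dl`, `d2`). Let `redD κ = z`, `g₀, g₁ ∈ F` with `(red g₀, red g₁) = γ z`; then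
`[g] + chi κ ∈ W`. Put `y = (0, κ) + r g₁`, `y' = (0, ω κ) - r g₀`: `x' y - x y' = chi κ + b g₁ + a g₀ ∈ W`
and `red y = π t`, `red y' = π t'` as `r ∈ m`; use (0).
(3) (→) Let `y` be a lift of `t'`, `x' y - x y' ∈ W`, so `= [f] + chi κ` with
`w := (red f₀, red f₁) - γ (redD κ) ∈ Wr`, and `x'' y - x' y' - a s₁ - b s₂ ∈ W`, which by (C) is
`[Λ f - s] + chi (ω' κ)`; by (K) `Λ (red f) - red s - γ (ω' redD κ) ∈ Wr`. With `z = redD κ`,
`γ (ω' z) = β γ z - γ (ω z)`, `red f = γ z + w`: `Λ γ z + Λ w - red s - β γ z + γ (ω z) ∈ Wr`, i.e.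
`red s - (γ (ω z) - Λ' γ z) ∈ Λ w + Wr`. By `g3`, `g1` (and `d2`) `(0, Λ w) ∈ G`, `(0, Wr) ⊆ G`, and
`(S.e (0,z), γ (ω z) - Λ' γ z) ∈ G` by `IsStrII.g`; so `(π t, π s₁, π s₂) ∈ G`.
(←) Let `(π t, π s₁, π s₂) ∈ G`; by `g1`, `hD` `π t = S.e (0, z)`, and by `IsStrII.g` and `g4`
`π s = γ (ω z) - Λ' γ z + w₁ + Λ w₂`, `w₁, w₂ ∈ Wr`. Let `redD κ = z`, and choose `f₀, f₁ ∈ F` with
`red f = γ z + w₂`; put `y = (0, κ) + r f₁`, `y' = (0, ω κ) - r f₀`. Then `x' y - x y' = [f] + chi κ ∈ W`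
and by (C) `x'' y - x' y' = [Λ f] + chi (ω' κ)`, and `Λ (red f) - π s - γ (ω' z) = Λ γ z + Λ w₂ - π s -
β γ z + γ (ω z) = - w₁ ∈ Wr`, so `x'' y - x' y' - a s₁ - b s₂ ∈ W`. -/
def GoalAtII : Prop :=
  ∀ (R : Type u) [CommRing R] [IsLocalRing R] (r x x' α β : R) (h : DII R r x x' α β)
    (X : RS (ResidueField R) 7), PII (residue R α) (residue R β) X →
    ∀ S : Str (ResidueField R)
      (QuadraticAlgebra (ResidueField R) (residue R α) (residue R β)) 2 X.V,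
    IsStrII (residue R α) (residue R β) X S →
    (∀ t : ((ctxII h).tr X S).T, (r * x) • t = 0 ↔ ((ctxII h).tr X S).π t = 0) ∧
    (∀ t t' : ((ctxII h).tr X S).T, (r * x) • t + (r * x') • t' = 0 ↔
      ![0, 0, ((ctxII h).tr X S).π t, ((ctxII h).tr X S).π t', 0, 0, 0] ∈ X.Rel) ∧
    (∀ t t' : ((ctxII h).tr X S).T, (∃ y y', (r * x) • (y - t) = 0 ∧ (r * x) • (y' - t') = 0 ∧
        x' • y - x • y' = 0) ↔
      ![((ctxII h).tr X S).π t, ((ctxII h).tr X S).π t', 0, 0, 0, 0, 0] ∈ X.Rel) ∧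
    ∀ t s₁ s₂ : ((ctxII h).tr X S).T, (∃ y y', (r * x) • (y - t) = 0 ∧ x' • y - x • y' = 0 ∧
        (α * x + β * x') • y - x' • y' = (r * x) • s₁ + (r * x') • s₂) ↔
      ![0, 0, 0, 0, ((ctxII h).tr X S).π t, ((ctxII h).tr X S).π s₁,
        ((ctxII h).tr X S).π s₂] ∈ X.Rel

/-- PACKET CR-ESP. The hypotheses (i), (ii) of `GoalLAI`, `GoalLAII` for the spaces of a pp condition.

Proof. Case I, (i): take the same `ξ, φ, η` and `κ = 0`. (ii) Let `ξ, φ, κ, η` be data for `ε ∈ ED`: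
`θ.a c ξ + ∑ θ.b c l η l = a φ_{0c} + b φ_{1c} + x κ_c`. Multiply by `r`: `r a = r b = 0`, `r x = a`, so
`r ξ, r η` solve with the right hand side `a κ_c`: the residue of `(r ξ; φ_{0c} = κ_c, φ_{1c} = 0)` is
`(0; κ_c, 0)`.
Case II, (i): take the images of `ξ, φ, η` in `R'`, `κ = 0`. (ii) Multiply the equation over `R'` by
`r`: `r χ = r x' - r x ω = b - a ω`, and for `κ_c = s + t ω`
`(b - a ω)(s + t ω) = b s - α a t + ω (b t - a s - β a t)`. Taking the coefficients of `1` and of `ω` of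
the equation (the equations have coefficients in `R`; use `QuadraticAlgebra.ext_iff`, `re`, `im` are
`R`-linear), `(re (r ξ); φ_{0c} = - α t, φ_{1c} = s)` and
`(im (r ξ); φ_{0c} = -(s + β t), φ_{1c} = t)` are data for `EA`; their first coordinates have
residue `0` as `r ∈ m`. -/
def GoalEsp : Prop :=
  (∀ (R : Type u) [CommRing R] [IsLocalRing R] (r x b : R) (h : DI R r x b) (θ : PP R),
    (∀ ε ∈ (ctxI h).EA θ, (Sum.elim ε (fun _ => 0) : ID 2 θ.n → ResidueField R) ∈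
      (ctxI h).ED θ) ∧
    ∀ ε ∈ (ctxI h).ED θ, (Sum.elim (fun _ => 0)
      (fun p => if p.1 = 0 then ε (Sum.inr p.2) else 0) : IA 2 θ.n → ResidueField R) ∈
        (ctxI h).EA θ) ∧
  ∀ (R : Type u) [CommRing R] [IsLocalRing R] (r x x' α β : R) (h : DII R r x x' α β)
    (θ : PP R),
    (∀ ε ∈ (ctxII h).EA θ, (Sum.elim (fun i => algebraMap (ResidueField R)
      (QuadraticAlgebra (ResidueField R) (residue R α) (residue R β)) (ε i))
      (fun _ => 0) : ID 2 θ.n → QuadraticAlgebra (ResidueField R) (residue R α) (residue R β)) ∈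
        (ctxII h).ED θ) ∧
    ∀ ε ∈ (ctxII h).ED θ, (Sum.elim (fun _ => 0) (fun p => if p.1 = 0 then
        -(residue R α * (ε (Sum.inr p.2)).im)
        else (ε (Sum.inr p.2)).re) : IA 2 θ.n → ResidueField R) ∈ (ctxII h).EA θ ∧
      (Sum.elim (fun _ => 0) (fun p => if p.1 = 0 then
        -((ε (Sum.inr p.2)).re + residue R β * (ε (Sum.inr p.2)).im)
        else (ε (Sum.inr p.2)).im) : IA 2 θ.n → ResidueField R) ∈ (ctxII h).EA θ

/-- PACKET CR-TW. The transfer data in case W.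

Proof. `a, b, c ∈ m` (if `a` were a unit, `t a = 0` for all `t ∈ m` would give `m = 0`, and then
`0 * a + ... `: `u = 0`; more directly: `R ≠ 0`; if `a ∉ m` it is a unit, then `b = (b a⁻¹) a` and
`ind` for `(b a⁻¹) a - 1 b + 0 c = 0` gives `1 ∈ m`). For a structure `X` with `PW X` let `S` be given by
a basis `ιA` of `X.V`, `ιD = PEmpty`, `Wr = X.Rel`, `γ = 0`, and `D X = (ctxW _).tr X S`. (K)
`a h₀ + b h₁ + c h₂ ∈ W ↔ (red h_j)_j ∈ Rel` for `h_j ∈ F` (←: definition; →: by taking differences it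
suffices that `a h₀ + b h₁ + c h₂ = 0` implies `red h_j = 0`; coordinatewise by `DW.ind`; `chi κ = 0`).
`α₀` is the condition `b t = 0`: `b h ∈ W ↔ ![0, red h, 0] ∈ Rel ↔ red h = 0` by `PW` (←: `0 ∈ Rel`).
`κ` is the condition `a x₀ + b x₁ + c x₂ = 0` (`NPP` with `m = 1`, `k = 0`). Third clause: `GoalLift`
(the `ED`-part contributes nothing: `S.e (0, q) = 0`, `γ = 0`, and `Q = 0` is allowed) and `GoalLAW`. -/
def GoalTW : Prop :=
  GoalLift.{u} → GoalLAW.{u} → ∀ (R : Type u) [CommRing R] [IsLocalRing R] (a b c : R),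
    DW R a b c → TransferData R (ResidueField R) 3 (residue R) PW

/-- PACKET CR-TI. The transfer data in case I.

Proof. For `X` with `PI X` choose `S` by `GoalExI`, and `D X = (ctxI h).tr X S`. `α₀`: `b t = 0`
(`GoalAtI`, first clause). `κ`: the condition `(r x) x₀ = b x₁ ∧ ∃ t', b (t' - x₂) = 0 ∧ x t' = b x₃`
in four variables (`NPP R 4` with three equations and one bound variable); by `GoalAtI` it means
`![π x₀, π x₁, 0, 0] ∈ Rel ∧ ![0, 0, π x₂, π x₃] ∈ Rel`, which by `PI.prod` (and the difference and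
sum) is equivalent to `(π x_i)_i ∈ Rel`. Third clause: by `GoalLift` `v` is in the image of `θ.sol T`
iff there are `P ∈ tens (EA θ)`, `Q ∈ tens (ED θ)` with the two conditions, where
`w - γ (Q κ_c) ∈ Wr` reads `![f_{0c}, -(f_{1c} - γ (Qκ_c) 1), 0, 0] ∈ Rel` (`wr`, `g0`). This is the
right hand side of `GoalLAI` with `M = ιD →₀ k`, `r = S.e (0, ·)`, `σ = - γ(·) 1`; the hypotheses of
`GoalLAI` are in `GoalEsp`, `IsStrI.g1`, `IsStrI.hD`. (`φ` depends on `θ` only.) -/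
def GoalTI : Prop :=
  GoalLift.{u} → GoalLAI.{u} → GoalExI.{u} → GoalAtI.{u} → GoalEsp.{u} →
  ∀ (R : Type u) [CommRing R] [IsLocalRing R] (r x b : R),
    DI R r x b → TransferData R (ResidueField R) 4 (residue R) PI

/-- PACKET CR-TII. The transfer data in case II.

Proof. `X²  - (α + β X)` has no root in the residue field (`DII.irr`). For `X` with `PII X` choose `S` by
`GoalExII`, `D X = (ctxII h).tr X S`. `α₀`: `(r x) t = 0`. `κ`: the condition in the variables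
`x₀, ..., x₆`: `∃ y₁ y₂, (r x)(y₁ - x₀) = 0, (r x)(y₂ - x₁) = 0, x' y₁ - x y₂ = 0`;
`(r x) x₂ + (r x') x₃ = 0`; `∃ y₃ y₄, (r x)(y₃ - x₄) = 0, x' y₃ - x y₄ = 0,
(α x + β x') y₃ - x' y₄ = (r x) x₅ + (r x') x₆`. By `GoalAtII` it means that the three parts of
`(π x_i)_i` are in `Rel`, equivalently (`PII.prod`, differences) `(π x_i)_i ∈ Rel`. Third clause:
`GoalLift`, `IsStrII.wr` and `GoalLAII` with `M = ιD →₀ L`, `r = S.e (0, ·)`, `γ_j = γ (·) j`; the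
hypotheses are in `GoalEsp`, `IsStrII`. -/
def GoalTII : Prop :=
  GoalLift.{u} → GoalLAII.{u} → GoalNF.{u} → GoalExII.{u} → GoalAtII.{u} → GoalEsp.{u} →
  ∀ (R : Type u) [CommRing R] [IsLocalRing R] (r x x' α β : R), DII R r x x' α β →
    TransferData R (ResidueField R) 7 (residue R) (PII (residue R α) (residue R β))

end atoms

/-! ### Commutative local rings -/

section local_rings

open IsLocalRing

/-- PACKET CR-LRS. A local ring without cases W, I in which any two incomparable elements generate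
the maximal ideal is Artinian.

Proof. Let `m` be the maximal ideal; `x, y` are incomparable if `¬ x ∣ y` and `¬ y ∣ x` (then both
are in `m`). Not case I says: (N) for `x, q, r ∈ m`: `x ∣ q` or `q ∣ r x`.
Choose incomparable `a, b`; so `m = (a, b)`, and `m` is not principal. For `y ∈ m²` and incomparable
`u, v`: `u ∣ y` with quotient in `m`. Indeed `m = (u, v)`. If `u, y` are incomparable, then
`m = (u, y)`, so `m ≤ (u) + m²`, and by Nakayama (`m` finitely generated) `m = (u)`, so `u ∣ v`, a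
contradiction. If `y ∣ u`, then `u ∈ m²`, `m ≤ (v) + m²`, `m = (v)`, a contradiction. So `u ∣ y`,
`y = t u`; `t` is not a unit (else `y ∣ u`). Hence (1) `m² = m u` for every `u` which is incomparable
to some `v`. Elements of `m²` are pairwise comparable (if `y, y' ∈ m²` are incomparable then
`m = (y, y') ≤ m²`, so `m = 0` by Nakayama, but `a ≠ 0`). `m² = m a = (a², ab)`, and `a², ab` are
comparable, so (2) `m² = (y₀)` for some `y₀`. Claim (3): `y₀ u = 0` for every `u` incomparable to some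
`v`. Write `u² = p y₀`, `u v = q y₀`, and `g = q u - p v`, so `g u = (q p - p q) y₀ = 0`. If `p, q ∈ m`,
then `m u = (u², uv) ≤ m y₀ ≤ m m²`, so `m² ≤ m m²`, `m² = 0` (Nakayama), `y₀ = 0`. If `p` or `q` is a
unit, then `g` and one of `u, v` generate `m`: if `p` is a unit, `m = (u, v) = (u, g)`, so `g, u` are
incomparable (`m` is not principal), and by (1) `m² = m g = (g u, g²) = (g²)`, `y₀ = t g²`,
`y₀ u = t g (g u) = 0`. If `p ∈ m` and `q` is a unit, `m = (g, v)`, `g, v` are incomparable, and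
`m² = m g`; `y₀ ∈ m g`, so `y₀ = s g` and `y₀ u = s g u = 0`. (In both cases simply: `y₀ ∈ m g`,
so `y₀ u ∈ m g u = 0`.) So `m³ = y₀ m = (y₀ a, y₀ b) = 0` by (3).
`R` is Noetherian: the only prime ideal is `m` (a prime contains `m³ = 0`), it is finitely generated;
use `IsNoetherianRing.of_prime`. Then `isArtinianRing_iff_isNilpotent_maximalIdeal`. (`CaseW` is not
needed.) -/
def GoalLRS : Prop :=
  ∀ (R : Type u) [CommRing R] [IsLocalRing R], ¬ CaseI R → (∃ a b : R, ¬ a ∣ b ∧ ¬ b ∣ a) →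
    (∀ a b : R, ¬ a ∣ b → ¬ b ∣ a → maximalIdeal R = Ideal.span {a, b}) → IsArtinianRing R

/-- PACKET CR-LR1. The basic lemmas for local rings without cases W and I (`m` = maximal ideal;
`inc a b`: `¬ a ∣ b` and `¬ b ∣ a`).

Proof. (N) for `x, q, r ∈ m`: `x ∣ q` or `q ∣ r x` (not case I). (W') for all `a, b, c`: `a ∈ (b, c)` or
`b ∈ (a, c)` or `c ∈ (a, b)`: since not case W there are `u, v, w`, not all in `m`, with
`u a + v b + w c ∈ m (a, b, c)`, so `(u - u') a + (v - v') b + (w - w') c = 0` with `u', v', w' ∈ m`, and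
one of the coefficients is a unit. Incomparable elements are in `m`.
(1) `inc x y`, `t ∈ m` imply `t x = t' y` for some `t' ∈ m`: by (N) (`¬ x ∣ y`) `y ∣ t x`, `t x = s y`,
and `s` is not a unit since `¬ x ∣ y`.
(2) `inc a b`, `x ∈ m`, `x ∉ (a, b)` imply `a = r x` for some `r ∈ m` (and so `b = r' x` by symmetry).
By (W') `a = u b + v x` or `b = u a + v x`; `v ∈ m` since `x ∉ (a, b)`. If `x ∣ a`, `a = r x`, `r` is not a
unit as `x ∉ (a, b)`, done. Otherwise `inc a x` (`¬ a ∣ x` as `x ∉ (a, b)`), and (1) gives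
`v x = v' a`, `v' ∈ m`. In the first case `(1 - v') a = u b`, so `b ∣ a`, in the second case
`b = (u + v') a`; contradictions.
(3) `inc a b`, `x ∈ m \ (a, b)`: there are `r, r₂, x' ∈ m` and `α, β ∈ R` with `a = r x`, `b = r₂ x = r x'`,
`r₂ x' = α a + β b`, and `inc r r₂`, `inc x x'`. By (2) `a = r x`, `b = r₂ x`. `inc r r₂`: `r₂ = t r`
gives `b = t a`, `r = t r₂` gives `a = t b`. By (1) for `inc r₂ r`, `x ∈ m`: `x r₂ = x' r`, `x' ∈ m`.
`inc x x'`: `x' = t x` gives `b = t a`, `x = t x'` gives `a = t b`. Let `y = r₂ x'`; if `y ∉ (a, b)`,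
then by (2) `a = t y`, `t ∈ m`; by (1) for `inc x' x`: `t x' = t₁ x`, and `a = r₂ t x' = t₁ r₂ x = t₁ b`,
a contradiction. So `y = α a + β b`. -/
def GoalLR1 : Prop :=
  ∀ (R : Type u) [CommRing R] [IsLocalRing R], ¬ CaseW R → ¬ CaseI R →
    (∀ a b c : R, a ∈ Ideal.span {b, c} ∨ b ∈ Ideal.span {a, c} ∨ c ∈ Ideal.span {a, b}) ∧
    (∀ x y : R, ¬ x ∣ y → ¬ y ∣ x → ∀ t ∈ maximalIdeal R, ∃ t' ∈ maximalIdeal R,
      t * x = t' * y) ∧
    (∀ a b : R, ¬ a ∣ b → ¬ b ∣ a → ∀ x ∈ maximalIdeal R, x ∉ Ideal.span {a, b} →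
      ∃ r ∈ maximalIdeal R, a = r * x) ∧
    ∀ a b : R, ¬ a ∣ b → ¬ b ∣ a → ∀ x ∈ maximalIdeal R, x ∉ Ideal.span {a, b} →
      ∃ r ∈ maximalIdeal R, ∃ r₂ ∈ maximalIdeal R, ∃ x' ∈ maximalIdeal R, ∃ α β : R,
        a = r * x ∧ b = r₂ * x ∧ b = r * x' ∧ r₂ * x' = α * a + β * b ∧
        ¬ r ∣ r₂ ∧ ¬ r₂ ∣ r ∧ ¬ x ∣ x' ∧ ¬ x' ∣ x

/-- PACKET CR-LR2. Two more lemmas for local rings without cases W and I. Let `inc a b`, `I = (a, b)`,
`mI = m I`; `r, r₂, x, x' ∈ m`, `a = r x`, `b = r₂ x = r x'` (so `inc x x'`, `inc r r₂`, `x ∉ I`: else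
`a = r x ∈ m I`, impossible).

Proof. `m I = m a` (by (1) of CR-LR1 `ν b = ν' a`), and independence: `u a + v b ∈ m I` implies
`u, v ∈ m` (`(u - u') a + (v - v') b = 0` with `u', v' ∈ m`, `inc a b`). For `c ∈ I \ m I` there is
`d ∈ {a, b}` such that `I = (c, d)`, and then `c, d` are incomparable and independent mod `m I` (write
`c = u a + v b` with `u` or `v` a unit).
(Z) If `ρ ∈ m`, `ρ x' ∈ I \ m I` then `ρ x ∉ m I`; and symmetrically with `x, x'` exchanged. Proof of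
the first: suppose `ρ x ∈ m I`, put `c = ρ x'`, `I = (c, d)` as above. `ρ ∉ I` (else `c ∈ m I`), so by
(2) of CR-LR1 (for the incomparable pair `d, c` and the element `ρ`) `d = b₁ ρ`, `b₁ ∈ m`. Apply (W') to
`x', x, b₁`. `x' = u x + v b₁`: multiply by `ρ`: `c = u ρ x + v d ∈ m I + (d)`, contradicting the
independence of `c, d`. `b₁ = u x' + v x`: `d ∈ (c) + m I`, the same. `x = u x' + v b₁`: `ρ x = u c + v d ∈
m I`, so `u, v ∈ m`; `x', b₁` are incomparable (`x' = t b₁` gives `c = t d`, `b₁ = t x'` gives `d = t c`),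
so by (1) `v b₁ = v' x'` and `x' ∣ x`, a contradiction. The second statement is the same with `x, x'`
exchanged (use only `inc x x'`).
(F) `ζ ∈ R`, `ζ x ∈ m I` imply `ζ x' ∈ m I`. `ζ ∈ m`, since `x ∉ I`. Let `y = ζ x' ∉ m I`. If `y ∈ I`
this contradicts (Z) with `ρ = ζ`. If `y ∉ I`: `y ∈ m`, by (2) `a = t y`, `t ∈ m`, and `ρ = t ζ` has
`ρ x' = a ∈ I \ m I`, `ρ x = t ζ x ∈ m I`, contradicting (Z).
(IRR) If `α, β ∈ R` and `r₂ x' - (α a + β b) ∈ m I`, then `l² - (α + β l) ∉ m` for all `l ∈ R`. Suppose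
`l² - α - β l ∈ m`. Put `ρ = r₂ - l r`, `χ = x' - (β - l) x`. Then `ρ χ = r₂ x' - (β - l) r₂ x - l r x' +
l (β - l) r x ≡ α a + β b - (β - l) b - l b + l (β - l) a = (α + β l - l²) a ∈ m I` mod `m I`. And
`ρ x = b - l a ∈ I \ m I`. `x, χ` are incomparable (`χ = x' - (β - l) x`, `inc x x'`). (Z) holds for
every incomparable pair in place of `x', x`: precisely, (Z') if `inc x χ`, `ρ ∈ m`, `ρ x ∈ I \ m I`,
then `ρ χ ∉ m I`; the proof above uses only this. So we have a contradiction. -/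
def GoalLR2 : Prop :=
  ∀ (R : Type u) [CommRing R] [IsLocalRing R], ¬ CaseW R → ¬ CaseI R →
    ∀ a b r r₂ x x' : R, ¬ a ∣ b → ¬ b ∣ a → r ∈ maximalIdeal R → r₂ ∈ maximalIdeal R →
    x ∈ maximalIdeal R → x' ∈ maximalIdeal R → a = r * x → b = r₂ * x → b = r * x' →
    (∀ u v : R, u * a + v * b ∈ maximalIdeal R * Ideal.span {a, b} →
      u ∈ maximalIdeal R ∧ v ∈ maximalIdeal R) ∧
    (∀ ζ : R, ζ * x ∈ maximalIdeal R * Ideal.span {a, b} →
      ζ * x' ∈ maximalIdeal R * Ideal.span {a, b}) ∧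
    ∀ α β : R, r₂ * x' - (α * a + β * b) ∈ maximalIdeal R * Ideal.span {a, b} →
      ∀ l : R, l ^ 2 - (α + β * l) ∉ maximalIdeal R

/-- PACKET CR-LR3. Case II.

Proof. Let `a, b` be incomparable with `m ≠ (a, b)`; choose `x ∈ m \ (a, b)` and `r, r₂, x', α, β` by
(3) of `GoalLR1`. By symmetry of the roles of `(r, r₂)` and `(x, x')` (`a = r x`, `b = r x' = r₂ x`) we
distinguish:
Case A: `m ≠ (x, x')` or `m ≠ (r, r₂)`. Exchanging the roles (then `x := r`, `x' := r₂`, `r := x`,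
`r₂ := x'`) we may assume `m ≠ (x, x')`. (`x ∉ (a,b)` also after the exchange: `r ∈ I` would give
`a ∈ m I`.) Let `x₁ ∈ m \ (x, x')`. (3) of `GoalLR1` for `inc x x'` and `x₁` gives
`t, t₂, x₁' ∈ m` and `α, β` with `x = t x₁`, `x' = t₂ x₁ = t x₁'`, `t₂ x₁' = α x + β x' =: x''`, and
`inc x₁ x₁'`. (C) For `v ∈ m` there is `v₁ ∈ m` with `v x' = v₁ x` and `v x'' = v₁ x'`: by (1) of
`GoalLR1`, `v x₁' = v₁ x₁`; then `v x' = t v x₁' = v₁ t x₁ = v₁ x` and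
`v x'' = t₂ v x₁' = v₁ t₂ x₁ = v₁ x'`.
(a) `r₂ x' ≡ α a + β b` mod `m I`: (C) for `v = r`: `b = r x' = v₁ x`, `r x'' = v₁ x'`; as
`(v₁ - r₂) x = 0`, (F) of `GoalLR2` gives `(v₁ - r₂) x' ∈ m I`, so `r₂ x' ≡ v₁ x' = r x'' = α a + β b`.
By `GoalLR2` `l² - (α + β l) ∉ m` for all `l`.
(b) Let `u x + v x' ≡ f a + g b` mod `m I`. Multiply by `r`: `u a + v b ∈ m I`, so `u, v ∈ m`. By (C)
`u x + v x' = ζ x`, `u x' + v x'' = ζ x'` with `ζ = u + v₁`. Put `ζ₀ = ζ - f r - g r₂`; `ζ₀ x ∈ m I`,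
so by (F) `ζ₀ x' ∈ m I`, `u x' + v x'' = ζ x' ≡ f r x' + g r₂ x' ≡ f b + g (α a + β b) =
α g a + (f + β g) b` mod `m I`.
Case B: `m = (x, x') = (r, r₂)`. Use `α, β` of (3). (a) holds with equality. (b) Let
`u x + v x' ≡ f a + g b` mod `m I`; as in case A `u, v ∈ m`, so `u = u₁ r + u₂ r₂`, `v = v₁ r + v₂ r₂`.
Then `u x + v x' = u₁ a + u₂ b + v₁ b + v₂ (α a + β b) = (u₁ + α v₂) a + (u₂ + v₁ + β v₂) b`, so by
independence `f ≡ u₁ + α v₂`, `g ≡ u₂ + v₁ + β v₂` mod `m`. And `u x' + v x''` with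
`x'' = α x + β x'`: `r x'' = α a + β b`, `r₂ x'' = α b + β (α a + β b)`, so
`u x' + v x'' = u₁ b + u₂ (α a + β b) + v₁ (α a + β b) + v₂ (α b + β (α a + β b))
= α (u₂ + v₁ + β v₂) a + (u₁ + α v₂ + β (u₂ + v₁ + β v₂)) b ≡ α g a + (f + β g) b`.
In all cases `CaseII R` holds with `r, x, x', α, β` (`a = r x`, `b = r x'`; the first clause is the
independence in `GoalLR2`). -/
def GoalLR3 : Prop :=
  GoalLR1.{u} → GoalLR2.{u} → ∀ (R : Type u) [CommRing R] [IsLocalRing R], ¬ CaseW R → ¬ CaseI R →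
    ∀ a b : R, ¬ a ∣ b → ¬ b ∣ a → maximalIdeal R ≠ Ideal.span {a, b} → CaseII R

end local_rings

end Pool.Agent.Helper10.CR
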